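import Pool.Agent.Run7.h560.Rot

/-!
# The triangulation in barycentric coordinates
-/

set_option autoImplicit false

namespace Run7.h560.Abs

open Finset Run7.h560.Kuhn Run7.h560.Region

variable {N : ℕ}

/-- Integer vectors as real vectors. -/
def toR (v : Fin N → ℤ) : Fin N → ℝ := fun i => (v i : ℝ)

lemma toR_injective : Function.Injective (toR : (Fin N → ℤ) → (Fin N → ℝ)) := by
  intro v w h
  funext i
  have := congrFun h i
  simp only [toR] at this
  exact_mod_cast this

/-- The data: an abstract simplicial complex `T` with vertex set in `Fin N`, a set `S` of special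
simplices of `T` of even size, no two of which lie in a common simplex of `T`, and regions for the
special simplices. -/
structure Data (N : ℕ) (c : ℤ) where
  T : Finset (Fin N) → Prop
  S : Finset (Fin N) → Prop
  act : Finset (Fin N) → (Fin N → ℤ) → Set Ineq
  cpos : 0 < c
  down : ∀ σ σ', σ' ⊆ σ → T σ → T σ'
  ne : ∀ τ, S τ → τ.Nonempty
  reg : ∀ τ, S τ → IsRegions τ c (act τ)
  conf : ∀ τ τ' σ, S τ → S τ' → T σ → τ ⊆ σ → τ' ⊆ σ → τ = τ'

variable {c : ℤ} (D : Data N c)

/-- Simplices without half-integral vertices, away from the special simplices. -/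
structure PieceA (σ : Finset (Fin N)) (A : Finset (Fin N → ℤ)) : Prop where
  T : D.T σ
  noS : ∀ τ, D.S τ → ¬ τ ⊆ σ
  K : IsKuhn A
  nn : ∀ v ∈ A, ∀ i, 0 ≤ v i
  sum : ∀ v ∈ A, ∑ i, v i = c
  supp : ∀ v ∈ A, ∀ i ∉ σ, v i = 0

/-- Simplices with a half-integral vertex. -/
structure PieceB (σ τ : Finset (Fin N)) (l : Fin N → ℤ) (f : Ineq) (A : Finset (Fin N → ℤ)) :
    Prop where
  T : D.T σ
  S : D.S τ
  sub : τ ⊆ σ
  adm : Adm τ c l
  lsupp : ∀ i ∉ σ, l i = 0
  hf : f ∈ D.act τ l
  K : IsKuhn A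
  nn : ∀ v ∈ A, ∀ i, 0 ≤ v i
  sum : ∀ v ∈ A, ∑ i, v i = c
  supp : ∀ v ∈ A, ∀ i ∉ σ, v i = 0
  ge : ∀ v ∈ A, ∀ g ∈ D.act τ l, 0 ≤ g.val (toR v)
  eq : ∀ v ∈ A, f.val (toR v) = 0

/-- The simplices of the triangulation. -/
def FaceX (t : Finset (Fin N → ℝ)) : Prop :=
  t.Nonempty ∧ ((∃ σ A, PieceA D σ A ∧ ∀ v ∈ t, ∃ w ∈ A, toR w = v) ∨
    ∃ σ τ l f A, PieceB D σ τ l f A ∧ ∀ v ∈ t, v = pt τ l ∨ ∃ w ∈ A, toR w = v)

lemma pt_ne {τ : Finset (Fin N)} (hτ : τ.Nonempty) (l w : Fin N → ℤ) : pt τ l ≠ toR w := by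
  intro h
  obtain ⟨i, hi⟩ := hτ
  have := congrFun h i
  simp only [pt, toR, if_pos hi] at this
  have h1 : (2 * l i + 1 : ℝ) = 2 * w i := by linarith
  have h2 : 2 * l i + 1 = 2 * w i := by exact_mod_cast h1
  omega

lemma val_comb (f : Ineq) (t : Finset (Fin N → ℝ)) (a : (Fin N → ℝ) → ℝ)
    (ha : ∑ v ∈ t, a v = 1) :
    f.val (fun i => ∑ v ∈ t, a v * v i) = ∑ v ∈ t, a v * f.val v := by
  simp only [Ineq.val]
  rw [Y_comb t a (fun v => v), Y_comb t a (fun v => v)]
  simp only [mul_sub, sum_sub_distrib]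
  rw [← sum_mul, ha, one_mul]

/-- The last step of uniqueness. -/
lemma unique_last (p : Fin N → ℝ) (hp : ∀ w : Fin N → ℤ, p ≠ toR w) (t t' : Finset (Fin N → ℝ))
    (A A' : Finset (Fin N → ℤ)) (hA : IsKuhn A) (hA' : IsKuhn A') (a b : (Fin N → ℝ) → ℝ)
    (ha : ∀ v, 0 ≤ a v) (hb : ∀ v, 0 ≤ b v) (ha0 : ∀ v ∉ t, a v = 0) (hb0 : ∀ v ∉ t', b v = 0)
    (hta : ∀ v, a v ≠ 0 → v = p ∨ ∃ w ∈ A, toR w = v)
    (htb : ∀ v, b v ≠ 0 → v = p ∨ ∃ w ∈ A', toR w = v)
    (hsa : ∑ v ∈ t, a v = 1) (hsb : ∑ v ∈ t', b v = 1)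
    (hx : ∀ i, ∑ v ∈ t, a v * v i = ∑ v ∈ t', b v * v i) (hab : a p = b p) : a = b := by
  classical
  have conv : ∀ (t : Finset (Fin N → ℝ)) (A : Finset (Fin N → ℤ)) (a : (Fin N → ℝ) → ℝ),
      (∀ v, 0 ≤ a v) → (∀ v ∉ t, a v = 0) → (∀ v, a v ≠ 0 → v = p ∨ ∃ w ∈ A, toR w = v) →
      ∀ F : (Fin N → ℝ) → ℝ, ∑ v ∈ t, a v * F v = a p * F p +
        ∑ w ∈ A.filter (fun w => 0 < a (toR w)), a (toR w) * F (toR w) := by
    intro t A a ha ha0 hta F
    have h1 : p ∉ (A.filter (fun w => 0 < a (toR w))).image toR := by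
      intro h
      obtain ⟨w, -, hw⟩ := mem_image.1 h
      exact hp w hw.symm
    have h2 : ∑ v ∈ insert p ((A.filter (fun w => 0 < a (toR w))).image toR), a v * F v =
        a p * F p + ∑ w ∈ A.filter (fun w => 0 < a (toR w)), a (toR w) * F (toR w) := by
      rw [sum_insert h1, sum_image (fun x _ y _ h => toR_injective h)]
    rw [← h2]
    have h3 : ∑ v ∈ t, a v * F v =
        ∑ v ∈ t ∪ insert p ((A.filter (fun w => 0 < a (toR w))).image toR), a v * F v := by
      refine sum_subset subset_union_left (fun v _ hv => ?_)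
      rw [ha0 v hv, zero_mul]
    have h4 : ∑ v ∈ insert p ((A.filter (fun w => 0 < a (toR w))).image toR), a v * F v =
        ∑ v ∈ t ∪ insert p ((A.filter (fun w => 0 < a (toR w))).image toR), a v * F v := by
      refine sum_subset subset_union_right (fun v _ hv => ?_)
      by_cases hav : a v = 0
      · rw [hav, zero_mul]
      · exfalso
        apply hv
        rcases hta v hav with h | ⟨w, hw, h⟩
        · rw [h]; exact mem_insert_self _ _
        · refine mem_insert_of_mem (mem_image.2 ⟨w, mem_filter.2 ⟨hw, ?_⟩, h⟩)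
          rw [h]
          exact lt_of_le_of_ne (ha v) (Ne.symm hav)
    rw [h3, h4]
  set A₁ := A.filter (fun w => 0 < a (toR w)) with hA₁
  set A₂ := A'.filter (fun w => 0 < b (toR w)) with hA₂
  have c1 := conv t A a ha ha0 hta
  have c2 := conv t' A' b hb hb0 htb
  have hs : ∑ w ∈ A₁, a (toR w) = ∑ w ∈ A₂, b (toR w) := by
    have e1 := c1 (fun _ => 1)
    have e2 := c2 (fun _ => 1)
    simp only [mul_one] at e1 e2
    rw [hsa] at e1
    rw [hsb] at e2
    rw [← hA₁] at e1
    rw [← hA₂] at e2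
    linarith
  have hc : ∀ i, ∑ w ∈ A₁, a (toR w) * (w i : ℝ) = ∑ w ∈ A₂, b (toR w) * (w i : ℝ) := by
    intro i
    have e1 := c1 (fun v => v i)
    have e2 := c2 (fun v => v i)
    have e3 := hx i
    rw [e1, e2, hab] at e3
    exact add_left_cancel e3
  obtain ⟨h1, h2⟩ := Kuhn.unique (A := A₁) (B := A₂) (α := fun w => a (toR w))
    (β := fun w => b (toR w)) (fun w hw => (mem_filter.1 hw).2) (fun w hw => (mem_filter.1 hw).2)
    (hA.mono (filter_subset _ _)) (hA'.mono (filter_subset _ _)) hs hc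
  funext v
  by_cases hvp : v = p
  · rw [hvp, hab]
  by_cases hav : a v = 0
  · by_cases hbv : b v = 0
    · rw [hav, hbv]
    · exfalso
      obtain ⟨w, hw, hwv⟩ := (htb v hbv).resolve_left hvp
      have : w ∈ A₂ := mem_filter.2 ⟨hw, by rw [hwv]; exact lt_of_le_of_ne (hb v) (Ne.symm hbv)⟩
      rw [← h1] at this
      have := (mem_filter.1 this).2
      rw [hwv, hav] at this
      exact lt_irrefl _ this
  · obtain ⟨w, hw, hwv⟩ := (hta v hav).resolve_left hvp
    have : w ∈ A₁ := mem_filter.2 ⟨hw, by rw [hwv]; exact lt_of_le_of_ne (ha v) (Ne.symm hav)⟩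
    have := h2 w this
    rw [hwv] at this
    exact this

lemma pt_nonneg {τ : Finset (Fin N)} {c : ℤ} {l : Fin N → ℤ} (hl : Adm τ c l) (i : Fin N) :
    0 ≤ pt τ l i := by
  unfold pt
  have : (0 : ℝ) ≤ l i := by exact_mod_cast hl.1 i
  split_ifs <;> linarith

lemma pt_pos {τ : Finset (Fin N)} {c : ℤ} {l : Fin N → ℤ} (hl : Adm τ c l) {i : Fin N}
    (hi : i ∈ τ) : 0 < pt τ l i := by
  unfold pt
  have : (0 : ℝ) ≤ l i := by exact_mod_cast hl.1 i
  rw [if_pos hi]
  linarith

/-- Nonnegativity and the sum of the vertices. -/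
lemma FaceX.nn {t : Finset (Fin N → ℝ)} (ht : FaceX D t) :
    ∀ v ∈ t, (∀ i, 0 ≤ v i) ∧ ∑ i, v i = c := by
  intro v hv
  have hint : ∀ w : Fin N → ℤ, (∀ i, 0 ≤ w i) → ∑ i, w i = c →
      (∀ i, 0 ≤ toR w i) ∧ ∑ i, toR w i = c := by
    intro w h1 h2
    refine ⟨fun i => by simp only [toR]; exact_mod_cast h1 i, ?_⟩
    simp only [toR]
    exact_mod_cast h2
  rcases ht.2 with ⟨σ, A, hP, h⟩ | ⟨σ, τ, l, f, A, hP, h⟩
  · obtain ⟨w, hw, rfl⟩ := h v hv
    exact hint w (hP.nn w hw) (hP.sum w hw)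
  · rcases h v hv with rfl | ⟨w, hw, rfl⟩
    · exact ⟨fun i => pt_nonneg hP.adm i, sum_pt hP.adm⟩
    · exact hint w (hP.nn w hw) (hP.sum w hw)

/-- Uniqueness of the representation. -/
theorem unique_X {t t' : Finset (Fin N → ℝ)} (ht : FaceX D t) (ht' : FaceX D t')
    (a b : (Fin N → ℝ) → ℝ) (ha : ∀ v, 0 ≤ a v) (hb : ∀ v, 0 ≤ b v) (ha0 : ∀ v ∉ t, a v = 0)
    (hb0 : ∀ v ∉ t', b v = 0) (hsa : ∑ v ∈ t, a v = 1) (hsb : ∑ v ∈ t', b v = 1)
    (hx : ∀ i, ∑ v ∈ t, a v * v i = ∑ v ∈ t', b v * v i) : a = b := by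
  classical
  have hN : 0 < N := by
    by_contra h0
    have hN0 : N = 0 := by omega
    subst hN0
    obtain ⟨v, hv⟩ := ht.1
    have := (ht.nn D v hv).2
    simp at this
    have h1 := D.cpos
    have h2 : c = 0 := by exact_mod_cast this.symm
    omega
  set x : Fin N → ℝ := fun i => ∑ v ∈ t, a v * v i with hxdef
  have hx' : x = fun i => ∑ v ∈ t', b v * v i := funext hx
  have hxs : ∑ i, x i = c := by
    simp only [hxdef]
    rw [sum_comm]
    have : ∀ v ∈ t, ∑ i, a v * v i = a v * c := fun v hv => by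
      rw [← mul_sum, (ht.nn D v hv).2]
    rw [sum_congr rfl this, ← sum_mul, hsa, one_mul]
  -- a dummy half-integral vector
  set p0 : Fin N → ℝ := pt univ 0 with hp0
  have hp0ne : ∀ w : Fin N → ℤ, p0 ≠ toR w := fun w => pt_ne ⟨⟨0, hN⟩, mem_univ _⟩ _ _
  -- if `x i = 0` then all vertices used have `v i = 0`
  have hz : ∀ (t : Finset (Fin N → ℝ)) (a : (Fin N → ℝ) → ℝ), FaceX D t → (∀ v, 0 ≤ a v) →
      (∀ v ∉ t, a v = 0) → ∀ i, ∀ v, a v ≠ 0 → v i ≠ 0 → ∑ v ∈ t, a v * v i ≠ 0 := by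
    intro t a ht ha ha0 i v hav hvi
    have hvt : v ∈ t := by
      by_contra h; exact hav (ha0 v h)
    have h1 : 0 < a v * v i := mul_pos (lt_of_le_of_ne (ha v) (Ne.symm hav))
      (lt_of_le_of_ne ((ht.nn D v hvt).1 i) (Ne.symm hvi))
    have h2 : 0 < ∑ v ∈ t, a v * v i :=
      sum_pos' (fun v hv => mul_nonneg (ha v) ((ht.nn D v hv).1 i)) ⟨v, hvt, h1⟩
    exact h2.ne'
  by_cases hP : ∃ τ, D.S τ ∧ ∀ i ∈ τ, x i ≠ 0
  · obtain ⟨τ, hτ, hτx⟩ := hP
    -- both are of type B with `τ`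
    have hB : ∀ (t : Finset (Fin N → ℝ)) (a : (Fin N → ℝ) → ℝ), FaceX D t →
        (x = fun i => ∑ v ∈ t, a v * v i) →
        ∃ σ l f A, PieceB D σ τ l f A ∧ ∀ v ∈ t, v = pt τ l ∨ ∃ w ∈ A, toR w = v := by
      intro t a ht hxt
      rcases ht.2 with ⟨σ, A, hP, h⟩ | ⟨σ, τ', l, f, A, hP, h⟩
      · exfalso
        refine hP.noS τ hτ (fun i hi => ?_)
        by_contra hiσ
        apply hτx i hi
        rw [hxt]
        refine sum_eq_zero (fun v hv => ?_)
        obtain ⟨w, hw, rfl⟩ := h v hv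
        simp [toR, hP.supp w hw i hiσ]
      · have hsub : τ ⊆ σ := by
          intro i hi
          by_contra hiσ
          apply hτx i hi
          rw [hxt]
          refine sum_eq_zero (fun v hv => ?_)
          rcases h v hv with rfl | ⟨w, hw, rfl⟩
          · have h1 : i ∉ τ' := fun h => hiσ (hP.sub h)
            simp [pt, h1, hP.lsupp i hiσ]
          · simp [toR, hP.supp w hw i hiσ]
        have := D.conf τ τ' σ hτ hP.S hP.T hsub hP.sub
        subst this
        exact ⟨σ, l, f, A, hP, h⟩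
    obtain ⟨σ, l, f, A, hP, h⟩ := hB t a ht rfl
    obtain ⟨σ', l', f', A', hP', h'⟩ := hB t' b ht' hx'
    have hR := D.reg τ hτ
    have hvalge : ∀ (t : Finset (Fin N → ℝ)) (a : (Fin N → ℝ) → ℝ) (l : Fin N → ℤ)
        (A : Finset (Fin N → ℤ)) (g : Ineq), (∀ v, 0 ≤ a v) → (∀ v ∉ t, a v = 0) →
        ∑ v ∈ t, a v = 1 → Adm τ c l → g ∈ D.act τ l →
        (∀ v ∈ t, v = pt τ l ∨ ∃ w ∈ A, toR w = v) → (∀ w ∈ A, 0 ≤ g.val (toR w)) →
        a (pt τ l) / 2 ≤ g.val (fun i => ∑ v ∈ t, a v * v i) := by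
      intro t a l A g ha ha0 hsa hl hg ht hge
      rw [val_comb g t a hsa]
      by_cases hpt : pt τ l ∈ t
      · rw [← add_sum_erase t _ hpt, hR.half l hl g hg]
        have : 0 ≤ ∑ v ∈ t.erase (pt τ l), a v * g.val v := by
          refine sum_nonneg (fun v hv => mul_nonneg (ha v) ?_)
          rcases ht v (mem_of_mem_erase hv) with h | ⟨w, hw, rfl⟩
          · exact absurd h (ne_of_mem_erase hv)
          · exact hge w hw
        linarith
      · rw [ha0 _ hpt]
        have : 0 ≤ ∑ v ∈ t, a v * g.val v := by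
          refine sum_nonneg (fun v hv => mul_nonneg (ha v) ?_)
          rcases ht v hv with h | ⟨w, hw, rfl⟩
          · exact absurd (h ▸ hv) hpt
          · exact hge w hw
        linarith
    have hvaleq : ∀ (t : Finset (Fin N → ℝ)) (a : (Fin N → ℝ) → ℝ) (l : Fin N → ℤ)
        (A : Finset (Fin N → ℤ)) (g : Ineq), (∀ v ∉ t, a v = 0) →
        ∑ v ∈ t, a v = 1 → Adm τ c l → g ∈ D.act τ l →
        (∀ v ∈ t, v = pt τ l ∨ ∃ w ∈ A, toR w = v) → (∀ w ∈ A, g.val (toR w) = 0) →
        g.val (fun i => ∑ v ∈ t, a v * v i) = a (pt τ l) / 2 := by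
      intro t a l A g ha0 hsa hl hg ht hge
      rw [val_comb g t a hsa]
      by_cases hpt : pt τ l ∈ t
      · rw [← add_sum_erase t _ hpt, hR.half l hl g hg]
        have : ∑ v ∈ t.erase (pt τ l), a v * g.val v = 0 := by
          refine sum_eq_zero (fun v hv => ?_)
          rcases ht v (mem_of_mem_erase hv) with h | ⟨w, hw, rfl⟩
          · exact absurd h (ne_of_mem_erase hv)
          · rw [hge w hw, mul_zero]
        linarith
      · rw [ha0 _ hpt]
        have : ∑ v ∈ t, a v * g.val v = 0 := by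
          refine sum_eq_zero (fun v hv => ?_)
          rcases ht v hv with h | ⟨w, hw, rfl⟩
          · exact absurd (h ▸ hv) hpt
          · rw [hge w hw, mul_zero]
        linarith
    have g1 : ∀ g ∈ D.act τ l, a (pt τ l) / 2 ≤ g.val x := fun g hg =>
      hvalge t a l A g ha ha0 hsa hP.adm hg h (fun w hw => hP.ge w hw g hg)
    have g2 : ∀ g ∈ D.act τ l', b (pt τ l') / 2 ≤ g.val x := fun g hg => by
      rw [hx']
      exact hvalge t' b l' A' g hb hb0 hsb hP'.adm hg h' (fun w hw => hP'.ge w hw g hg)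
    have e1 : f.val x = a (pt τ l) / 2 := hvaleq t a l A f ha0 hsa hP.adm hP.hf h hP.eq
    have e2 : f'.val x = b (pt τ l') / 2 := by
      rw [hx']
      exact hvaleq t' b l' A' f' hb0 hsb hP'.adm hP'.hf h' hP'.eq
    by_cases hll : l = l'
    · subst hll
      have e3 := g2 f hP.hf
      have e4 := g1 f' hP'.hf
      have e5 : a (pt τ l) = b (pt τ l) := by
        apply le_antisymm <;> linarith
      refine unique_last (pt τ l) (fun w => pt_ne (D.ne τ hτ) l w) t t' A A' hP.K hP'.K a b ha hb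
        ha0 hb0 ?_ ?_ hsa hsb hx e5
      · intro v hv
        exact h v (by by_contra hc; exact hv (ha0 v hc))
      · intro v hv
        exact h' v (by by_contra hc; exact hv (hb0 v hc))
    · obtain ⟨⟨g, hg, hg0⟩, ⟨g', hg', hg0'⟩⟩ := hR.disj l l' hP.adm hP'.adm hll x hxs
        (fun g hg => le_trans (div_nonneg (ha _) (by norm_num)) (g1 g hg))
        (fun g hg => le_trans (div_nonneg (hb _) (by norm_num)) (g2 g hg))
      have e3 : a (pt τ l) = 0 := by
        have := g1 g hg
        rw [hg0] at this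
        apply le_antisymm _ (ha _)
        linarith
      have e4 : b (pt τ l') = 0 := by
        have := g2 g' hg'
        rw [hg0'] at this
        apply le_antisymm _ (hb _)
        linarith
      have i1 : ∀ v, a v ≠ 0 → ∃ w ∈ A, toR w = v := by
        intro v hv
        rcases h v (by by_contra hc; exact hv (ha0 v hc)) with h | h
        · exact absurd (h ▸ e3) hv
        · exact h
      have i2 : ∀ v, b v ≠ 0 → ∃ w ∈ A', toR w = v := by
        intro v hv
        rcases h' v (by by_contra hc; exact hv (hb0 v hc)) with h | h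
        · exact absurd (h ▸ e4) hv
        · exact h
      have j1 : a p0 = 0 := by
        by_contra hc
        obtain ⟨w, _, hw⟩ := i1 p0 hc
        exact hp0ne w hw.symm
      have j2 : b p0 = 0 := by
        by_contra hc
        obtain ⟨w, _, hw⟩ := i2 p0 hc
        exact hp0ne w hw.symm
      exact unique_last p0 hp0ne t t' A A' hP.K hP'.K a b ha hb ha0 hb0
        (fun v hv => Or.inr (i1 v hv)) (fun v hv => Or.inr (i2 v hv)) hsa hsb hx (by rw [j1, j2])
  · push Not at hP
    -- only integral vertices are used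
    have hI : ∀ (t : Finset (Fin N → ℝ)) (a : (Fin N → ℝ) → ℝ), FaceX D t → (∀ v, 0 ≤ a v) →
        (∀ v ∉ t, a v = 0) → (x = fun i => ∑ v ∈ t, a v * v i) →
        ∃ A : Finset (Fin N → ℤ), IsKuhn A ∧ ∀ v, a v ≠ 0 → ∃ w ∈ A, toR w = v := by
      intro t a ht ha ha0 hxt
      rcases ht.2 with ⟨σ, A, hQ, h⟩ | ⟨σ, τ, l, f, A, hQ, h⟩
      · exact ⟨A, hQ.K, fun v hv => h v (by by_contra hc; exact hv (ha0 v hc))⟩
      · refine ⟨A, hQ.K, fun v hv => ?_⟩
        rcases h v (by by_contra hc; exact hv (ha0 v hc)) with h1 | h1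
        · exfalso
          obtain ⟨i, hi, hxi⟩ := hP τ hQ.S
          rw [hxt] at hxi
          refine hz t a ht ha ha0 i v hv ?_ hxi
          rw [h1]
          exact (pt_pos hQ.adm hi).ne'
        · exact h1
    obtain ⟨A, hA, i1⟩ := hI t a ht ha ha0 rfl
    obtain ⟨A', hA', i2⟩ := hI t' b ht' hb hb0 hx'
    have j1 : a p0 = 0 := by
      by_contra hc
      obtain ⟨w, _, hw⟩ := i1 p0 hc
      exact hp0ne w hw.symm
    have j2 : b p0 = 0 := by
      by_contra hc
      obtain ⟨w, _, hw⟩ := i2 p0 hc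
      exact hp0ne w hw.symm
    exact unique_last p0 hp0ne t t' A A' hA hA' a b ha hb ha0 hb0
      (fun v hv => Or.inr (i1 v hv)) (fun v hv => Or.inr (i2 v hv)) hsa hsb hx (by rw [j1, j2])

lemma Hull.nonneg {x : Fin N → ℝ} {w : Fin N → ℤ} (h : Hull x w) (i : Fin N) (hx : 0 ≤ x i) :
    0 ≤ w i := by
  have := h ((i : ℕ) + 1) i 0 (by rw [Y_succ]; push_cast; linarith)
  rw [Y_succ] at this
  linarith

lemma Hull.zero {x : Fin N → ℝ} {w : Fin N → ℤ} (h : Hull x w) (i : Fin N) (hx : x i = 0) :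
    w i = 0 := by
  have h1 := Hull.nonneg h i hx.ge
  have := h i ((i : ℕ) + 1) 0 (by rw [Y_succ]; push_cast; linarith)
  rw [Y_succ] at this
  linarith

lemma Hull.sum {x : Fin N → ℝ} {w : Fin N → ℤ} (h : Hull x w) {c : ℤ} (hx : ∑ i, x i = c) :
    ∑ i, w i = c := by
  have h1 := h 0 N c (by rw [Y_zero, Y_ge x le_rfl, hx]; simp)
  have h2 := h N 0 (-c) (by rw [Y_zero, Y_ge x le_rfl, hx]; push_cast; simp)
  rw [Y_zero, Y_ge w le_rfl] at h1 h2
  linarith

lemma Hull.val {x : Fin N → ℝ} {w : Fin N → ℤ} (h : Hull x w) (f : Ineq) (hx : 0 ≤ f.val x) :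
    0 ≤ f.val (toR w) := by
  unfold Ineq.val at hx ⊢
  have h1 := h f.j f.k f.m (by linarith)
  unfold toR
  rw [Y_cast, Y_cast]
  have h2 : (Y w f.k : ℤ) - ((Y w f.j : ℤ) : ℝ) ≤ f.m := by exact_mod_cast h1
  linarith

lemma Hull.val_eq {x : Fin N → ℝ} {w : Fin N → ℤ} (h : Hull x w) (f : Ineq) (hx : f.val x = 0) :
    f.val (toR w) = 0 := by
  refine le_antisymm ?_ (Hull.val h f hx.ge)
  unfold Ineq.val at hx ⊢
  have h1 := h f.k f.j (-f.m) (by push_cast; linarith)
  unfold toR
  rw [Y_cast, Y_cast]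
  have h2 : (Y w f.j : ℤ) - ((Y w f.k : ℤ) : ℝ) ≤ ((-f.m : ℤ) : ℝ) := by exact_mod_cast h1
  push_cast at h2
  linarith

lemma mem_hull_of_rep {A : Finset (Fin N → ℤ)} {α : (Fin N → ℤ) → ℝ} (hα : ∀ v ∈ A, 0 < α v)
    (hs : ∑ v ∈ A, α v = 1) {x : Fin N → ℝ} (hx : ∀ i, ∑ v ∈ A, α v * (v i : ℝ) = x i)
    {s : Set (Fin N → ℝ)} (h : ∀ v ∈ A, toR v ∈ s) : x ∈ convexHull ℝ s := by
  have e : x = ∑ v ∈ A, α v • toR v := by
    funext i
    rw [Finset.sum_apply, ← hx i]
    rfl
  rw [e]
  exact (convex_convexHull ℝ s).sum_mem (fun v hv => (hα v hv).le) hs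
    (fun v hv => subset_convexHull ℝ s (h v hv))

lemma val_lin (f : Ineq) (x p g : Fin N → ℝ) (θ : ℝ) (h : ∀ i, x i = θ * p i + (1 - θ) * g i) :
    f.val x = θ * f.val p + (1 - θ) * f.val g := by
  have hx : x = fun i => (fun i => θ * p i) i + (fun i => (1 - θ) * g i) i := funext h
  unfold Ineq.val
  rw [hx, Y_add, Y_add, Y_smul, Y_smul, Y_smul, Y_smul]
  ring

/-- Every point is covered. -/
theorem cover_X (x : Fin N → ℝ) (hx : ∀ i, 0 ≤ x i) (hxs : ∑ i, x i = c)
    (hT : D.T (univ.filter (fun i => x i ≠ 0))) :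
    ∃ t, FaceX D t ∧ x ∈ convexHull ℝ (t : Set (Fin N → ℝ)) := by
  classical
  by_cases hP : ∃ τ, D.S τ ∧ τ ⊆ univ.filter (fun i => x i ≠ 0)
  · obtain ⟨τ, hτ, hsub⟩ := hP
    have hR := D.reg τ hτ
    obtain ⟨l, hl, hlsupp, hlf⟩ := hR.cover x hx hxs
    have hlσ : ∀ i ∉ univ.filter (fun i => x i ≠ 0), l i = 0 := by
      intro i hi
      exact hlsupp i (by by_contra hc; exact hi (mem_filter.2 ⟨mem_univ _, hc⟩))
    obtain ⟨i0, hi0⟩ := D.ne τ hτ
    -- the set of active inequalities is not empty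
    have hne : (D.act τ l).Nonempty := by
      by_contra hcon
      rw [Set.not_nonempty_iff_eq_empty] at hcon
      have := hR.bdd l hl (toR (fun i => if i = i0 then c else 0)) (by simp [toR])
        (fun i => by
          have := D.cpos
          simp only [toR]
          split_ifs
          · exact_mod_cast this.le
          · simp)
        (fun f hf => by rw [hcon] at hf; exact absurd hf (Set.notMem_empty _))
      exact pt_ne (D.ne τ hτ) l _ this.symm
    by_cases hxp : x = pt τ l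
    · obtain ⟨f, hf⟩ := hne
      refine ⟨{pt τ l}, ⟨by simp, Or.inr ⟨_, τ, l, f, ∅, ⟨hT, hτ, hsub, hl, hlσ, hf, ?_, ?_, ?_,
        ?_, ?_, ?_⟩, ?_⟩⟩, ?_⟩
      · intro v hv; exact absurd hv (notMem_empty _)
      · intro v hv; exact absurd hv (notMem_empty _)
      · intro v hv; exact absurd hv (notMem_empty _)
      · intro v hv; exact absurd hv (notMem_empty _)
      · intro v hv; exact absurd hv (notMem_empty _)
      · intro v hv; exact absurd hv (notMem_empty _)
      · intro v hv; exact Or.inl (mem_singleton.1 hv)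
      · rw [hxp]; simp
    · obtain ⟨f, hf, hmin⟩ := (hR.fin l).exists_minimalFor (fun f : Ineq => f.val x) _ hne
      have hmin' : ∀ g ∈ D.act τ l, f.val x ≤ g.val x := by
        intro g hg
        rcases le_total (f.val x) (g.val x) with h | h
        · exact h
        · exact hmin hg h
      have hlt : f.val x < 1 / 2 := by
        by_contra hcon
        push Not at hcon
        exact hxp (hR.bdd l hl x hxs hx (fun g hg => hcon.trans (hmin' g hg)))
      set θ : ℝ := 2 * f.val x with hθ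
      have hθ0 : 0 ≤ θ := by have := hlf f hf; linarith
      have hθ1 : 0 < 1 - θ := by linarith
      set g : Fin N → ℝ := fun i => (x i - θ * pt τ l i) / (1 - θ) with hg
      have hxg : ∀ i, x i = θ * pt τ l i + (1 - θ) * g i := by
        intro i
        simp only [hg]
        field_simp
        ring
      have hgval : ∀ e : Ineq, e ∈ D.act τ l → (1 - θ) * e.val g = e.val x - θ / 2 := by
        intro e he
        have h1 := val_lin e x (pt τ l) g θ hxg
        rw [hR.half l hl e he] at h1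
        linarith
      have hgsum : ∑ i, g i = c := by
        simp only [hg]
        rw [← sum_div, sum_sub_distrib, ← mul_sum, hxs, sum_pt hl]
        field_simp
      have hgge : ∀ e ∈ D.act τ l, 0 ≤ e.val g := by
        intro e he
        have h1 := hgval e he
        have h2 := hmin' e he
        have h3 : 0 ≤ (1 - θ) * e.val g := by rw [h1]; linarith
        exact nonneg_of_mul_nonneg_right h3 hθ1
      have hgf : f.val g = 0 := by
        have h1 := hgval f hf
        have h3 : (1 - θ) * f.val g = 0 := by rw [h1]; linarith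
        rcases mul_eq_zero.1 h3 with h | h
        · exact absurd h hθ1.ne'
        · exact h
      have hgnn : ∀ i, 0 ≤ g i := by
        refine hR.nonneg l hl g hgsum hgge (fun i hi => ?_)
        simp only [hg]
        rw [hi, mul_zero, sub_zero]
        exact div_nonneg (hx i) hθ1.le
      have hgsupp : ∀ i ∉ univ.filter (fun i => x i ≠ 0), g i = 0 := by
        intro i hi
        have h1 : x i = 0 := by by_contra hc; exact hi (mem_filter.2 ⟨mem_univ _, hc⟩)
        have h2 : i ∉ τ := fun h => hi (hsub h)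
        simp only [hg, pt, if_neg h2, hlσ i hi, h1]
        simp
      obtain ⟨A, α, hα, hαs, hαx, hK, hH⟩ := exists_rep' g
      refine ⟨insert (pt τ l) (A.image toR), ⟨⟨_, mem_insert_self _ _⟩, Or.inr ⟨_, τ, l, f, A,
        ⟨hT, hτ, hsub, hl, hlσ, hf, hK, ?_, ?_, ?_, ?_, ?_⟩, ?_⟩⟩, ?_⟩
      · intro v hv i; exact Hull.nonneg (hH v hv) i (hgnn i)
      · intro v hv; exact Hull.sum (hH v hv) hgsum
      · intro v hv i hi; exact Hull.zero (hH v hv) i (hgsupp i hi)
      · intro v hv e he; exact Hull.val (hH v hv) e (hgge e he)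
      · intro v hv; exact Hull.val_eq (hH v hv) f hgf
      · intro v hv
        rcases mem_insert.1 hv with h | h
        · exact Or.inl h
        · obtain ⟨w, hw, hwv⟩ := mem_image.1 h
          exact Or.inr ⟨w, hw, hwv⟩
      · have e : x = θ • pt τ l + (1 - θ) • g := by
          funext i
          simp only [Pi.add_apply, Pi.smul_apply, smul_eq_mul]
          exact hxg i
        rw [e]
        refine (convex_convexHull ℝ _) (subset_convexHull ℝ _ (by simp)) ?_ hθ0 hθ1.le (by ring)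
        exact mem_hull_of_rep hα hαs hαx (fun v hv => by
          simp only [coe_insert, coe_image]
          exact Or.inr ⟨v, hv, rfl⟩)
  · push Not at hP
    obtain ⟨A, α, hα, hαs, hαx, hK, hH⟩ := exists_rep' x
    have hAne : A.Nonempty := by
      rw [nonempty_iff_ne_empty]
      rintro rfl
      simp at hαs
    refine ⟨A.image toR, ⟨hAne.image _, Or.inl ⟨_, A, ⟨hT, hP, hK, ?_, ?_, ?_⟩, ?_⟩⟩, ?_⟩
    · intro v hv i; exact Hull.nonneg (hH v hv) i (hx i)
    · intro v hv; exact Hull.sum (hH v hv) hxs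
    · intro v hv i hi
      refine Hull.zero (hH v hv) i ?_
      by_contra hc
      exact hi (mem_filter.2 ⟨mem_univ _, hc⟩)
    · intro v hv
      obtain ⟨w, hw, hwv⟩ := mem_image.1 hv
      exact ⟨w, hw, hwv⟩
    · exact mem_hull_of_rep hα hαs hαx (fun v hv => by
        simp only [coe_image]
        exact ⟨v, hv, rfl⟩)

/-- the coefficients of `Y x k - Y x j` -/
def lin (j k : ℕ) (i : Fin N) : ℤ := (if (i : ℕ) < k then 1 else 0) - if (i : ℕ) < j then 1 else 0

lemma lin_eq (j k : ℕ) (x : Fin N → ℝ) : ∑ i, (lin j k i : ℝ) * x i = Y x k - Y x j := by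
  unfold lin Y
  rw [← sum_sub_distrib]
  refine sum_congr rfl (fun i _ => ?_)
  split_ifs <;> simp

lemma lin_pt (j k : ℕ) (τ : Finset (Fin N)) (l : Fin N → ℤ) :
    ∑ i, (lin j k i : ℝ) * pt τ l i = ((Y l k - Y l j : ℤ) : ℝ) +
      ((∑ i ∈ τ, lin j k i : ℤ) : ℝ) / 2 := by
  unfold pt
  simp only [mul_add, sum_add_distrib, mul_ite, mul_zero]
  rw [lin_eq j k (fun i => (l i : ℝ)), Y_cast, Y_cast, sum_ite_mem, univ_inter]
  push_cast
  rw [sum_div]
  congr 1
  refine sum_congr rfl (fun i _ => by ring)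

/-- Dual functionals. -/
theorem dual_X {t : Finset (Fin N → ℝ)} (ht : FaceX D t) :
    ∃ σ, D.T σ ∧ (∀ v ∈ t, ∀ i ∉ σ, v i = 0) ∧ ∀ σ', σ ⊆ σ' → D.T σ' → ∀ v ∈ t,
      ∃ (φ : Fin N → ℤ) (e : ℤ), ∑ i, (φ i : ℝ) * v i + e = 1 ∧
        (∀ w ∈ t, w ≠ v → ∑ i, (φ i : ℝ) * w i + e = 0) ∧
        ∀ τ, D.S τ → τ ⊆ σ' → Even (∑ i ∈ τ, φ i) := by
  classical
  rcases ht.2 with ⟨σ, A, hP, h⟩ | ⟨σ, τ, l, f, A, hP, h⟩
  · refine ⟨σ, hP.T, ?_, ?_⟩
    · intro v hv i hi
      obtain ⟨w, hw, rfl⟩ := h v hv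
      simp [toR, hP.supp w hw i hi]
    · intro σ' hσ' hT' v hv
      obtain ⟨w, hw, rfl⟩ := h v hv
      obtain ⟨j, k, m, h1, h2⟩ := exists_dual hP.K hw
      have base1 : ∑ i, (lin j k i : ℝ) * toR w i + m = 1 := by
        rw [lin_eq]
        unfold toR
        rw [Y_cast, Y_cast]
        exact_mod_cast h1
      have base2 : ∀ w' ∈ A, w' ≠ w → ∑ i, (lin j k i : ℝ) * toR w' i + m = 0 := by
        intro w' hw' hne
        rw [lin_eq]
        unfold toR
        rw [Y_cast, Y_cast]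
        exact_mod_cast h2 w' hw' hne
      by_cases hS : ∃ τ, D.S τ ∧ τ ⊆ σ'
      · obtain ⟨τ, hτ, hτσ'⟩ := hS
        obtain ⟨i0, hi0, hi0'⟩ : ∃ i ∈ τ, i ∉ σ := by
          by_contra hcon
          push Not at hcon
          exact hP.noS τ hτ hcon
        set r : ℤ := ∑ i ∈ τ, lin j k i with hr
        have hsub : ∀ w' ∈ A, ∑ i, ((lin j k i - if i = i0 then r else 0 : ℤ) : ℝ) * toR w' i =
            ∑ i, (lin j k i : ℝ) * toR w' i := by
          intro w' hw'
          refine sum_congr rfl (fun i _ => ?_)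
          by_cases hi : i = i0
          · have : toR w' i = 0 := by rw [hi]; simp [toR, hP.supp w' hw' i0 hi0']
            rw [this]; simp
          · simp [hi]
        refine ⟨fun i => lin j k i - if i = i0 then r else 0, m, ?_, ?_, ?_⟩
        · rw [hsub w hw]; exact base1
        · intro v' hv' hne
          obtain ⟨w', hw', rfl⟩ := h v' hv'
          rw [hsub w' hw']
          exact base2 w' hw' (fun hc => hne (by rw [hc]))
        · intro τ' hτ' hτ'σ
          have := D.conf τ' τ σ' hτ' hτ hT' hτ'σ hτσ'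
          subst this
          rw [sum_sub_distrib, sum_ite_eq' τ' i0 (fun _ => r), if_pos hi0, ← hr, sub_self]
          exact Even.zero
      · push Not at hS
        refine ⟨lin j k, m, base1, ?_, fun τ hτ hτσ => absurd hτσ (hS τ hτ)⟩
        intro v' hv' hne
        obtain ⟨w', hw', rfl⟩ := h v' hv'
        exact base2 w' hw' (fun hc => hne (by rw [hc]))
  · have hhalf := (D.reg τ hP.S).half l hP.adm f hP.hf
    refine ⟨σ, hP.T, ?_, ?_⟩
    · intro v hv i hi
      rcases h v hv with rfl | ⟨w, hw, rfl⟩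
      · have h1 : i ∉ τ := fun h => hi (hP.sub h)
        simp [pt, h1, hP.lsupp i hi]
      · simp [toR, hP.supp w hw i hi]
    · intro σ' hσ' hT' v hv
      have hτuniq : ∀ τ', D.S τ' → τ' ⊆ σ' → τ' = τ := fun τ' hτ' hsub =>
        D.conf τ' τ σ' hτ' hP.S hT' hsub (hP.sub.trans hσ')
      -- `f.val` as a functional
      have hfval : ∀ x : Fin N → ℝ, f.val x = f.m - ∑ i, (lin f.j f.k i : ℝ) * x i := by
        intro x
        rw [lin_eq]
        rfl
      have hfpt : (f.m : ℝ) - (((Y l f.k - Y l f.j : ℤ) : ℝ) +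
          ((∑ i ∈ τ, lin f.j f.k i : ℤ) : ℝ) / 2) = 1 / 2 := by
        rw [← lin_pt, ← hfval, hhalf]
      have hodd : ∑ i ∈ τ, lin f.j f.k i = 2 * (f.m - (Y l f.k - Y l f.j)) - 1 := by
        have : ((∑ i ∈ τ, lin f.j f.k i : ℤ) : ℝ) =
            ((2 * (f.m - (Y l f.k - Y l f.j)) - 1 : ℤ) : ℝ) := by
          push_cast at hfpt ⊢
          linarith
        exact_mod_cast this
      rcases h v hv with rfl | ⟨w, hw, rfl⟩
      · refine ⟨fun i => -2 * lin f.j f.k i, 2 * f.m, ?_, ?_, ?_⟩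
        · have := hfval (pt τ l)
          rw [hhalf] at this
          push_cast
          have e : ∑ i, (-2 * (lin f.j f.k i : ℝ)) * pt τ l i =
              -2 * ∑ i, (lin f.j f.k i : ℝ) * pt τ l i := by
            rw [mul_sum]
            exact sum_congr rfl (fun i _ => by ring)
          rw [e]
          linarith
        · intro v' hv' hne
          rcases h v' hv' with h1 | ⟨w', hw', rfl⟩
          · exact absurd h1 hne
          · have := hfval (toR w')
            rw [hP.eq w' hw'] at this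
            push_cast
            have e : ∑ i, (-2 * (lin f.j f.k i : ℝ)) * toR w' i =
                -2 * ∑ i, (lin f.j f.k i : ℝ) * toR w' i := by
              rw [mul_sum]
              exact sum_congr rfl (fun i _ => by ring)
            rw [e]
            linarith
        · intro τ' hτ' hsub
          rw [← mul_sum]
          exact (even_neg.2 even_two).mul_right _
      · obtain ⟨j, k, m, h1, h2⟩ := exists_dual hP.K hw
        have base1 : ∑ i, (lin j k i : ℝ) * toR w i + m = 1 := by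
          rw [lin_eq]
          unfold toR
          rw [Y_cast, Y_cast]
          exact_mod_cast h1
        have base2 : ∀ w' ∈ A, w' ≠ w → ∑ i, (lin j k i : ℝ) * toR w' i + m = 0 := by
          intro w' hw' hne
          rw [lin_eq]
          unfold toR
          rw [Y_cast, Y_cast]
          exact_mod_cast h2 w' hw' hne
        set r : ℤ := 2 * (Y l k - Y l j + m) + ∑ i ∈ τ, lin j k i with hr
        have hF : ∀ x : Fin N → ℝ,
            ∑ i, ((lin j k i + r * lin f.j f.k i : ℤ) : ℝ) * x i + ((m - r * f.m : ℤ) : ℝ) =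
            ∑ i, (lin j k i : ℝ) * x i + m - r * f.val x := by
          intro x
          rw [hfval]
          push_cast
          have e : ∑ i, ((lin j k i : ℝ) + r * (lin f.j f.k i : ℝ)) * x i =
              ∑ i, (lin j k i : ℝ) * x i + r * ∑ i, (lin f.j f.k i : ℝ) * x i := by
            rw [mul_sum, ← sum_add_distrib]
            exact sum_congr rfl (fun i _ => by ring)
          rw [e]
          ring
        refine ⟨fun i => lin j k i + r * lin f.j f.k i, m - r * f.m, ?_, ?_, ?_⟩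
        · rw [hF, base1, hP.eq w hw]
          ring
        · intro v' hv' hne
          rw [hF]
          rcases h v' hv' with rfl | ⟨w', hw', rfl⟩
          · rw [lin_pt, hhalf, hr]
            push_cast
            ring
          · rw [base2 w' hw' (fun hc => hne (by rw [hc])), hP.eq w' hw']
            ring
        · intro τ' hτ' hsub
          rw [hτuniq τ' hτ' hsub, sum_add_distrib, ← mul_sum, hodd, hr]
          set s1 := ∑ i ∈ τ, lin j k i
          refine ⟨(2 * (Y l k - Y l j + m) + s1) * (f.m - (Y l f.k - Y l f.j)) -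
            (Y l k - Y l j + m), ?_⟩
          ring

end Run7.h560.Abs
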