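import Pool.Agent.Run7.h560.Main

/-!
# From lattice triangulations to settings, and the sharpness example
-/

set_option autoImplicit false

namespace Run7.h560.Final

open scoped Pointwise
open Finset Geometry Run7.h560.Lat Run7.h560.Geo Run7.h560.Main Run7.h560.Abs

variable {d : ℕ}

/-- enumeration of a lattice simplex -/
def Enum (σ : Finset (Fin d → ℝ)) (m : ℤ) : Prop :=
  ∃ v : Fin (d + 1) → (Fin d → ℤ), Function.Injective v ∧
    (∀ x : Fin d → ℝ, x ∈ σ ↔ ∃ j, x = fun i => (v j i : ℝ)) ∧
    |(diffM v).det| = m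

lemma exists_facet (T : SimplicialComplex ℝ (Fin d → ℝ)) (hfin : T.faces.Finite)
    (s : Finset (Fin d → ℝ)) (hs : s ∈ T.faces) : ∃ F ∈ T.facets, s ⊆ F := by
  obtain ⟨F, h1, h2⟩ := hfin.exists_le_maximal hs
  exact ⟨F, ⟨h2.1, fun t ht hst => le_antisymm hst (h2.2 ht hst)⟩, h1⟩

lemma cast_inj {a b : Fin d → ℤ} (h : (fun z => (a z : ℝ)) = fun z => (b z : ℝ)) : a = b := by
  funext z
  have := congrFun h z
  exact_mod_cast this

theorem exists_setting (T : SimplicialComplex ℝ (Fin d → ℝ)) (hfin : T.faces.Finite)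
    (hfac : ∀ σ ∈ T.facets, ∃ m : ℤ, 1 ≤ m ∧ m ≤ 2 ∧ Enum σ m) :
    ∃ N : ℕ, Nonempty (Setting d N T) := by
  classical
  set V : Finset (Fin d → ℝ) := hfin.toFinset.biUnion id with hV
  have hsub : ∀ s ∈ T.faces, s ⊆ V := by
    intro s hs x hx
    rw [hV, mem_biUnion]
    exact ⟨s, (Set.Finite.mem_toFinset hfin).2 hs, hx⟩
  set g : Fin V.card → (Fin d → ℝ) := fun i => (V.equivFin.symm i : Fin d → ℝ) with hg
  have hginj : Function.Injective g := by
    intro a b h
    exact V.equivFin.symm.injective (Subtype.ext h)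
  have hgV : ∀ x ∈ V, ∃ i, g i = x := by
    intro x hx
    exact ⟨V.equivFin ⟨x, hx⟩, by simp [hg]⟩
  have hw : ∀ i : Fin V.card, ∃ a : Fin d → ℤ, g i = fun z => (a z : ℝ) := by
    intro i
    have h1 : g i ∈ V := (V.equivFin.symm i).2
    rw [hV, mem_biUnion] at h1
    obtain ⟨s, hs, hx⟩ := h1
    rw [Set.Finite.mem_toFinset] at hs
    obtain ⟨F, hF, hsF⟩ := exists_facet T hfin s hs
    obtain ⟨m, -, -, v, -, hv, -⟩ := hfac F hF
    obtain ⟨j, hj⟩ := (hv _).1 (hsF hx)
    exact ⟨v j, hj⟩
  choose w hw using hw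
  refine ⟨V.card, ⟨{ w := w, g := g, gw := hw, inj := hginj, all := ?_, fac := ?_ }⟩⟩
  · intro s hs
    refine ⟨univ.filter (fun i => g i ∈ s), ?_⟩
    ext x
    simp only [mem_image, mem_filter, mem_univ, true_and]
    constructor
    · rintro ⟨i, hi, rfl⟩; exact hi
    · intro hx
      obtain ⟨i, rfl⟩ := hgV x (hsub s hs hx)
      exact ⟨i, hx, rfl⟩
  · intro σ hσ
    obtain ⟨F, hF, hsF⟩ := exists_facet T hfin _ hσ
    obtain ⟨m, hm1, hm2, v, hvinj, hv, hdet⟩ := hfac F hF
    have he : ∀ j, ∃ i, g i = fun z => (v j z : ℝ) := by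
      intro j
      exact hgV _ (hsub F hF.1 ((hv _).2 ⟨j, rfl⟩))
    choose e he using he
    have hwe : ∀ j, w (e j) = v j := by
      intro j
      exact cast_inj ((hw (e j)).symm.trans (he j))
    have heinj : Function.Injective e := by
      intro a b h
      refine hvinj ?_
      rw [← hwe a, ← hwe b, h]
    have himg : (univ.image e).image g = F := by
      ext x
      rw [hv x]
      simp only [mem_image, mem_univ, true_and]
      constructor
      · rintro ⟨i, ⟨j, rfl⟩, rfl⟩
        exact ⟨j, he j⟩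
      · rintro ⟨j, rfl⟩
        exact ⟨e j, ⟨j, rfl⟩, he j⟩
    refine ⟨e, heinj, ?_, ?_, ?_⟩
    · intro i hi
      have h1 : g i ∈ F := hsF (mem_image_of_mem _ hi)
      obtain ⟨j, hj⟩ := (hv _).1 h1
      exact ⟨j, hginj ((he j).trans hj.symm)⟩
    · rw [himg]; exact hF.1
    · have h1 : (fun j => w (e j)) = v := funext hwe
      rw [h1]
      omega

theorem dilate (T : SimplicialComplex ℝ (Fin d → ℝ)) (hfin : T.faces.Finite)
    (hfac : ∀ σ ∈ T.facets, ∃ m : ℤ, 1 ≤ m ∧ m ≤ 2 ∧ Enum σ m)
    (hconv : Convex ℝ T.space) (hint : (interior T.space).Nonempty)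
    (c : ℕ) (hc : 1 ≤ c) (hcd : (d + 1) / 2 ≤ c) :
    ∃ K : SimplicialComplex ℝ (Fin d → ℝ), K.faces.Finite ∧ K.space = (c : ℝ) • T.space ∧
      ∀ σ ∈ K.facets, Enum σ 1 := by
  classical
  obtain ⟨N, ⟨Z⟩⟩ := exists_setting T hfin hfac
  obtain ⟨D, hDT, hDS⟩ := exists_data Z (c : ℤ) (by exact_mod_cast hc) (by exact_mod_cast hcd)
  obtain ⟨K, hK, hinj⟩ := exists_K Z D hDT
  have hsp : K.space = ((c : ℤ) : ℝ) • T.space := K_space Z D hDT K hK
  rw [Int.cast_natCast] at hsp
  have hKfin := K_finite Z D K hK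
  have hcne : (c : ℝ) ≠ 0 := by
    have : 0 < c := hc
    exact_mod_cast this.ne'
  have hKconv : Convex ℝ K.space := by rw [hsp]; exact hconv.smul _
  have hKint : (interior K.space).Nonempty := by
    rw [hsp, interior_smul₀ hcne]
    exact hint.smul_set
  refine ⟨K, hKfin, hsp, ?_⟩
  intro σ hσ
  have hcard := facet_card K hKfin hKconv hKint σ hσ
  obtain ⟨t, ht, rfl⟩ := (hK σ).1 hσ.1
  rw [card_image_of_injOn (hinj t ht)] at hcard
  -- enumerate
  let f : Fin (d + 1) ≃ t := (finCongr hcard.symm).trans t.equivFin.symm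
  have hy : ∀ j : Fin (d + 1), ∃ y : Fin d → ℤ, Φ Z (f j : Fin N → ℝ) = fun z => (y z : ℝ) :=
    fun j => vertex_int Z D hDS ht _ (f j).2
  choose v hv using hy
  refine ⟨v, ?_, ?_, ?_⟩
  · intro a b h
    have h1 : Φ Z (f a : Fin N → ℝ) = Φ Z (f b : Fin N → ℝ) := by rw [hv a, hv b, h]
    have h2 := hinj t ht (f a).2 (f b).2 h1
    exact f.injective (Subtype.ext h2)
  · intro x
    rw [mem_image]
    constructor
    · rintro ⟨u, hu, rfl⟩
      refine ⟨f.symm ⟨u, hu⟩, ?_⟩
      rw [← hv]
      simp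
    · rintro ⟨j, rfl⟩
      exact ⟨f j, (f j).2, hv j⟩
  · refine det_of_dual v (fun j => ?_)
    obtain ⟨a, b, hab⟩ := functional Z D hDT hDS ht (f j) (f j).2
    refine ⟨a, b, fun i => ?_⟩
    have h1 := hab (f i) (f i).2
    rw [hv i] at h1
    simp only at h1
    have h2 : ((f i : Fin N → ℝ) = (f j : Fin N → ℝ)) ↔ i = j := by
      constructor
      · intro h; exact f.injective (Subtype.ext h)
      · intro h; rw [h]
    by_cases hij : i = j
    · rw [if_pos (h2.2 hij)] at h1
      rw [if_pos hij]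
      exact_mod_cast h1
    · rw [if_neg (fun h => hij (h2.1 h))] at h1
      rw [if_neg hij]
      exact_mod_cast h1

/-! ### The sharpness example -/

variable {n : ℕ}

/-- vertices of the example in dimension `n + 1` -/
def exV (j : Fin (n + 2)) : Fin (n + 1) → ℤ :=
  Fin.cases 0 (fun k => fun i => if k = Fin.last n then (if i = Fin.last n then 2 else 1)
    else (if i = k then 1 else 0)) j

lemma exV_zero : exV (0 : Fin (n + 2)) = 0 := rfl

lemma exV_succ (k : Fin (n + 1)) : exV k.succ = fun i => if k = Fin.last n then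
    (if i = Fin.last n then 2 else 1) else (if i = k then 1 else 0) := rfl

lemma exV_det : |(diffM (exV (n := n))).det| = 2 := by
  have h : (diffM (exV (n := n))).det = 2 := by
    rw [Matrix.det_of_isLowerTriangular]
    · rw [Fin.prod_univ_castSucc]
      have h1 : ∀ i : Fin n, diffM (exV (n := n)) i.castSucc i.castSucc = 1 := by
        intro i
        simp only [diffM, Matrix.of_apply, exV_succ, exV_zero, Pi.zero_apply]
        rw [if_neg (Fin.castSucc_lt_last i).ne]
        simp
      have h2 : diffM (exV (n := n)) (Fin.last n) (Fin.last n) = 2 := by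
        simp only [diffM, Matrix.of_apply, exV_succ, exV_zero, Pi.zero_apply]
        simp
      rw [h2, prod_congr rfl (fun i _ => h1 i)]
      simp
    · intro i j hij
      have hij' : i < j := hij
      simp only [diffM, Matrix.of_apply, exV_succ, exV_zero, Pi.zero_apply]
      rw [if_neg (lt_of_lt_of_le hij' (Fin.le_last j)).ne, if_neg hij'.ne']
      simp
  rw [h]
  norm_num

/-- real vertices of the example -/
def exR (j : Fin (n + 2)) : Fin (n + 1) → ℝ := fun i => (exV j i : ℝ)

lemma exR_indep : AffineIndependent ℝ (exR (n := n)) := by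
  classical
  rw [affineIndependent_iff]
  intro s w hw hsum
  set w' : Fin (n + 2) → ℝ := fun j => if j ∈ s then w j else 0 with hw'
  have h1 : ∑ j, w' j = 0 := by
    rw [hw', sum_ite_mem, univ_inter, hw]
  have h2 : ∀ i, ∑ j, w' j * (exV j i : ℝ) = 0 := by
    intro i
    have := congrFun hsum i
    rw [Finset.sum_apply] at this
    simp only [Pi.smul_apply, smul_eq_mul, Pi.zero_apply] at this
    rw [← this]
    simp only [hw', ite_mul, zero_mul]
    rw [sum_ite_mem, univ_inter]
    rfl
  have hlast : w' (Fin.last n).succ = 0 := by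
    have := h2 (Fin.last n)
    rw [Fin.sum_univ_succ, Fin.sum_univ_castSucc] at this
    simp only [exV_zero, exV_succ, Pi.zero_apply, Int.cast_zero, mul_zero, zero_add] at this
    rw [sum_eq_zero (fun i _ => by
      rw [if_neg (Fin.castSucc_lt_last i).ne, if_neg (Fin.castSucc_lt_last i).ne']
      simp)] at this
    simpa using this
  have hmid : ∀ k : Fin (n + 1), w' k.succ = 0 := by
    intro k
    by_cases hk : k = Fin.last n
    · rw [hk]; exact hlast
    · have := h2 k
      rw [Fin.sum_univ_succ] at this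
      simp only [exV_zero, exV_succ, Pi.zero_apply, Int.cast_zero, mul_zero, zero_add] at this
      rw [sum_eq_single k] at this
      · simpa [hk] using this
      · intro b _ hb
        by_cases hb' : b = Fin.last n
        · rw [hb', hlast, zero_mul]
        · rw [if_neg hb', if_neg hb.symm]; simp
      · intro h; exact absurd (mem_univ _) h
  have hzero : w' 0 = 0 := by
    rw [Fin.sum_univ_succ] at h1
    rw [sum_eq_zero (fun k _ => hmid k), add_zero] at h1
    exact h1
  intro j hj
  have h4 : w' j = 0 := by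
    refine Fin.cases hzero hmid j
  simpa [hw', hj] using h4

/-- vertex set of the example -/
noncomputable def exS (n : ℕ) : Finset (Fin (n + 1) → ℝ) := by
  classical
  exact univ.image (exR (n := n))

lemma mem_exS (x : Fin (n + 1) → ℝ) : x ∈ exS n ↔ ∃ j, x = fun i => (exV j i : ℝ) := by
  classical
  unfold exS
  simp only [mem_image, mem_univ, true_and]
  constructor
  · rintro ⟨j, rfl⟩; exact ⟨j, rfl⟩
  · rintro ⟨j, rfl⟩; exact ⟨j, rfl⟩

lemma exS_enum : Enum (exS n) 2 := by
  refine ⟨exV, ?_, mem_exS, exV_det⟩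
  intro a b h
  refine exR_indep.injective ?_
  funext i
  simp only [exR, h]

lemma exS_indep : AffineIndependent ℝ ((↑) : exS n → (Fin (n + 1) → ℝ)) := by
  classical
  have h := (exR_indep (n := n)).range
  have h1 : Set.range (exR (n := n)) = (exS n : Set (Fin (n + 1) → ℝ)) := by
    unfold exS
    rw [coe_image, coe_univ, Set.image_univ]
  rw [h1] at h
  exact h

/-- the complex of all faces of a simplex -/
def simplexComplex (S : Finset (Fin d → ℝ))
    (hS : AffineIndependent ℝ ((↑) : S → (Fin d → ℝ))) :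
    SimplicialComplex ℝ (Fin d → ℝ) where
  faces := {s | s.Nonempty ∧ s ⊆ S}
  isRelLowerSet_faces := by
    intro s hs
    refine ⟨hs.1, fun t hts htne => ⟨htne, hts.trans hs.2⟩⟩
  indep := by
    intro s hs
    exact hS.mono hs.2
  inter_subset_convexHull := by
    intro s t hs ht
    exact (hS.convexHull_inter hs.2 ht.2).superset

lemma simplexComplex_space (S : Finset (Fin d → ℝ))
    (hS : AffineIndependent ℝ ((↑) : S → (Fin d → ℝ))) (hne : S.Nonempty) :
    (simplexComplex S hS).space = convexHull ℝ (S : Set (Fin d → ℝ)) := by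
  ext x
  rw [SimplicialComplex.mem_space_iff]
  constructor
  · rintro ⟨s, hs, hx⟩
    exact convexHull_mono (coe_subset.2 hs.2) hx
  · intro hx
    exact ⟨S, ⟨hne, Subset.rfl⟩, hx⟩

lemma simplexComplex_finite (S : Finset (Fin d → ℝ))
    (hS : AffineIndependent ℝ ((↑) : S → (Fin d → ℝ))) : (simplexComplex S hS).faces.Finite :=
  (S.powerset.finite_toSet).subset (fun s hs => by
    rw [mem_coe, mem_powerset]; exact hs.2)

lemma simplexComplex_facets (S : Finset (Fin d → ℝ))
    (hS : AffineIndependent ℝ ((↑) : S → (Fin d → ℝ))) (hne : S.Nonempty)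
    (s : Finset (Fin d → ℝ)) (hs : s ∈ (simplexComplex S hS).facets) : s = S :=
  hs.2 ⟨hne, Subset.rfl⟩ hs.1.2

lemma exS_nonempty : (exS n).Nonempty := by
  exact ⟨_, (mem_exS _).2 ⟨0, rfl⟩⟩

lemma exS_card : (exS n).card = n + 2 := by
  classical
  unfold exS
  rw [card_image_of_injective _ exR_indep.injective, card_univ, Fintype.card_fin]

lemma exS_interior :
    (interior (convexHull ℝ (exS n : Set (Fin (n + 1) → ℝ)))).Nonempty := by
  rw [interior_convexHull_nonempty_iff_affineSpan_eq_top]
  have h := (exS_indep (n := n)).affineSpan_eq_top_iff_card_eq_finrank_add_one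
  rw [Subtype.range_coe_subtype] at h
  have h2 : {x | x ∈ exS n} = (exS n : Set (Fin (n + 1) → ℝ)) := rfl
  rw [h2] at h
  rw [h, Fintype.card_coe, exS_card, Module.finrank_fin_fun]

/-- Inequalities valid on the example. -/
lemma ex_ineq (x : Fin (n + 1) → ℝ) (hx : x ∈ convexHull ℝ (exS n : Set (Fin (n + 1) → ℝ))) :
    0 ≤ x (Fin.last n) ∧ (∀ i : Fin n, x (Fin.last n) ≤ 2 * x i.castSucc) ∧
      ∑ i : Fin n, (2 * x i.castSucc - x (Fin.last n)) + x (Fin.last n) ≤ 2 := by
  classical
  set C : Set (Fin (n + 1) → ℝ) := {x | 0 ≤ x (Fin.last n) ∧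
    (∀ i : Fin n, x (Fin.last n) ≤ 2 * x i.castSucc) ∧
      ∑ i : Fin n, (2 * x i.castSucc - x (Fin.last n)) + x (Fin.last n) ≤ 2} with hC
  have hconv : Convex ℝ C := by
    intro x hx y hy a b ha hb hab
    obtain ⟨x1, x2, x3⟩ := hx
    obtain ⟨y1, y2, y3⟩ := hy
    refine ⟨?_, ?_, ?_⟩
    · simp only [Pi.add_apply, Pi.smul_apply, smul_eq_mul]
      positivity
    · intro i
      simp only [Pi.add_apply, Pi.smul_apply, smul_eq_mul]
      have h1 := mul_le_mul_of_nonneg_left (x2 i) ha
      have h2 := mul_le_mul_of_nonneg_left (y2 i) hb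
      linarith
    · simp only [Pi.add_apply, Pi.smul_apply, smul_eq_mul]
      have h1 := mul_le_mul_of_nonneg_left x3 ha
      have h2 := mul_le_mul_of_nonneg_left y3 hb
      have e : ∑ i : Fin n, (2 * (a * x i.castSucc + b * y i.castSucc) -
          (a * x (Fin.last n) + b * y (Fin.last n))) + (a * x (Fin.last n) + b * y (Fin.last n)) =
          a * (∑ i : Fin n, (2 * x i.castSucc - x (Fin.last n)) + x (Fin.last n)) +
          b * (∑ i : Fin n, (2 * y i.castSucc - y (Fin.last n)) + y (Fin.last n)) := by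
        rw [mul_add, mul_add, mul_sum, mul_sum]
        have : ∑ i : Fin n, (2 * (a * x i.castSucc + b * y i.castSucc) -
          (a * x (Fin.last n) + b * y (Fin.last n))) =
          ∑ i : Fin n, a * (2 * x i.castSucc - x (Fin.last n)) +
          ∑ i : Fin n, b * (2 * y i.castSucc - y (Fin.last n)) := by
          rw [← sum_add_distrib]
          exact sum_congr rfl (fun i _ => by ring)
        rw [this]
        ring
      rw [e]
      calc _ ≤ a * 2 + b * 2 := add_le_add h1 h2
        _ = 2 := by rw [← add_mul, hab, one_mul]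
  have hsub : (exS n : Set (Fin (n + 1) → ℝ)) ⊆ C := by
    intro x hx
    rw [mem_coe, mem_exS] at hx
    obtain ⟨j, rfl⟩ := hx
    refine Fin.cases ?_ (fun k => ?_) j
    · refine ⟨?_, ?_, ?_⟩ <;> simp [exV_zero]
    · by_cases hk : k = Fin.last n
      · subst hk
        refine ⟨?_, fun i => ?_, ?_⟩
        · simp only [exV_succ, if_true]
          norm_num
        · simp only [exV_succ, if_true]
          rw [if_neg (Fin.castSucc_lt_last i).ne]
          simp
        · simp only [exV_succ, if_true]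
          rw [sum_eq_zero (fun i _ => by
            rw [if_neg (Fin.castSucc_lt_last i).ne]; simp)]
          simp
      · have hk' : ¬ (Fin.last n = k) := fun h => hk h.symm
        obtain ⟨k', rfl⟩ := Fin.exists_castSucc_eq.2 hk
        refine ⟨?_, fun i => ?_, ?_⟩
        · simp only [exV_succ, if_neg hk, if_neg hk']
          simp
        · simp only [exV_succ, if_neg hk, if_neg hk']
          split_ifs <;> simp
        · simp only [exV_succ, if_neg hk, if_neg hk']
          rw [sum_eq_single k']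
          · simp
          · intro b _ hb
            rw [if_neg (fun h => hb (Fin.castSucc_injective n h))]
            simp
          · intro h; exact absurd (mem_univ _) h
  exact convexHull_min hsub hconv hx

/-- Lattice points of small dilations have even last coordinate. -/
lemma ex_even (c : ℕ) (hc : c < (n + 2) / 2) (y : Fin (n + 1) → ℤ)
    (hy : (fun i => (y i : ℝ)) ∈ (c : ℝ) • convexHull ℝ (exS n : Set (Fin (n + 1) → ℝ))) :
    Even (y (Fin.last n)) := by
  classical
  obtain ⟨x, hx, hxy⟩ := Set.mem_smul_set.1 hy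
  obtain ⟨h1, h2, h3⟩ := ex_ineq x hx
  have hxi : ∀ i, (y i : ℝ) = c * x i := fun i => (congrFun hxy i).symm
  have hc0 : (0 : ℝ) ≤ c := Nat.cast_nonneg c
  have a1 : (0 : ℤ) ≤ y (Fin.last n) := by
    have : (0 : ℝ) ≤ y (Fin.last n) := by rw [hxi]; positivity
    exact_mod_cast this
  have a2 : ∀ i : Fin n, y (Fin.last n) ≤ 2 * y i.castSucc := by
    intro i
    have : (y (Fin.last n) : ℝ) ≤ 2 * y i.castSucc := by
      rw [hxi, hxi]
      have := mul_le_mul_of_nonneg_left (h2 i) hc0
      linarith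
    exact_mod_cast this
  have a3 : ∑ i : Fin n, (2 * y i.castSucc - y (Fin.last n)) + y (Fin.last n) ≤ 2 * c := by
    have : (∑ i : Fin n, (2 * (y i.castSucc : ℝ) - y (Fin.last n)) + y (Fin.last n) : ℝ)
        ≤ 2 * c := by
      have e : (∑ i : Fin n, (2 * (y i.castSucc : ℝ) - y (Fin.last n)) + y (Fin.last n) : ℝ) =
          c * (∑ i : Fin n, (2 * x i.castSucc - x (Fin.last n)) + x (Fin.last n)) := by
        rw [mul_add, mul_sum, hxi]
        congr 1
        exact sum_congr rfl (fun i _ => by rw [hxi]; ring)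
      rw [e]
      have := mul_le_mul_of_nonneg_left h3 hc0
      linarith
    exact_mod_cast this
  by_contra hodd
  rw [Int.not_even_iff_odd] at hodd
  obtain ⟨k, hk⟩ := hodd
  have b1 : ∀ i : Fin n, 1 ≤ 2 * y i.castSucc - y (Fin.last n) := by
    intro i
    have := a2 i
    omega
  have b2 : (n : ℤ) ≤ ∑ i : Fin n, (2 * y i.castSucc - y (Fin.last n)) := by
    calc (n : ℤ) = ∑ i : Fin n, (1 : ℤ) := by simp
      _ ≤ _ := sum_le_sum (fun i _ => b1 i)
  have b3 : (c : ℤ) < ((n + 2) / 2 : ℕ) := by exact_mod_cast hc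
  omega

theorem ex_sharp (c : ℕ) (hc : c < (n + 2) / 2)
    (K : SimplicialComplex ℝ (Fin (n + 1) → ℝ)) (hfin : K.faces.Finite)
    (hsp : K.space = (c : ℝ) • convexHull ℝ (exS n : Set (Fin (n + 1) → ℝ)))
    (hfac : ∀ σ ∈ K.facets, Enum σ 1) : False := by
  classical
  have hne : K.space.Nonempty := by
    rw [hsp]
    exact ((convexHull_nonempty_iff (𝕜 := ℝ)).2 (coe_nonempty.2 exS_nonempty)).smul_set
  obtain ⟨x, hx⟩ := hne
  obtain ⟨s, hs, -⟩ := SimplicialComplex.mem_space_iff.1 hx
  obtain ⟨F, hF, -⟩ := exists_facet K hfin s hs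
  obtain ⟨v, -, hv, hdet⟩ := hfac F hF
  have heven : ∀ j, Even (v j (Fin.last n)) := by
    intro j
    refine ex_even c hc (v j) ?_
    rw [← hsp]
    exact K.convexHull_subset_space hF.1 (subset_convexHull ℝ _ ((hv _).2 ⟨j, rfl⟩))
  have hz : ((diffM v).map (Int.castRingHom (ZMod 2))).det = 0 := by
    refine Matrix.det_eq_zero_of_column_eq_zero (Fin.last n) (fun i => ?_)
    rw [Matrix.map_apply]
    simp only [diffM, Matrix.of_apply]
    have : Even (v i.succ (Fin.last n) - v 0 (Fin.last n)) := (heven _).sub (heven _)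
    rw [eq_intCast]
    exact (ZMod.intCast_zmod_eq_zero_iff_dvd _ 2).2 (by exact_mod_cast this.two_dvd)
  rw [← RingHom.mapMatrix_apply, ← RingHom.map_det, eq_intCast] at hz
  have h2 : (2 : ℤ) ∣ (diffM v).det := by
    exact_mod_cast (ZMod.intCast_zmod_eq_zero_iff_dvd _ 2).1 hz
  have h3 : (2 : ℤ) ∣ |(diffM v).det| := (dvd_abs _ _).2 h2
  rw [hdet] at h3
  omega

end Run7.h560.Final
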