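import Mathlib

/-!
# Lattice simplices of normalised volume at most two
-/

set_option autoImplicit false

namespace Run7.h560.Lat

open Finset

variable {d : ℕ}

/-- Difference matrix. -/
def diffM (v : Fin (d + 1) → (Fin d → ℤ)) : Matrix (Fin d) (Fin d) ℤ :=
  Matrix.of fun (j : Fin d) (i : Fin d) => v j.succ i - v 0 i

lemma card_quot (M : Matrix (Fin d) (Fin d) ℤ) (h : M.det ≠ 0) :
    Nat.card ((Fin d → ℤ) ⧸ LinearMap.range (Matrix.vecMulLinear M)) = M.det.natAbs := by
  classical
  have hinj : Function.Injective (Matrix.vecMulLinear M) := by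
    rw [← LinearMap.ker_eq_bot, LinearMap.ker_eq_bot']
    intro x hx
    exact Matrix.eq_zero_of_vecMul_eq_zero h hx
  let bN : Module.Basis (Fin d) ℤ (LinearMap.range (Matrix.vecMulLinear M)) :=
    (Pi.basisFun ℤ (Fin d)).map (LinearEquiv.ofInjective _ hinj)
  rw [← Submodule.natAbs_det_basis_change (Pi.basisFun ℤ (Fin d)) _ bN]
  congr 1
  have : ((↑) ∘ bN : Fin d → (Fin d → ℤ)) = fun i => M i := by
    funext i
    simp only [bN, Function.comp, Module.Basis.map_apply, Pi.basisFun_apply]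
    rw [LinearEquiv.ofInjective_apply]
    simp
    rfl
  rw [this]
  rw [Pi.basisFun_det_apply]
  rfl

/-- integrality of a real vector -/
def IsInt {ι : Type*} (X : ι → ℝ) : Prop := ∀ j, ∃ n : ℤ, X j = n

/-- coordinates of lattice points -/
def InG (v : Fin (d + 1) → (Fin d → ℤ)) (X : Fin (d + 1) → ℝ) : Prop :=
  (∃ n : ℤ, ∑ j, X j = n) ∧ ∀ z, ∃ n : ℤ, ∑ j, X j * (v j z : ℝ) = n

lemma diff_sum (v : Fin (d + 1) → (Fin d → ℤ)) (X : Fin (d + 1) → ℝ) (z : Fin d) :
    ∑ j, X j * (v j z : ℝ) = (∑ j, X j) * v 0 z + ∑ j : Fin d, X j.succ * (diffM v j z : ℝ) := by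
  rw [Fin.sum_univ_succ, Fin.sum_univ_succ (f := X)]
  unfold diffM
  simp only [Matrix.of_apply]
  push_cast
  simp only [mul_sub, sum_sub_distrib]
  rw [← sum_mul]
  ring

theorem exists_coord (v : Fin (d + 1) → (Fin d → ℤ)) (h : (diffM v).det ≠ 0) (y : Fin d → ℝ)
    (c : ℝ) : ∃ X : Fin (d + 1) → ℝ, ∑ j, X j = c ∧ ∀ z, ∑ j, X j * (v j z : ℝ) = y z := by
  classical
  set M : Matrix (Fin d) (Fin d) ℝ := (diffM v).map (Int.cast : ℤ → ℝ) with hM
  have hdet : M.det = ((diffM v).det : ℝ) := by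
    rw [hM]
    exact (RingHom.map_det (Int.castRingHom ℝ) (diffM v)).symm
  have hunit : IsUnit M.det := by
    rw [hdet]
    exact IsUnit.mk0 _ (by exact_mod_cast h)
  set b : Fin d → ℝ := fun z => y z - c * v 0 z with hb
  set X' : Fin d → ℝ := Matrix.vecMul b M⁻¹ with hX'
  have hsol : Matrix.vecMul X' M = b := by
    rw [hX', Matrix.vecMul_vecMul, Matrix.nonsing_inv_mul _ hunit, Matrix.vecMul_one]
  refine ⟨Fin.cons (c - ∑ j, X' j) X', ?_, ?_⟩
  · rw [Fin.sum_univ_succ]
    simp
  · intro z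
    rw [diff_sum]
    have e1 : ∑ j, (Fin.cons (c - ∑ j, X' j) X' : Fin (d + 1) → ℝ) j = c := by
      rw [Fin.sum_univ_succ]; simp
    rw [e1]
    simp only [Fin.cons_succ]
    have e2 : ∑ j : Fin d, X' j * (diffM v j z : ℝ) = b z := by
      rw [← hsol]
      simp [Matrix.vecMul, dotProduct, hM, Matrix.map_apply]
    rw [e2, hb]
    ring

lemma real_indep (v : Fin (d + 1) → (Fin d → ℤ)) (h : (diffM v).det ≠ 0) (x : Fin d → ℝ)
    (hx : ∀ z, ∑ j : Fin d, x j * (diffM v j z : ℝ) = 0) : x = 0 := by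
  classical
  set M : Matrix (Fin d) (Fin d) ℝ := (diffM v).map (Int.cast : ℤ → ℝ) with hM
  have hdet : M.det = ((diffM v).det : ℝ) := by
    rw [hM]
    exact (RingHom.map_det (Int.castRingHom ℝ) (diffM v)).symm
  refine Matrix.eq_zero_of_vecMul_eq_zero (M := M) (by rw [hdet]; exact_mod_cast h) ?_
  funext z
  have := hx z
  simpa [Matrix.vecMul, dotProduct, hM, Matrix.map_apply] using this

/-- the lattice point attached to coordinates -/
lemma inG_iff (v : Fin (d + 1) → (Fin d → ℤ)) (h : (diffM v).det ≠ 0) (X : Fin (d + 1) → ℝ)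
    (hX : InG v X) : ∃ y : Fin d → ℤ, (∀ z, (y z : ℝ) = ∑ j : Fin d, X j.succ * (diffM v j z : ℝ)) ∧
      (y ∈ LinearMap.range (Matrix.vecMulLinear (diffM v)) → IsInt X) := by
  obtain ⟨⟨n, hn⟩, h2⟩ := hX
  choose u hu using h2
  refine ⟨fun z => u z - n * v 0 z, ?_, ?_⟩
  · intro z
    have h1 := diff_sum v X z
    rw [hu z, hn] at h1
    push_cast
    linarith
  · rintro ⟨m, hm⟩
    have hz : ∀ z, ((u z - n * v 0 z : ℤ) : ℝ) = ∑ j, (m j : ℝ) * (diffM v j z : ℝ) := by
      intro z
      have := congrFun hm z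
      simp only [Matrix.vecMulLinear_apply, Matrix.vecMul, dotProduct] at this
      rw [← this]
      push_cast
      rfl
    have hx : (fun j : Fin d => X j.succ - (m j : ℝ)) = 0 := by
      refine real_indep v h _ (fun z => ?_)
      have h1 := diff_sum v X z
      rw [hu z, hn] at h1
      have h3 := hz z
      push_cast at h3
      simp only [sub_mul, sum_sub_distrib]
      linarith
    have hx' : ∀ j : Fin d, X j.succ = m j := by
      intro j
      have := congrFun hx j
      simp only [Pi.zero_apply] at this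
      linarith
    intro j
    refine Fin.cases ?_ (fun j => ⟨m j, hx' j⟩) j
    refine ⟨n - ∑ j, m j, ?_⟩
    rw [Fin.sum_univ_succ] at hn
    push_cast
    rw [sum_congr rfl (fun j _ => hx' j)] at hn
    linarith

theorem class_unique (v : Fin (d + 1) → (Fin d → ℤ))
    (h : |(diffM v).det| = 1 ∨ |(diffM v).det| = 2) (X X' : Fin (d + 1) → ℝ) (hX : InG v X)
    (hX' : InG v X') (hn : ¬ IsInt X) (hn' : ¬ IsInt X') : IsInt (fun j => X j - X' j) := by
  classical
  have hdet : (diffM v).det ≠ 0 := by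
    intro h0
    rw [h0] at h
    simp at h
  have hcard := card_quot (diffM v) hdet
  obtain ⟨y, hy1, hy2⟩ := inG_iff v hdet X hX
  obtain ⟨y', hy1', hy2'⟩ := inG_iff v hdet X' hX'
  have hyn : y ∉ LinearMap.range (Matrix.vecMulLinear (diffM v)) := fun hc => hn (hy2 hc)
  have hyn' : y' ∉ LinearMap.range (Matrix.vecMulLinear (diffM v)) := fun hc => hn' (hy2' hc)
  have hsub : y - y' ∈ LinearMap.range (Matrix.vecMulLinear (diffM v)) := by
    rcases h with h | h
    · have h1 : (diffM v).det.natAbs = 1 := by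
        have := Int.abs_eq_natAbs (diffM v).det
        omega
      rw [h1] at hcard
      have := (Nat.card_eq_one_iff_unique.1 hcard).1
      exfalso
      apply hyn
      rw [← Submodule.Quotient.mk_eq_zero]
      exact Subsingleton.elim _ _
    · have h1 : (diffM v).det.natAbs = 2 := by
        have := Int.abs_eq_natAbs (diffM v).det
        omega
      rw [h1] at hcard
      obtain ⟨q, hq, huq⟩ := (Nat.card_eq_two_iff' (0 : (Fin d → ℤ) ⧸
        LinearMap.range (Matrix.vecMulLinear (diffM v)))).1 hcard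
      have e1 := huq (Submodule.Quotient.mk y) (by
        intro hc; exact hyn ((Submodule.Quotient.mk_eq_zero _).1 hc))
      have e2 := huq (Submodule.Quotient.mk y') (by
        intro hc; exact hyn' ((Submodule.Quotient.mk_eq_zero _).1 hc))
      rw [← Submodule.Quotient.mk_eq_zero, Submodule.Quotient.mk_sub, e1, e2, sub_self]
  have hG : InG v (fun j => X j - X' j) := by
    obtain ⟨⟨n, hn⟩, h2⟩ := hX
    obtain ⟨⟨n', hn'⟩, h2'⟩ := hX'
    refine ⟨⟨n - n', by rw [sum_sub_distrib, hn, hn']; push_cast; ring⟩, fun z => ?_⟩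
    obtain ⟨a, ha⟩ := h2 z
    obtain ⟨b, hb⟩ := h2' z
    refine ⟨a - b, ?_⟩
    simp only [sub_mul, sum_sub_distrib]
    rw [ha, hb]
    push_cast
    ring
  obtain ⟨y'', hy1'', hy2''⟩ := inG_iff v hdet _ hG
  apply hy2''
  have : y'' = y - y' := by
    funext z
    have h1 := hy1'' z
    have h2 := hy1 z
    have h3 := hy1' z
    simp only [sub_mul, sum_sub_distrib] at h1
    rw [← h2, ← h3] at h1
    simp only [Pi.sub_apply]
    exact_mod_cast h1
  rw [this]
  exact hsub

end Run7.h560.Lat
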