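import Pool.Agent.Run7.h560.Abs
import Pool.Agent.Run7.h560.Lat

/-!
# Geometric simplicial complexes
-/

set_option autoImplicit false

namespace Run7.h560.Geo

open Finset Geometry

variable {d N : ℕ}

/-- Weights on an affinely independent family are unique. -/
theorem weights_unique (g : Fin N → (Fin d → ℝ))
    (hg : Function.Injective g) (σ : Finset (Fin N))
    (hσ : AffineIndependent ℝ ((↑) : ((σ.image g : Finset (Fin d → ℝ))) → (Fin d → ℝ)))
    (x y : Fin N → ℝ)
    (hx : ∀ v, v ∉ σ → x v = 0) (hy : ∀ v, v ∉ σ → y v = 0) (hxy : ∑ v, x v = ∑ v, y v)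
    (h : ∑ v, x v • g v = ∑ v, y v • g v) : x = y := by
  classical
  rcases σ.eq_empty_or_nonempty with h0 | ⟨v0, hv0⟩
  · subst h0
    funext v
    rw [hx v (notMem_empty _), hy v (notMem_empty _)]
  have : Nonempty (Fin N) := ⟨v0⟩
  rw [affineIndependent_iff] at hσ
  choose! k hk using (fun (p : Fin d → ℝ) (hp : p ∈ σ.image g) => mem_image.1 hp)
  have hk' : ∀ v ∈ σ, k (g v) = v := fun v hv => hg (hk _ (mem_image_of_mem g hv)).2
  have hsum : ∀ z : Fin N → ℝ, (∀ v, v ∉ σ → z v = 0) →
      ∑ p : (σ.image g : Finset (Fin d → ℝ)), z (k p) = ∑ v, z v := fun z hz => by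
    rw [Finset.sum_coe_sort (σ.image g) (fun p => z (k p)), sum_image (fun a _ b _ hab => hg hab),
      ← sum_subset (subset_univ σ) (fun v _ hv => hz v hv)]
    exact sum_congr rfl (fun v hv => by rw [hk' v hv])
  have hsum' : ∀ z : Fin N → ℝ, (∀ v, v ∉ σ → z v = 0) →
      ∑ p : (σ.image g : Finset (Fin d → ℝ)), z (k p) • (p : Fin d → ℝ) = ∑ v, z v • g v :=
      fun z hz => by
    rw [Finset.sum_coe_sort (σ.image g) (fun p => z (k p) • p),
      sum_image (fun a _ b _ hab => hg hab),
      ← sum_subset (subset_univ σ) (fun v _ hv => by rw [hz v hv, zero_smul])]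
    exact sum_congr rfl (fun v hv => by rw [hk' v hv])
  have h1 := hσ Finset.univ (fun p => x (k p) - y (k p)) (by
    rw [sum_sub_distrib, hsum x hx, hsum y hy, hxy, sub_self]) (by
    simp only [sub_smul]
    rw [sum_sub_distrib, hsum' x hx, hsum' y hy, h, sub_self])
  funext v
  by_cases hv : v ∈ σ
  · have := h1 ⟨g v, mem_image_of_mem g hv⟩ (mem_univ _)
    simp only [hk' v hv] at this
    linarith
  · rw [hx v hv, hy v hv]

/-- Points of the convex hull of finitely many points. -/
theorem mem_hull_iff (g : Fin N → (Fin d → ℝ))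
    (hg : Function.Injective g) (σ : Finset (Fin N)) (p : Fin d → ℝ) :
    p ∈ convexHull ℝ ((σ.image g : Finset (Fin d → ℝ)) : Set (Fin d → ℝ)) ↔
      ∃ x : Fin N → ℝ, (∀ v, 0 ≤ x v) ∧
      ∑ v, x v = 1 ∧ (∀ v, v ∉ σ → x v = 0) ∧ ∑ v, x v • g v = p := by
  classical
  rw [Finset.mem_convexHull']
  constructor
  · rintro ⟨w, hw0, hw1, hwx⟩
    rw [sum_image (fun a _ b _ hab => hg hab)] at hw1 hwx
    refine ⟨fun v => if v ∈ σ then w (g v) else 0, fun v => ?_, ?_, fun v hv => if_neg hv, ?_⟩
    · dsimp only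
      split_ifs with h
      · exact hw0 _ (mem_image_of_mem g h)
      · exact le_rfl
    · rw [sum_ite_mem, univ_inter, hw1]
    · rw [← hwx, ← sum_subset (subset_univ σ) (fun v _ hv => by simp only [if_neg hv, zero_smul])]
      exact sum_congr rfl (fun v hv => by simp only [if_pos hv])
  · rintro ⟨x, hx0, hx1, hxs, rfl⟩
    rcases σ.eq_empty_or_nonempty with h0 | ⟨v0, hv0⟩
    · subst h0
      rw [sum_eq_zero (fun v _ => hxs v (notMem_empty _))] at hx1
      exact absurd hx1 (by norm_num)
    have : Nonempty (Fin N) := ⟨v0⟩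
    choose! k hk using (fun (p : Fin d → ℝ) (hp : p ∈ σ.image g) => mem_image.1 hp)
    have hk' : ∀ v ∈ σ, k (g v) = v := fun v hv => hg (hk _ (mem_image_of_mem g hv)).2
    refine ⟨fun p => x (k p), fun p _ => hx0 _, ?_, ?_⟩
    · rw [sum_image (fun a _ b _ hab => hg hab), ← hx1,
        ← sum_subset (subset_univ σ) (fun v _ hv => hxs v hv)]
      exact sum_congr rfl (fun v hv => by rw [hk' v hv])
    · rw [sum_image (fun a _ b _ hab => hg hab),
        ← sum_subset (subset_univ σ) (fun v _ hv => by rw [hxs v hv, zero_smul])]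
      exact sum_congr rfl (fun v hv => by simp only [hk' v hv])

/-- Facets of a finite complex whose space is a convex body have full dimension. -/
theorem facet_card (K : SimplicialComplex ℝ (Fin d → ℝ)) (hfin : K.faces.Finite)
    (hconv : Convex ℝ K.space) (hint : (interior K.space).Nonempty) (s : Finset (Fin d → ℝ))
    (hs : s ∈ K.facets) : s.card = d + 1 := by
  classical
  obtain ⟨hsK, hsmax⟩ := hs
  have hne : s.Nonempty := K.nonempty_of_mem_faces hsK
  have hind := K.indep hsK
  -- the centre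
  set n : ℝ := (s.card : ℝ) with hn
  have hnpos : 0 < n := by rw [hn]; exact_mod_cast hne.card_pos
  set x : Fin d → ℝ := ∑ v ∈ s, (1 / n) • v with hx
  have hxs : x ∈ convexHull ℝ (s : Set (Fin d → ℝ)) := by
    refine (convex_convexHull ℝ _).sum_mem (fun v _ => by positivity) ?_
      (fun v hv => subset_convexHull ℝ _ (by simpa using hv))
    rw [sum_const, nsmul_eq_mul, ← hn]
    field_simp
  have hxt : ∀ t ∈ K.faces, x ∈ convexHull ℝ (t : Set (Fin d → ℝ)) → t = s := by
    intro t ht hxt
    have h1 := K.inter_subset_convexHull hsK ht ⟨hxs, hxt⟩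
    rw [← coe_inter, Finset.mem_convexHull'] at h1
    obtain ⟨w, hw0, hw1, hwx⟩ := h1
    have hsub : s ⊆ t := by
      intro v hv
      by_contra hvt
      rw [affineIndependent_iff] at hind
      have h2 := hind univ (fun p => (if (p : Fin d → ℝ) ∈ t then w p else 0) - 1 / n) ?_ ?_
        ⟨v, hv⟩ (mem_univ _)
      · simp only [if_neg hvt] at h2
        have : 0 < 1 / n := by positivity
        linarith
      · rw [sum_sub_distrib, Finset.sum_coe_sort s (fun p => if p ∈ t then w p else 0),
          sum_ite_mem, hw1, sum_const, card_univ, Fintype.card_coe, nsmul_eq_mul, ← hn]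
        field_simp
        ring
      · simp only [sub_smul]
        rw [sum_sub_distrib, Finset.sum_coe_sort s (fun p => (if p ∈ t then w p else 0) • p),
          Finset.sum_coe_sort s (fun p => (1 / n) • p), ← hx]
        have : ∑ p ∈ s, (if p ∈ t then w p else 0) • p = x := by
          rw [← hwx]
          rw [← sum_subset (inter_subset_left : s ∩ t ⊆ s) (fun p hp hpn => by
            rw [if_neg (fun h => hpn (mem_inter.2 ⟨hp, h⟩)), zero_smul])]
          exact sum_congr rfl (fun p hp => by rw [if_pos (mem_inter.1 hp).2])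
        rw [this, sub_self]
    exact (hsmax ht hsub).symm
  -- the closed set of the other faces
  set U : Set (Fin d → ℝ) := ⋃ t ∈ {t | t ∈ K.faces ∧ t ≠ s}, convexHull ℝ (t : Set (Fin d → ℝ))
    with hU
  have hUc : IsClosed U := by
    refine Set.Finite.isClosed_biUnion (hfin.subset (fun t ht => ht.1)) (fun t _ => ?_)
    exact (Set.Finite.isCompact_convexHull ℝ t.finite_toSet).isClosed
  have hxU : x ∉ U := by
    intro hxU
    simp only [hU, Set.mem_iUnion, Set.mem_ofPred_eq] at hxU
    obtain ⟨t, ⟨ht, htne⟩, hxt'⟩ := hxU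
    exact htne (hxt t ht hxt')
  have hxsp : x ∈ K.space := K.convexHull_subset_space hsK hxs
  have hxcl : x ∈ closure (interior K.space) := by
    rw [hconv.closure_interior_eq_closure_of_nonempty_interior hint]
    exact subset_closure hxsp
  obtain ⟨y, hyU, hyi⟩ := mem_closure_iff.1 hxcl Uᶜ hUc.isOpen_compl hxU
  have hsubs : Uᶜ ∩ interior K.space ⊆ convexHull ℝ (s : Set (Fin d → ℝ)) := by
    rintro z ⟨hzU, hzi⟩
    obtain ⟨t, ht, hzt⟩ := SimplicialComplex.mem_space_iff.1 (interior_subset hzi)
    by_cases hts : t = s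
    · rw [← hts]; exact hzt
    · exfalso
      apply hzU
      simp only [hU, Set.mem_iUnion, Set.mem_ofPred_eq]
      exact ⟨t, ⟨ht, hts⟩, hzt⟩
  have hint2 : (interior (convexHull ℝ (s : Set (Fin d → ℝ)))).Nonempty :=
    ⟨y, interior_maximal hsubs (hUc.isOpen_compl.inter isOpen_interior) ⟨hyU, hyi⟩⟩
  rw [interior_convexHull_nonempty_iff_affineSpan_eq_top] at hint2
  obtain ⟨m, hm⟩ : ∃ m, s.card = m + 1 := ⟨s.card - 1, by have := hne.card_pos; omega⟩
  have hrank := hind.finrank_vectorSpan (n := m) (by rw [Fintype.card_coe, hm])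
  have hrange : Set.range ((↑) : s → (Fin d → ℝ)) = (s : Set (Fin d → ℝ)) := by simp
  rw [hrange] at hrank
  have htop : vectorSpan ℝ (s : Set (Fin d → ℝ)) = ⊤ := by
    rw [← direction_affineSpan, hint2]
    exact AffineSubspace.direction_top ℝ _ _
  rw [htop, finrank_top, Module.finrank_fin_fun] at hrank
  rw [hm, hrank]

/-- Construction of a simplicial complex from a family with unique representations. -/
theorem exists_complex (F : Set (Finset (Fin N → ℝ))) (Φ : (Fin N → ℝ) →ₗ[ℝ] (Fin d → ℝ))
    (hne : ∀ t ∈ F, t.Nonempty) (hdown : ∀ t ∈ F, ∀ s ⊆ t, s.Nonempty → s ∈ F)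
    (huniq : ∀ t ∈ F, ∀ t' ∈ F, ∀ a b : (Fin N → ℝ) → ℝ, (∀ v, 0 ≤ a v) → (∀ v, 0 ≤ b v) →
      (∀ v ∉ t, a v = 0) → (∀ v ∉ t', b v = 0) → ∑ v ∈ t, a v = 1 → ∑ v ∈ t', b v = 1 →
      Φ (∑ v ∈ t, a v • v) = Φ (∑ v ∈ t', b v • v) → a = b) :
    ∃ K : SimplicialComplex ℝ (Fin d → ℝ),
      ∀ s : Finset (Fin d → ℝ), s ∈ K.faces ↔ ∃ t ∈ F, s = t.image Φ := by
  classical
  have hmem : ∀ (t : Finset (Fin N → ℝ)) (y : Fin d → ℝ),
      y ∈ convexHull ℝ ((t.image Φ : Finset (Fin d → ℝ)) : Set (Fin d → ℝ)) →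
      ∃ a : (Fin N → ℝ) → ℝ, (∀ v, 0 ≤ a v) ∧ (∀ v ∉ t, a v = 0) ∧ ∑ v ∈ t, a v = 1 ∧
        Φ (∑ v ∈ t, a v • v) = y := by
    intro t y hy
    rw [coe_image, ← Φ.image_convexHull] at hy
    obtain ⟨X, hX, rfl⟩ := hy
    rw [Finset.mem_convexHull'] at hX
    obtain ⟨w, hw0, hw1, hwx⟩ := hX
    refine ⟨fun v => if v ∈ t then w v else 0, fun v => ?_, fun v hv => if_neg hv, ?_, ?_⟩
    · dsimp only
      split_ifs with h
      · exact hw0 v h
      · exact le_rfl
    · rw [← hw1]
      exact sum_congr rfl (fun v hv => by simp only [if_pos hv])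
    · rw [← hwx]
      congr 1
      exact sum_congr rfl (fun v hv => by simp only [if_pos hv])
  refine ⟨{ faces := {s | ∃ t ∈ F, s = t.image Φ}, isRelLowerSet_faces := ?_, indep := ?_,
            inter_subset_convexHull := ?_ }, fun s => Iff.rfl⟩
  · rintro s ⟨t, ht, rfl⟩
    refine ⟨(hne t ht).image _, ?_⟩
    intro u hu hune
    have hu' : u ⊆ t.image Φ := hu
    refine ⟨t.filter (fun v => Φ v ∈ u), hdown t ht _ (filter_subset _ _) ?_, ?_⟩
    · obtain ⟨y, hy⟩ := hune
      obtain ⟨v, hv, rfl⟩ := mem_image.1 (hu' hy)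
      exact ⟨v, mem_filter.2 ⟨hv, hy⟩⟩
    · ext y
      rw [mem_image]
      constructor
      · intro hy
        obtain ⟨v, hv, rfl⟩ := mem_image.1 (hu' hy)
        exact ⟨v, mem_filter.2 ⟨hv, hy⟩, rfl⟩
      · rintro ⟨v, hv, rfl⟩
        exact (mem_filter.1 hv).2
  · rintro s ⟨t, ht, rfl⟩
    -- injectivity on `t`
    have hinj : ∀ v ∈ t, ∀ v' ∈ t, Φ v = Φ v' → v = v' := by
      intro v hv v' hv' h
      have := huniq t ht t ht (Pi.single v 1) (Pi.single v' 1)
        (fun u => by by_cases h : u = v <;> simp [Pi.single_apply, h])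
        (fun u => by by_cases h : u = v' <;> simp [Pi.single_apply, h])
        (fun u hu => by rw [Pi.single_apply, if_neg (fun h => hu (by rw [h]; exact hv))])
        (fun u hu => by rw [Pi.single_apply, if_neg (fun h => hu (by rw [h]; exact hv'))])
        (by simp [Pi.single_apply, hv]) (by simp [Pi.single_apply, hv']) (by
          simp only [Pi.single_apply, ite_smul, one_smul, zero_smul]
          rw [sum_ite_eq' t v (fun u => u), sum_ite_eq' t v' (fun u => u), if_pos hv, if_pos hv', h])
      have h2 := congrFun this v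
      simp only [Pi.single_eq_same] at h2
      by_contra hne
      rw [Pi.single_apply, if_neg hne] at h2
      exact one_ne_zero h2
    suffices hI : AffineIndependent ℝ (fun v : {v // v ∈ t} => Φ v.1) by
      have h1 := hI.range
      refine h1.mono ?_
      intro y hy
      obtain ⟨v, hv, rfl⟩ := mem_image.1 (mem_coe.1 hy)
      exact ⟨⟨v, hv⟩, rfl⟩
    rw [affineIndependent_iff]
    intro s w hw0 hwx i hi
    -- transfer to functions on `Fin N → ℝ`
    set u : (Fin N → ℝ) → ℝ := fun v => ∑ e ∈ s, if e.1 = v then w e else 0 with hu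
    have hut : ∀ v ∉ t, u v = 0 := by
      intro v hv
      refine sum_eq_zero (fun e _ => ?_)
      rw [if_neg (fun h => hv (by rw [← h]; exact e.2))]
    have hue : ∀ e ∈ s, u e.1 = w e := by
      intro e he
      simp only [hu]
      rw [sum_eq_single e]
      · rw [if_pos rfl]
      · intro e' _ hne
        rw [if_neg (fun h => hne (Subtype.ext h))]
      · intro hc; exact absurd he hc
    have hu1 : ∑ v ∈ t, u v = 0 := by
      simp only [hu]
      rw [sum_comm]
      refine Eq.trans ?_ hw0
      refine sum_congr rfl (fun e _ => ?_)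
      rw [sum_ite_eq t e.1 (fun _ => w e), if_pos e.2]
    have hu2 : ∑ v ∈ t, u v • Φ v = 0 := by
      simp only [hu, sum_smul]
      rw [sum_comm]
      refine Eq.trans ?_ hwx
      refine sum_congr rfl (fun e _ => ?_)
      simp only [ite_smul, zero_smul]
      rw [sum_ite_eq t e.1 (fun v => w e • Φ v), if_pos e.2]
    -- positive and negative parts
    have huz : ∀ v, u v = 0 := by
      by_contra hcon
      push Not at hcon
      obtain ⟨v0, hv0⟩ := hcon
      have hv0t : v0 ∈ t := by
        by_contra h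
        exact hv0 (hut v0 h)
      set S : ℝ := ∑ v ∈ t, max (u v) 0 with hS
      have hS' : S = ∑ v ∈ t, max (-u v) 0 := by
        have : ∑ v ∈ t, (max (u v) 0 - max (-u v) 0) = 0 := by
          refine Eq.trans ?_ hu1
          refine sum_congr rfl (fun v _ => ?_)
          rcases le_total (u v) 0 with h | h
          · rw [max_eq_right h, max_eq_left (by linarith)]; ring
          · rw [max_eq_left h, max_eq_right (by linarith)]; ring
        rw [sum_sub_distrib] at this
        linarith
      have hSpos : 0 < S := by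
        rcases lt_or_gt_of_ne hv0 with h | h
        · rw [hS']
          exact sum_pos' (fun v _ => le_max_right _ _) ⟨v0, hv0t, lt_max_of_lt_left (by linarith)⟩
        · exact sum_pos' (fun v _ => le_max_right _ _) ⟨v0, hv0t, lt_max_of_lt_left h⟩
      have := huniq t ht t ht (fun v => max (u v) 0 / S) (fun v => max (-u v) 0 / S)
        (fun v => div_nonneg (le_max_right _ _) hSpos.le)
        (fun v => div_nonneg (le_max_right _ _) hSpos.le)
        (fun v hv => by simp [hut v hv]) (fun v hv => by simp [hut v hv])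
        (by rw [← sum_div, ← hS, div_self hSpos.ne'])
        (by rw [← sum_div, ← hS', div_self hSpos.ne']) (by
          have h1 : ∑ v ∈ t, (max (u v) 0 / S) • v - ∑ v ∈ t, (max (-u v) 0 / S) • v =
              ∑ v ∈ t, (1 / S) • (u v • v) := by
            rw [← sum_sub_distrib]
            refine sum_congr rfl (fun v _ => ?_)
            rw [← sub_smul, smul_smul]
            congr 1
            rcases le_total (u v) 0 with h | h
            · rw [max_eq_right h, max_eq_left (by linarith)]; field_simp; ring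
            · rw [max_eq_left h, max_eq_right (by linarith)]; field_simp; ring
          rw [← sub_eq_zero, ← map_sub, h1, ← smul_sum, map_smul, map_sum]
          simp only [map_smul]
          rw [hu2, smul_zero])
      have h1 := congrFun this v0
      rw [div_left_inj' hSpos.ne'] at h1
      rcases lt_or_gt_of_ne hv0 with h | h
      · rw [max_eq_right h.le, max_eq_left (by linarith)] at h1; linarith
      · rw [max_eq_left h.le, max_eq_right (by linarith)] at h1; linarith
    rw [← hue i hi]
    exact huz _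
  · rintro s s' ⟨t, ht, rfl⟩ ⟨t', ht', rfl⟩ y ⟨hy, hy'⟩
    obtain ⟨a, ha0, hat, hsa, hay⟩ := hmem t y hy
    obtain ⟨b, hb0, hbt, hsb, hby⟩ := hmem t' y hy'
    have hab := huniq t ht t' ht' a b ha0 hb0 hat hbt hsa hsb (by rw [hay, hby])
    subst hab
    rw [← hay, map_sum]
    have h1 : ∀ v ∈ t, v ∉ t ∩ t' → a v = 0 := fun v hv hvn =>
      hbt v (fun h => hvn (mem_inter.2 ⟨hv, h⟩))
    rw [← sum_subset (inter_subset_left : t ∩ t' ⊆ t) (fun v hv hvn => by
      rw [h1 v hv hvn, zero_smul, map_zero])]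
    simp only [map_smul]
    refine (convex_convexHull ℝ _).sum_mem (fun v _ => ha0 v) ?_ (fun v hv => ?_)
    · rw [sum_subset (inter_subset_left : t ∩ t' ⊆ t) (fun v hv hvn => h1 v hv hvn), hsa]
    · refine subset_convexHull ℝ _ ⟨?_, ?_⟩
      · rw [coe_image]; exact ⟨v, (mem_inter.1 hv).1, rfl⟩
      · rw [coe_image]; exact ⟨v, (mem_inter.1 hv).2, rfl⟩

end Run7.h560.Geo
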