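import Mathlib

/-!
# Kuhn sets in partial sum coordinates

Integer vectors `v : Fin N → ℤ` are compared through their partial sums `Y v k`. A finite set of
vectors is a Kuhn set if any two of them differ by `0` or `1` in each partial sum, with the same
sign. Existence and uniqueness of the convex representation by Kuhn sets.
-/

set_option autoImplicit false

namespace Run7.h560.Kuhn

open Finset

variable {N : ℕ}

/-- Partial sums. -/
def Y {R : Type*} [AddCommMonoid R] (x : Fin N → R) (k : ℕ) : R :=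
  ∑ i : Fin N, if (i : ℕ) < k then x i else 0

lemma Y_zero {R : Type*} [AddCommMonoid R] (x : Fin N → R) : Y x 0 = 0 := by
  simp [Y]

lemma Y_succ {R : Type*} [AddCommMonoid R] (x : Fin N → R) (i : Fin N) :
    Y x ((i : ℕ) + 1) = Y x i + x i := by
  classical
  unfold Y
  have h : ∀ j : Fin N, (if (j : ℕ) < (i : ℕ) + 1 then x j else 0) =
      (if (j : ℕ) < (i : ℕ) then x j else 0) + (if j = i then x j else 0) := by
    intro j
    by_cases h1 : (j : ℕ) < (i : ℕ)
    · have h2 : j ≠ i := fun h => by rw [h] at h1; exact lt_irrefl _ h1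
      simp [h1, h2, Nat.lt_succ_of_lt h1]
    · by_cases h2 : j = i
      · subst h2; simp
      · have h3 : ¬ (j : ℕ) < (i : ℕ) + 1 := by
          intro h3
          apply h2
          apply Fin.ext
          omega
        simp [h1, h2, h3]
  rw [sum_congr rfl (fun j _ => h j), sum_add_distrib]
  simp

lemma Y_ge {R : Type*} [AddCommMonoid R] (x : Fin N → R) {k : ℕ} (hk : N ≤ k) :
    Y x k = ∑ i, x i := by
  unfold Y
  refine sum_congr rfl (fun i _ => ?_)
  rw [if_pos (lt_of_lt_of_le i.2 hk)]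

lemma Y_cast (v : Fin N → ℤ) (k : ℕ) : Y (fun i => (v i : ℝ)) k = ((Y v k : ℤ) : ℝ) := by
  unfold Y
  push_cast
  refine sum_congr rfl (fun i _ => ?_)
  split_ifs <;> simp

lemma Y_comb {ι : Type*} (s : Finset ι) (a : ι → ℝ) (p : ι → (Fin N → ℝ)) (k : ℕ) :
    Y (fun i => ∑ j ∈ s, a j * p j i) k = ∑ j ∈ s, a j * Y (p j) k := by
  unfold Y
  rw [sum_congr rfl (fun j _ => mul_sum _ _ _), sum_comm]
  refine sum_congr rfl (fun i _ => ?_)
  split_ifs with h
  · rfl
  · simp

lemma Y_add (x y : Fin N → ℝ) (k : ℕ) : Y (fun i => x i + y i) k = Y x k + Y y k := by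
  unfold Y
  rw [← sum_add_distrib]
  refine sum_congr rfl (fun i _ => ?_)
  split_ifs <;> simp

lemma Y_smul (a : ℝ) (x : Fin N → ℝ) (k : ℕ) : Y (fun i => a * x i) k = a * Y x k := by
  unfold Y
  rw [mul_sum]
  refine sum_congr rfl (fun i _ => ?_)
  split_ifs <;> simp

lemma ext_Y {R : Type*} [AddCommGroup R] {x x' : Fin N → R} (h : ∀ k, Y x k = Y x' k) :
    x = x' := by
  funext i
  have h1 := Y_succ x i
  have h2 := Y_succ x' i
  rw [h, h] at h1
  rw [h1] at h2
  exact add_left_cancel h2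

lemma exists_vec (g : ℕ → ℤ) (h0 : g 0 = 0) (hN : ∀ k, N ≤ k → g k = g N) :
    ∃ v : Fin N → ℤ, ∀ k, Y v k = g k := by
  refine ⟨fun i => g (i + 1) - g i, ?_⟩
  have h1 : ∀ k, k ≤ N → Y (fun i : Fin N => g (i + 1) - g i) k = g k := by
    intro k
    induction k with
    | zero => intro _; rw [Y_zero, h0]
    | succ k ih =>
      intro hk
      have := Y_succ (fun i : Fin N => g (i + 1) - g i) ⟨k, hk⟩
      simp only at this
      rw [this, ih (by omega)]
      ring
  intro k
  by_cases hk : k ≤ N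
  · exact h1 k hk
  · push Not at hk
    rw [Y_ge _ hk.le, hN k hk.le, ← h1 N le_rfl, Y_ge _ le_rfl]

/-- `v ≤ w ≤ v + 1` in partial sums. -/
def Le1 (v w : Fin N → ℤ) : Prop := ∀ k, Y v k ≤ Y w k ∧ Y w k ≤ Y v k + 1

/-- Kuhn sets. -/
def IsKuhn (A : Finset (Fin N → ℤ)) : Prop := ∀ v ∈ A, ∀ w ∈ A, Le1 v w ∨ Le1 w v

lemma Le1.refl (v : Fin N → ℤ) : Le1 v v := fun k => ⟨le_rfl, by linarith⟩

lemma Le1.antisymm {v w : Fin N → ℤ} (h1 : Le1 v w) (h2 : Le1 w v) : v = w :=
  ext_Y (fun k => le_antisymm (h1 k).1 (h2 k).1)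

lemma IsKuhn.mono {A B : Finset (Fin N → ℤ)} (hA : IsKuhn A) (h : B ⊆ A) : IsKuhn B :=
  fun v hv w hw => hA v (h hv) w (h hw)

/-- A sum of partial sums, used to compare. -/
def T (v : Fin N → ℤ) : ℤ := ∑ k ∈ range (N + 1), Y v k

lemma Y_min {R : Type*} [AddCommMonoid R] (v : Fin N → R) (k : ℕ) : Y v k = Y v (min k N) := by
  by_cases h : k ≤ N
  · rw [min_eq_left h]
  · push Not at h
    rw [min_eq_right h.le, Y_ge _ h.le, Y_ge _ le_rfl]

lemma eq_of_T {v w : Fin N → ℤ} (h : Le1 v w) (hT : T w ≤ T v) : v = w := by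
  have h1 : ∀ k ∈ range (N + 1), Y v k = Y w k := by
    have h2 : ∑ k ∈ range (N + 1), Y v k = ∑ k ∈ range (N + 1), Y w k :=
      le_antisymm (sum_le_sum (fun k _ => (h k).1)) hT
    exact (sum_eq_sum_iff_of_le (fun k _ => (h k).1)).1 h2
  refine ext_Y (fun k => ?_)
  rw [Y_min v, Y_min w]
  exact h1 _ (mem_range.2 (by omega))

lemma IsKuhn.exists_min {A : Finset (Fin N → ℤ)} (hA : IsKuhn A) (hne : A.Nonempty) :
    ∃ w ∈ A, ∀ v ∈ A, Le1 w v := by
  obtain ⟨w, hw, hmin⟩ := exists_min_image A T hne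
  refine ⟨w, hw, fun v hv => ?_⟩
  rcases hA w hw v hv with h | h
  · exact h
  · rw [eq_of_T h (hmin v hv)]
    exact Le1.refl _

lemma IsKuhn.exists_max {A : Finset (Fin N → ℤ)} (hA : IsKuhn A) (hne : A.Nonempty) :
    ∃ w ∈ A, ∀ v ∈ A, Le1 v w := by
  obtain ⟨w, hw, hmax⟩ := exists_max_image A T hne
  refine ⟨w, hw, fun v hv => ?_⟩
  rcases hA w hw v hv with h | h
  · rw [eq_of_T h (hmax v hv)]
    exact Le1.refl _
  · exact h

/-- The smallest element is given by rounding down. -/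
lemma min_floor {A : Finset (Fin N → ℤ)} {α : (Fin N → ℤ) → ℝ} (hα : ∀ v ∈ A, 0 < α v)
    {a : Fin N → ℤ} (ha : a ∈ A) (hmin : ∀ v ∈ A, Le1 a v) (k : ℕ) :
    Y a k = ⌊(∑ v ∈ A, α v * ((Y v k : ℤ) : ℝ)) / ∑ v ∈ A, α v⌋ := by
  have hS : 0 < ∑ v ∈ A, α v := sum_pos hα ⟨a, ha⟩
  symm
  rw [Int.floor_eq_iff]
  constructor
  · rw [le_div_iff₀ hS, mul_sum]
    refine sum_le_sum (fun v hv => ?_)
    have h1 : ((Y a k : ℤ) : ℝ) ≤ ((Y v k : ℤ) : ℝ) := by exact_mod_cast (hmin v hv k).1
    nlinarith [hα v hv]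
  · rw [div_lt_iff₀ hS, mul_sum]
    refine sum_lt_sum (fun v hv => ?_) ⟨a, ha, ?_⟩
    · have h1 : ((Y v k : ℤ) : ℝ) ≤ ((Y a k : ℤ) : ℝ) + 1 := by exact_mod_cast (hmin v hv k).2
      nlinarith [hα v hv]
    · nlinarith [hα a ha]

lemma unique_aux (n : ℕ) : ∀ (A B : Finset (Fin N → ℤ)) (α β : (Fin N → ℤ) → ℝ),
    A.card + B.card = n → (∀ v ∈ A, 0 < α v) → (∀ v ∈ B, 0 < β v) → IsKuhn A → IsKuhn B →
    ∑ v ∈ A, α v = ∑ v ∈ B, β v →
    (∀ k, ∑ v ∈ A, α v * ((Y v k : ℤ) : ℝ) = ∑ v ∈ B, β v * ((Y v k : ℤ) : ℝ)) →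
    A = B ∧ ∀ v ∈ A, α v = β v := by
  classical
  induction n using Nat.strong_induction_on with
  | _ n ih =>
  intro A B α β hn hα hβ hA hB hs hY
  by_cases hAe : A = ∅
  · subst hAe
    by_cases hBe : B = ∅
    · subst hBe
      exact ⟨rfl, by simp⟩
    · have := sum_pos hβ (nonempty_iff_ne_empty.2 hBe)
      simp at hs
      linarith
  have hAn := nonempty_iff_ne_empty.2 hAe
  by_cases hBe : B = ∅
  · subst hBe
    have := sum_pos hα hAn
    simp at hs
    linarith
  have hBn := nonempty_iff_ne_empty.2 hBe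
  obtain ⟨a, ha, hamin⟩ := hA.exists_min hAn
  obtain ⟨b, hb, hbmin⟩ := hB.exists_min hBn
  have hab : a = b := by
    refine ext_Y (fun k => ?_)
    rw [min_floor hα ha hamin k, min_floor hβ hb hbmin k, hs, hY k]
  subst hab
  have key : ∀ (A B : Finset (Fin N → ℤ)) (α β : (Fin N → ℤ) → ℝ),
      A.card + B.card = n → (∀ v ∈ A, 0 < α v) → (∀ v ∈ B, 0 < β v) → IsKuhn A → IsKuhn B →
      ∑ v ∈ A, α v = ∑ v ∈ B, β v →
      (∀ k, ∑ v ∈ A, α v * ((Y v k : ℤ) : ℝ) = ∑ v ∈ B, β v * ((Y v k : ℤ) : ℝ)) → a ∈ A → a ∈ B →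
      ¬ α a < β a := by
    intro A B α β hn hα hβ hA hB hs hY ha hb hlt
    have h := ih ((A.erase a).card + B.card) (by rw [card_erase_of_mem ha]; have := card_pos.2 ⟨a, ha⟩; omega)
      (A.erase a) B α (Function.update β a (β a - α a)) rfl
      (fun v hv => hα v (mem_of_mem_erase hv)) ?_ (hA.mono (erase_subset _ _)) hB ?_ ?_
    · have := h.1 ▸ hb
      exact notMem_erase a A this
    · intro v hv
      by_cases hva : v = a
      · subst hva; simp [hlt]
      · rw [Function.update_of_ne hva]; exact hβ v hv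
    · have h1 : ∑ v ∈ B, Function.update β a (β a - α a) v = ∑ v ∈ B, β v - α a := by
        rw [← add_sum_erase B _ hb, ← add_sum_erase B β hb]
        rw [Function.update_self]
        rw [sum_congr rfl (fun v hv => by rw [Function.update_of_ne (ne_of_mem_erase hv)])]
        ring
      rw [h1, ← hs, ← add_sum_erase A α ha]
      ring
    · intro k
      have h1 : ∑ v ∈ B, Function.update β a (β a - α a) v * ((Y v k : ℤ) : ℝ) =
          ∑ v ∈ B, β v * ((Y v k : ℤ) : ℝ) - α a * Y a k := by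
        rw [← add_sum_erase B _ hb, ← add_sum_erase B (fun v => β v * ((Y v k : ℤ) : ℝ)) hb]
        rw [Function.update_self]
        rw [sum_congr rfl (fun v hv => by rw [Function.update_of_ne (ne_of_mem_erase hv)])]
        ring
      rw [h1, ← hY, ← add_sum_erase A (fun v => α v * ((Y v k : ℤ) : ℝ)) ha]
      ring
  have h1 := key A B α β hn hα hβ hA hB hs hY ha hb
  have h2 := key B A β α (by omega) hβ hα hB hA hs.symm (fun k => (hY k).symm) hb ha
  have heq : α a = β a := le_antisymm (not_lt.1 h2) (not_lt.1 h1)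
  have h := ih ((A.erase a).card + (B.erase a).card)
    (by rw [card_erase_of_mem ha, card_erase_of_mem hb]; have := card_pos.2 ⟨a, ha⟩; omega)
    (A.erase a) (B.erase a) α β rfl (fun v hv => hα v (mem_of_mem_erase hv))
    (fun v hv => hβ v (mem_of_mem_erase hv)) (hA.mono (erase_subset _ _))
    (hB.mono (erase_subset _ _)) ?_ ?_
  · obtain ⟨h3, h4⟩ := h
    refine ⟨?_, ?_⟩
    · rw [← insert_erase ha, h3, insert_erase hb]
    · intro v hv
      by_cases hva : v = a
      · rw [hva, heq]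
      · exact h4 v (mem_erase.2 ⟨hva, hv⟩)
  · have e1 := add_sum_erase A α ha
    have e2 := add_sum_erase B β hb
    linarith
  · intro k
    have e1 := add_sum_erase A (fun v => α v * ((Y v k : ℤ) : ℝ)) ha
    have e2 := add_sum_erase B (fun v => β v * ((Y v k : ℤ) : ℝ)) hb
    have e3 := hY k
    rw [heq] at e1
    linarith

/-- Uniqueness of the representation by Kuhn sets. -/
theorem unique {A B : Finset (Fin N → ℤ)} {α β : (Fin N → ℤ) → ℝ}
    (hα : ∀ v ∈ A, 0 < α v) (hβ : ∀ v ∈ B, 0 < β v) (hA : IsKuhn A) (hB : IsKuhn B)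
    (hs : ∑ v ∈ A, α v = ∑ v ∈ B, β v)
    (hx : ∀ i, ∑ v ∈ A, α v * (v i : ℝ) = ∑ v ∈ B, β v * (v i : ℝ)) :
    A = B ∧ ∀ v ∈ A, α v = β v := by
  refine unique_aux _ A B α β rfl hα hβ hA hB hs (fun k => ?_)
  have h1 := Y_comb A α (fun v i => (v i : ℝ)) k
  have h2 := Y_comb B β (fun v i => (v i : ℝ)) k
  simp only [Y_cast] at h1 h2
  rw [← h1, ← h2]
  congr 1
  funext i
  exact hx i

/-- `v` satisfies all the inequalities of type A with integral constants valid for `x`. -/
def Hull (x : Fin N → ℝ) (v : Fin N → ℤ) : Prop :=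
  ∀ (j k : ℕ) (m : ℤ), Y x k - Y x j ≤ m → Y v k - Y v j ≤ m

lemma floor_frac_aux {a b : ℝ} {F : ℝ} (hF : 0 < F) {m : ℤ}
    (ha : Int.fract a ≤ F) (h : a - b ≤ m) :
    ((⌊a⌋ : ℝ) + Int.fract a / F) - ((⌊b⌋ : ℝ) + Int.fract b / F) ≤ m := by
  have e1 := Int.floor_add_fract a
  have e2 := Int.floor_add_fract b
  have fa0 := Int.fract_nonneg a
  have fb0 := Int.fract_nonneg b
  have fa1 := Int.fract_lt_one a
  have fb1 := Int.fract_lt_one b
  rcases le_or_gt (Int.fract a) (Int.fract b) with hab | hab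
  · have h1 : (⌊a⌋ : ℝ) - ⌊b⌋ < m + 1 := by linarith
    have h2 : ⌊a⌋ - ⌊b⌋ < m + 1 := by exact_mod_cast h1
    have h3 : ⌊a⌋ - ⌊b⌋ ≤ m := by omega
    have h4 : (⌊a⌋ : ℝ) - ⌊b⌋ ≤ m := by exact_mod_cast h3
    have h5 : Int.fract a / F ≤ Int.fract b / F := div_le_div_of_nonneg_right hab hF.le
    linarith
  · have h1 : (⌊a⌋ : ℝ) - ⌊b⌋ < m := by linarith
    have h2 : ⌊a⌋ - ⌊b⌋ < m := by exact_mod_cast h1
    have h3 : ⌊a⌋ - ⌊b⌋ ≤ m - 1 := by omega
    have h4 : (⌊a⌋ : ℝ) - ⌊b⌋ ≤ m - 1 := by exact_mod_cast h3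
    have h5 : Int.fract a / F - Int.fract b / F ≤ 1 := by
      rw [← sub_div, div_le_one hF]
      linarith
    linarith

/-- Every point is a convex combination of a Kuhn set inside every polytope of type A with
integral constants which contains it. -/
theorem exists_rep (n : ℕ) : ∀ (x : Fin N → ℝ),
    ((range (N + 1)).filter (fun k => Int.fract (Y x k) ≠ 0)).card = n →
    ∃ (A : Finset (Fin N → ℤ)) (α : (Fin N → ℤ) → ℝ), (∀ v ∈ A, 0 < α v) ∧
      ∑ v ∈ A, α v = 1 ∧ (∀ i, ∑ v ∈ A, α v * (v i : ℝ) = x i) ∧ IsKuhn A ∧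
      ∀ v ∈ A, Hull x v := by
  classical
  induction n using Nat.strong_induction_on with
  | _ n ih =>
  intro x hn
  obtain ⟨v0, hv0⟩ := exists_vec (N := N) (fun k => ⌊Y x k⌋) (by simp [Y_zero])
    (fun k hk => by rw [Y_ge x hk, Y_ge x le_rfl])
  have hv0 : ∀ k, Y v0 k = ⌊Y x k⌋ := hv0
  obtain ⟨k0, hk0, hmax⟩ := exists_max_image (range (N + 1)) (fun k => Int.fract (Y x k))
    ⟨0, by simp⟩
  set F := Int.fract (Y x k0) with hF
  have hmax' : ∀ k, Int.fract (Y x k) ≤ F := by
    intro k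
    rw [Y_min x k]
    exact hmax _ (mem_range.2 (by omega))
  have hF0 : 0 ≤ F := Int.fract_nonneg _
  have hF1 : F < 1 := Int.fract_lt_one _
  rcases hF0.eq_or_lt with hF00 | hFpos
  · -- all partial sums are integers
    have hint : ∀ k, Y x k = ((Y v0 k : ℤ) : ℝ) := by
      intro k
      have h1 : Int.fract (Y x k) = 0 := le_antisymm (by rw [hF00]; exact hmax' k) (Int.fract_nonneg _)
      rw [hv0, ← Int.floor_add_fract (Y x k), h1]
      simp
    have hx : x = fun i => (v0 i : ℝ) := by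
      refine ext_Y (fun k => ?_)
      rw [Y_cast, hint]
    refine ⟨{v0}, fun _ => 1, by simp, by simp, ?_, ?_, ?_⟩
    · intro i; simp [hx]
    · intro v hv w hw
      rw [mem_singleton] at hv hw
      subst hv hw
      exact Or.inl (Le1.refl _)
    · intro v hv j k m h
      rw [mem_singleton] at hv
      subst hv
      rw [hint, hint] at h
      exact_mod_cast h
  · set x' : Fin N → ℝ := fun i => (x i - (1 - F) * v0 i) / F with hx'
    have hY' : ∀ k, Y x' k = (⌊Y x k⌋ : ℝ) + Int.fract (Y x k) / F := by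
      intro k
      have e : x' = fun i => F⁻¹ * (x i + (-(1 - F)) * (v0 i : ℝ)) := by
        funext i
        simp only [hx']
        rw [div_eq_inv_mul]
        ring
      rw [e, Y_smul, Y_add, Y_smul, Y_cast, hv0]
      have e2 := Int.floor_add_fract (Y x k)
      field_simp
      linarith
    have hcard : ((range (N + 1)).filter (fun k => Int.fract (Y x' k) ≠ 0)).card < n := by
      rw [← hn]
      refine card_lt_card ⟨?_, ?_⟩
      · intro k hk
        rw [mem_filter] at hk ⊢
        refine ⟨hk.1, fun h0 => hk.2 ?_⟩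
        rw [hY' k, h0]
        simp
      · intro hsub
        have h1 : k0 ∈ (range (N + 1)).filter (fun k => Int.fract (Y x k) ≠ 0) :=
          mem_filter.2 ⟨hk0, hFpos.ne'⟩
        have h2 := (mem_filter.1 (hsub h1)).2
        apply h2
        rw [hY' k0, ← hF, div_self hFpos.ne']
        have : ((⌊Y x k0⌋ : ℝ) + 1) = ((⌊Y x k0⌋ + 1 : ℤ) : ℝ) := by push_cast; ring
        rw [this, Int.fract_intCast]
    obtain ⟨A, α, hα, hsum, hcomb, hK, hH⟩ := ih _ hcard x' rfl
    have hHx : ∀ v ∈ A, Hull x v := by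
      intro v hv j k m h
      refine hH v hv j k m ?_
      rw [hY' k, hY' j]
      exact floor_frac_aux hFpos (hmax' k) h
    have hlow : ∀ v ∈ A, Le1 v0 v := by
      intro v hv k
      rw [hv0]
      constructor
      · have h1 := hH v hv k 0 (-⌊Y x k⌋) (by
          rw [Y_zero, hY' k]
          push_cast
          have := div_nonneg (Int.fract_nonneg (Y x k)) hFpos.le
          linarith)
        rw [Y_zero] at h1
        omega
      · have h1 := hH v hv 0 k (⌊Y x k⌋ + 1) (by
          rw [Y_zero, hY' k]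
          push_cast
          have := (div_le_one hFpos).2 (hmax' k)
          linarith)
        rw [Y_zero] at h1
        omega
    have hnot : v0 ∉ A := by
      intro h0
      have h1 := hH v0 h0 k0 0 (-(⌊Y x k0⌋ + 1)) (by
        rw [Y_zero, hY' k0, ← hF, div_self hFpos.ne']
        push_cast
        linarith)
      rw [Y_zero, hv0] at h1
      omega
    refine ⟨insert v0 A, fun v => if v = v0 then 1 - F else F * α v, ?_, ?_, ?_, ?_, ?_⟩
    · intro v hv
      by_cases h : v = v0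
      · simp only [h, if_true]; linarith
      · simp only [if_neg h]
        exact mul_pos hFpos (hα v ((mem_insert.1 hv).resolve_left h))
    · have h1 : ∀ v ∈ A, (if v = v0 then 1 - F else F * α v) = F * α v := by
        intro v hv
        exact if_neg (fun h => hnot (by rw [← h]; exact hv))
      rw [sum_insert hnot, sum_congr rfl h1, ← mul_sum, hsum]
      simp
    · intro i
      have h1 : ∀ v ∈ A, (if v = v0 then 1 - F else F * α v) * (v i : ℝ) =
          F * (α v * (v i : ℝ)) := by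
        intro v hv
        rw [if_neg (fun h => hnot (by rw [← h]; exact hv)), mul_assoc]
      rw [sum_insert hnot]
      simp only [if_true]
      rw [sum_congr rfl h1, ← mul_sum, hcomb]
      simp only [hx']
      field_simp
      ring
    · intro v hv w hw
      rcases mem_insert.1 hv with hv0' | hv'
      · rcases mem_insert.1 hw with hw0' | hw'
        · rw [hv0', hw0']; exact Or.inl (Le1.refl _)
        · rw [hv0']; exact Or.inl (hlow w hw')
      · rcases mem_insert.1 hw with hw0' | hw'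
        · rw [hw0']; exact Or.inr (hlow v hv')
        · exact hK v hv' w hw'
    · intro v hv
      rcases mem_insert.1 hv with rfl | hv
      · intro j k m h
        rw [hv0, hv0]
        have e1 := Int.floor_add_fract (Y x k)
        have e2 := Int.floor_add_fract (Y x j)
        have f1 := Int.fract_nonneg (Y x k)
        have f2 := Int.fract_lt_one (Y x j)
        have h1 : (⌊Y x k⌋ : ℝ) - ⌊Y x j⌋ < m + 1 := by linarith
        have h2 : ⌊Y x k⌋ - ⌊Y x j⌋ < m + 1 := by exact_mod_cast h1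
        omega
      · exact hHx v hv

theorem exists_rep' (x : Fin N → ℝ) :
    ∃ (A : Finset (Fin N → ℤ)) (α : (Fin N → ℤ) → ℝ), (∀ v ∈ A, 0 < α v) ∧
      ∑ v ∈ A, α v = 1 ∧ (∀ i, ∑ v ∈ A, α v * (v i : ℝ) = x i) ∧ IsKuhn A ∧
      ∀ v ∈ A, Hull x v := exists_rep _ x rfl

/-- Dual functionals of type A for a Kuhn set. -/
theorem exists_dual {A : Finset (Fin N → ℤ)} (hA : IsKuhn A) {v : Fin N → ℤ} (hv : v ∈ A) :
    ∃ (j k : ℕ) (m : ℤ), Y v k - Y v j + m = 1 ∧ ∀ w ∈ A, w ≠ v → Y w k - Y w j + m = 0 := by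
  classical
  -- upper part
  have hup : ∃ (j : ℕ) (m : ℤ), (∀ w ∈ A, Le1 w v → Y w j + m = 0) ∧
      (∀ w ∈ A, w ≠ v → Le1 v w → Y w j + m = 1) := by
    by_cases hne : (A.filter (fun w => w ≠ v ∧ Le1 v w)).Nonempty
    · obtain ⟨u, hu, humin⟩ := (hA.mono (filter_subset _ _)).exists_min hne
      obtain ⟨huA, huv, hvu⟩ := mem_filter.1 hu
      have : ∃ k, Y v k < Y u k := by
        by_contra hcon
        push Not at hcon
        exact huv (Le1.antisymm (fun k => ⟨hcon k, by linarith [(hvu k).1]⟩) hvu)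
      obtain ⟨k, hk⟩ := this
      refine ⟨k, -Y v k, ?_, ?_⟩
      · intro w hw hwv
        have h1 := hwv k
        have h2 := hvu k
        have h3 : Y u k ≤ Y w k + 1 := by
          rcases hA u huA w hw with h | h
          · linarith [(h k).1]
          · exact (h k).2
        omega
      · intro w hw hwne hvw
        have h1 := humin w (mem_filter.2 ⟨hw, hwne, hvw⟩) k
        have h2 := hvw k
        omega
    · rw [not_nonempty_iff_eq_empty] at hne
      refine ⟨0, 0, fun w _ _ => by simp [Y_zero], fun w hw hwne hvw => ?_⟩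
      have : w ∈ A.filter (fun w => w ≠ v ∧ Le1 v w) := mem_filter.2 ⟨hw, hwne, hvw⟩
      rw [hne] at this
      exact absurd this (notMem_empty _)
  have hlo : ∃ (j : ℕ) (m : ℤ), (∀ w ∈ A, Le1 v w → Y w j + m = 1) ∧
      (∀ w ∈ A, w ≠ v → Le1 w v → Y w j + m = 0) := by
    by_cases hne : (A.filter (fun w => w ≠ v ∧ Le1 w v)).Nonempty
    · obtain ⟨u, hu, humax⟩ := (hA.mono (filter_subset _ _)).exists_max hne
      obtain ⟨huA, huv, hvu⟩ := mem_filter.1 hu
      have : ∃ k, Y u k < Y v k := by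
        by_contra hcon
        push Not at hcon
        exact huv (Le1.antisymm hvu (fun k => ⟨hcon k, by linarith [(hvu k).1]⟩))
      obtain ⟨k, hk⟩ := this
      refine ⟨k, -Y u k, ?_, ?_⟩
      · intro w hw hvw
        have h1 := hvw k
        have h2 := hvu k
        have h3 : Y w k ≤ Y u k + 1 := by
          rcases hA u huA w hw with h | h
          · exact (h k).2
          · linarith [(h k).1]
        omega
      · intro w hw hwne hwv
        have h1 := humax w (mem_filter.2 ⟨hw, hwne, hwv⟩) k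
        have h2 := hwv k
        have h3 := hvu k
        omega
    · rw [not_nonempty_iff_eq_empty] at hne
      refine ⟨0, 1, fun w _ _ => by simp [Y_zero], fun w hw hwne hvw => ?_⟩
      have : w ∈ A.filter (fun w => w ≠ v ∧ Le1 w v) := mem_filter.2 ⟨hw, hwne, hvw⟩
      rw [hne] at this
      exact absurd this (notMem_empty _)
  obtain ⟨j, m, h1, h2⟩ := hup
  obtain ⟨k, m', h3, h4⟩ := hlo
  refine ⟨j, k, m' - m, ?_, ?_⟩
  · have e1 := h1 v hv (Le1.refl _)
    have e2 := h3 v hv (Le1.refl _)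
    linarith
  · intro w hw hwne
    rcases hA v hv w hw with h | h
    · have e1 := h2 w hw hwne h
      have e2 := h3 w hw h
      linarith
    · have e1 := h1 w hw h
      have e2 := h4 w hw hwne h
      linarith

end Run7.h560.Kuhn
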