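import Pool.Agent.Run7.h560.Geo

/-!
# Dilations of lattice triangulations with simplices of normalised volume at most two
-/

set_option autoImplicit false

namespace Run7.h560.Main

open scoped Pointwise
open Finset Geometry Run7.h560.Kuhn Run7.h560.Region Run7.h560.Abs Run7.h560.Lat Run7.h560.Geo

variable {d N : ℕ}

/-- The setting: a finite triangulation with an enumeration of the vertices. -/
structure Setting (d N : ℕ) (T : SimplicialComplex ℝ (Fin d → ℝ)) where
  w : Fin N → (Fin d → ℤ)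
  g : Fin N → (Fin d → ℝ)
  gw : ∀ i, g i = fun z => (w i z : ℝ)
  inj : Function.Injective g
  all : ∀ s ∈ T.faces, ∃ σ : Finset (Fin N), σ.image g = s
  fac : ∀ σ : Finset (Fin N), σ.image g ∈ T.faces →
    ∃ e : Fin (d + 1) → Fin N, Function.Injective e ∧ (∀ i ∈ σ, ∃ j, e j = i) ∧
      ((univ.image e).image g ∈ T.faces) ∧
      (|(diffM (fun j => w (e j))).det| = 1 ∨ |(diffM (fun j => w (e j))).det| = 2)

variable {T : SimplicialComplex ℝ (Fin d → ℝ)} (Z : Setting d N T)

/-- faces as index sets -/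
def TT (σ : Finset (Fin N)) : Prop := σ = ∅ ∨ σ.image Z.g ∈ T.faces

/-- special faces -/
def SS (τ : Finset (Fin N)) : Prop :=
  τ.Nonempty ∧ τ.image Z.g ∈ T.faces ∧ Even τ.card ∧
    ∃ y : Fin d → ℤ, ∀ z, 2 * y z = ∑ i ∈ τ, Z.w i z

lemma TT_down (σ σ' : Finset (Fin N)) (h : σ' ⊆ σ) (hσ : TT Z σ) : TT Z σ' := by
  classical
  rcases σ'.eq_empty_or_nonempty with h0 | h0
  · exact Or.inl h0
  · rcases hσ with h1 | h1
    · exact absurd (h1 ▸ h) (fun h2 => h0.ne_empty (subset_empty.1 h2))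
    · exact Or.inr (T.down_closed h1 (image_subset_image h) (h0.image _))

lemma card_le {s : Finset (Fin d → ℝ)} (hs : s ∈ T.faces) : s.card ≤ d + 1 := by
  have h1 := (T.indep hs).card_le_finrank_succ
  rw [Fintype.card_coe] at h1
  have h2 : Module.finrank ℝ (vectorSpan ℝ (Set.range ((↑) : s → (Fin d → ℝ)))) ≤ d := by
    have := Submodule.finrank_le (vectorSpan ℝ (Set.range ((↑) : s → (Fin d → ℝ))))
    rwa [Module.finrank_fin_fun] at this
  omega

/-- half of the indicator of a special face -/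
lemma half_inG (e : Fin (d + 1) → Fin N) (he : Function.Injective e) (τ : Finset (Fin N))
    (hτ : SS Z τ) (hsub : ∀ i ∈ τ, ∃ j, e j = i) :
    InG (fun j => Z.w (e j)) (fun j => if e j ∈ τ then 1 / 2 else 0) ∧
      ¬ IsInt (fun j => if e j ∈ τ then (1 / 2 : ℝ) else 0) := by
  classical
  obtain ⟨hne, -, heven, y, hy⟩ := hτ
  have himg : (univ.filter (fun j => e j ∈ τ)).image e = τ := by
    ext i
    simp only [mem_image, mem_filter, mem_univ, true_and]
    constructor
    · rintro ⟨j, hj, rfl⟩; exact hj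
    · intro hi
      obtain ⟨j, rfl⟩ := hsub i hi
      exact ⟨j, hi, rfl⟩
  have hsum : ∀ f : Fin N → ℝ, ∑ j, (if e j ∈ τ then (1 / 2 : ℝ) else 0) * f (e j) =
      (∑ i ∈ τ, f i) / 2 := by
    intro f
    have h1 : ∑ i ∈ τ, f i = ∑ j ∈ univ.filter (fun j => e j ∈ τ), f (e j) := by
      conv_lhs => rw [← himg]
      rw [sum_image (fun a _ b _ h => he h)]
    rw [h1, sum_div, sum_filter]
    refine sum_congr rfl (fun j _ => ?_)
    split_ifs <;> ring
  refine ⟨⟨?_, ?_⟩, ?_⟩
  · obtain ⟨k, hk⟩ := heven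
    have := hsum (fun _ => 1)
    simp only [mul_one] at this
    refine ⟨k, ?_⟩
    rw [this, sum_const, hk]
    push_cast [nsmul_eq_mul]
    ring
  · intro z
    refine ⟨y z, ?_⟩
    rw [hsum (fun i => (Z.w i z : ℝ))]
    have : (2 * y z : ℝ) = ∑ i ∈ τ, (Z.w i z : ℝ) := by exact_mod_cast hy z
    linarith
  · intro hint
    obtain ⟨i, hi⟩ := hne
    obtain ⟨j, rfl⟩ := hsub i hi
    obtain ⟨n, hn⟩ := hint j
    simp only [if_pos hi] at hn
    have h1 : (2 * n : ℝ) = 1 := by linarith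
    have h2 : 2 * n = 1 := by exact_mod_cast h1
    omega

lemma conf (τ τ' σ : Finset (Fin N)) (hτ : SS Z τ) (hτ' : SS Z τ') (hσ : TT Z σ) (h : τ ⊆ σ)
    (h' : τ' ⊆ σ) : τ = τ' := by
  classical
  have hσ' : σ.image Z.g ∈ T.faces := by
    rcases hσ with h0 | h0
    · subst h0
      exact absurd (subset_empty.1 h) hτ.1.ne_empty
    · exact h0
  obtain ⟨e, he, hcov, -, hdet⟩ := Z.fac σ hσ'
  obtain ⟨g1, n1⟩ := half_inG Z e he τ hτ (fun i hi => hcov i (h hi))
  obtain ⟨g2, n2⟩ := half_inG Z e he τ' hτ' (fun i hi => hcov i (h' hi))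
  have := class_unique _ hdet _ _ g1 g2 n1 n2
  have key : ∀ i ∈ σ, (i ∈ τ ↔ i ∈ τ') := by
    intro i hi
    obtain ⟨j, rfl⟩ := hcov i hi
    obtain ⟨n, hn⟩ := this j
    by_cases h1 : e j ∈ τ
    · by_cases h2 : e j ∈ τ'
      · simp [h1, h2]
      · simp only [if_pos h1, if_neg h2, sub_zero] at hn
        have h3 : (2 * n : ℝ) = 1 := by linarith
        have h4 : 2 * n = 1 := by exact_mod_cast h3
        omega
    · by_cases h2 : e j ∈ τ'
      · simp only [if_pos h2, if_neg h1] at hn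
        have h3 : (2 * n : ℝ) = -1 := by linarith
        have h4 : 2 * n = -1 := by exact_mod_cast h3
        omega
      · simp [h1, h2]
  ext i
  constructor
  · intro hi; exact (key i (h hi)).1 hi
  · intro hi; exact (key i (h' hi)).2 hi

/-- the data -/
lemma exists_data (c : ℤ) (hc : 0 < c) (hcd : ((d + 1) / 2 : ℕ) ≤ c) :
    ∃ D : Data N c, D.T = TT Z ∧ D.S = SS Z := by
  classical
  have hreg : ∀ τ : Finset (Fin N), ∃ act, SS Z τ → IsRegions τ c act := by
    intro τ
    by_cases hτ : SS Z τ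
    · obtain ⟨hne, hface, ⟨h, hh⟩, -⟩ := hτ
      have h1 := card_le hface
      rw [card_image_of_injective _ Z.inj] at h1
      obtain ⟨act, hact⟩ := exists_regions τ hne h (by omega) c (by
        have : h ≤ (d + 1) / 2 := by omega
        have : (h : ℤ) ≤ ((d + 1) / 2 : ℕ) := by exact_mod_cast this
        omega)
      exact ⟨act, fun _ => hact⟩
    · exact ⟨fun _ => ∅, fun h => absurd h hτ⟩
  choose act hact using hreg
  exact ⟨{ T := TT Z, S := SS Z, act := act, cpos := hc, down := TT_down Z, ne := fun τ h => h.1,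
           reg := hact, conf := conf Z }, rfl, rfl⟩

/-- The linear map. -/
noncomputable def Φ : (Fin N → ℝ) →ₗ[ℝ] (Fin d → ℝ) := Fintype.linearCombination ℝ Z.g

lemma Φ_apply (X : Fin N → ℝ) : Φ Z X = ∑ i, X i • Z.g i := by
  unfold Φ
  rw [Fintype.linearCombination_apply]

lemma T_inj (c : ℝ) (hc : 0 < c) (σ σ' : Finset (Fin N)) (hσ : TT Z σ) (hσ' : TT Z σ')
    (X X' : Fin N → ℝ) (hX : ∀ i, 0 ≤ X i) (hX' : ∀ i, 0 ≤ X' i) (hs : ∑ i, X i = c)
    (hs' : ∑ i, X' i = c) (hz : ∀ i ∉ σ, X i = 0) (hz' : ∀ i ∉ σ', X' i = 0)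
    (h : Φ Z X = Φ Z X') : X = X' := by
  classical
  have hface : ∀ (σ : Finset (Fin N)) (X : Fin N → ℝ), TT Z σ → ∑ i, X i = c →
      (∀ i ∉ σ, X i = 0) → σ.image Z.g ∈ T.faces := by
    intro σ X hσ hs hz
    rcases hσ with h0 | h0
    · subst h0
      rw [sum_eq_zero (fun i _ => hz i (notMem_empty _))] at hs
      exact absurd hs hc.ne
    · exact h0
  have f1 := hface σ X hσ hs hz
  have f2 := hface σ' X' hσ' hs' hz'
  have hmem : ∀ (σ : Finset (Fin N)) (X : Fin N → ℝ), (∀ i, 0 ≤ X i) → ∑ i, X i = c →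
      (∀ i ∉ σ, X i = 0) → c⁻¹ • Φ Z X ∈
        convexHull ℝ ((σ.image Z.g : Finset (Fin d → ℝ)) : Set (Fin d → ℝ)) := by
    intro σ X hX hs hz
    rw [mem_hull_iff Z.g Z.inj σ]
    refine ⟨fun i => c⁻¹ * X i, fun i => mul_nonneg (inv_nonneg.2 hc.le) (hX i), ?_,
      fun i hi => by simp only [hz i hi, mul_zero], ?_⟩
    · rw [← mul_sum, hs, inv_mul_cancel₀ hc.ne']
    · rw [Φ_apply, smul_sum]
      exact sum_congr rfl (fun i _ => by rw [smul_smul])
  have m1 := hmem σ X hX hs hz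
  have m2 := hmem σ' X' hX' hs' hz'
  rw [← h] at m2
  have m3 := T.inter_subset_convexHull f1 f2 ⟨m1, m2⟩
  rw [← coe_inter, ← image_inter _ _ Z.inj, mem_hull_iff Z.g Z.inj] at m3
  obtain ⟨z, hz0, hz1, hzs, hzx⟩ := m3
  have e1 : (fun i => c⁻¹ * X i) = z := by
    refine weights_unique Z.g Z.inj σ (T.indep f1) _ _ (fun i hi => by simp only [hz i hi, mul_zero])
      (fun i hi => hzs i (fun hc => hi (mem_inter.1 hc).1)) ?_ ?_
    · rw [hz1, ← mul_sum, hs, inv_mul_cancel₀ hc.ne']
    · rw [hzx, Φ_apply, smul_sum]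
      exact sum_congr rfl (fun i _ => by rw [smul_smul])
  have e2 : (fun i => c⁻¹ * X' i) = z := by
    refine weights_unique Z.g Z.inj σ' (T.indep f2) _ _ (fun i hi => by simp only [hz' i hi, mul_zero])
      (fun i hi => hzs i (fun hc => hi (mem_inter.1 hc).2)) ?_ ?_
    · rw [hz1, ← mul_sum, hs', inv_mul_cancel₀ hc.ne']
    · rw [hzx, h, Φ_apply, smul_sum]
      exact sum_congr rfl (fun i _ => by rw [smul_smul])
  funext i
  have h1 := congrFun (e1.trans e2.symm) i
  exact mul_left_cancel₀ (inv_ne_zero hc.ne') h1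

variable {c : ℤ} (D : Data N c)

/-- The faces have a carrier. -/
lemma carrier {t : Finset (Fin N → ℝ)} (ht : FaceX D t) :
    ∃ σ, D.T σ ∧ ∀ v ∈ t, ∀ i ∉ σ, v i = 0 := by
  obtain ⟨σ, h1, h2, -⟩ := dual_X D ht
  exact ⟨σ, h1, h2⟩

lemma comb_props {t : Finset (Fin N → ℝ)} (ht : FaceX D t) (a : (Fin N → ℝ) → ℝ)
    (ha : ∀ v, 0 ≤ a v) (hs : ∑ v ∈ t, a v = 1) :
    (∀ i, 0 ≤ (∑ v ∈ t, a v • v) i) ∧ ∑ i, (∑ v ∈ t, a v • v) i = c := by
  constructor
  · intro i
    rw [Finset.sum_apply]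
    exact sum_nonneg (fun v hv => mul_nonneg (ha v) ((ht.nn D v hv).1 i))
  · simp only [Finset.sum_apply, Pi.smul_apply, smul_eq_mul]
    rw [sum_comm]
    have : ∀ v ∈ t, ∑ i, a v * v i = a v * c := fun v hv => by
      rw [← mul_sum, (ht.nn D v hv).2]
    rw [sum_congr rfl this, ← sum_mul, hs, one_mul]

theorem exists_K (hT : D.T = TT Z) : ∃ K : SimplicialComplex ℝ (Fin d → ℝ),
    (∀ s : Finset (Fin d → ℝ), s ∈ K.faces ↔ ∃ t, FaceX D t ∧ s = t.image (Φ Z)) ∧
    (∀ t, FaceX D t → Set.InjOn (Φ Z) t) := by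
  classical
  have hcpos : (0 : ℝ) < c := by exact_mod_cast D.cpos
  have huniq : ∀ t ∈ {t | FaceX D t}, ∀ t' ∈ {t | FaceX D t}, ∀ a b : (Fin N → ℝ) → ℝ,
      (∀ v, 0 ≤ a v) → (∀ v, 0 ≤ b v) →
      (∀ v ∉ t, a v = 0) → (∀ v ∉ t', b v = 0) → ∑ v ∈ t, a v = 1 → ∑ v ∈ t', b v = 1 →
      Φ Z (∑ v ∈ t, a v • v) = Φ Z (∑ v ∈ t', b v • v) → a = b := by
    intro t ht t' ht' a b ha hb hat hbt hsa hsb h
    obtain ⟨σ, hσ, hσs⟩ := carrier D ht
    obtain ⟨σ', hσ', hσs'⟩ := carrier D ht'
    rw [hT] at hσ hσ'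
    obtain ⟨p1, p2⟩ := comb_props D ht a ha hsa
    obtain ⟨q1, q2⟩ := comb_props D ht' b hb hsb
    have hX := T_inj Z c hcpos σ σ' hσ hσ' _ _ p1 q1 p2 q2
      (fun i hi => by
        rw [Finset.sum_apply]
        exact sum_eq_zero (fun v hv => by simp [hσs v hv i hi]))
      (fun i hi => by
        rw [Finset.sum_apply]
        exact sum_eq_zero (fun v hv => by simp [hσs' v hv i hi])) h
    refine unique_X D ht ht' a b ha hb hat hbt hsa hsb (fun i => ?_)
    have := congrFun hX i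
    simpa only [Finset.sum_apply, Pi.smul_apply, smul_eq_mul] using this
  obtain ⟨K, hK⟩ := exists_complex {t | FaceX D t} (Φ Z) (fun t ht => ht.1) (by
    rintro t ⟨hne, ht⟩ s hs hsne
    refine ⟨hsne, ?_⟩
    rcases ht with ⟨σ, A, hP, h⟩ | ⟨σ, τ, l, f, A, hP, h⟩
    · exact Or.inl ⟨σ, A, hP, fun v hv => h v (hs hv)⟩
    · exact Or.inr ⟨σ, τ, l, f, A, hP, fun v hv => h v (hs hv)⟩) huniq
  refine ⟨K, hK, ?_⟩
  intro t ht v hv v' hv' h
  have hv : v ∈ t := hv
  have hv' : v' ∈ t := hv'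
  have := huniq t ht t ht (Pi.single v 1) (Pi.single v' 1)
    (fun u => by by_cases h : u = v <;> simp [h])
    (fun u => by by_cases h : u = v' <;> simp [h])
    (fun u hu => by rw [Pi.single_apply, if_neg (fun h => hu (by rw [h]; exact hv))])
    (fun u hu => by rw [Pi.single_apply, if_neg (fun h => hu (by rw [h]; exact hv'))])
    (by simp [Pi.single_apply, hv]) (by simp [Pi.single_apply, hv']) (by
      simp only [Pi.single_apply, ite_smul, one_smul, zero_smul]
      rw [sum_ite_eq' t v (fun u => u), sum_ite_eq' t v' (fun u => u), if_pos hv, if_pos hv', h])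
  have h2 := congrFun this v
  simp only [Pi.single_eq_same] at h2
  by_contra hne
  rw [Pi.single_apply, if_neg hne] at h2
  exact one_ne_zero h2

lemma mem_hull_weights (t : Finset (Fin N → ℝ)) (X : Fin N → ℝ)
    (hX : X ∈ convexHull ℝ (t : Set (Fin N → ℝ))) : ∃ a : (Fin N → ℝ) → ℝ, (∀ v, 0 ≤ a v) ∧
      ∑ v ∈ t, a v = 1 ∧ ∑ v ∈ t, a v • v = X := by
  classical
  rw [Finset.mem_convexHull'] at hX
  obtain ⟨w, hw0, hw1, hwx⟩ := hX
  refine ⟨fun v => if v ∈ t then w v else 0, fun v => ?_, ?_, ?_⟩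
  · dsimp only
    split_ifs with h
    · exact hw0 v h
    · exact le_rfl
  · rw [← hw1]
    exact sum_congr rfl (fun v hv => by simp only [if_pos hv])
  · rw [← hwx]
    exact sum_congr rfl (fun v hv => by simp only [if_pos hv])

theorem K_space (hT : D.T = TT Z) (K : SimplicialComplex ℝ (Fin d → ℝ))
    (hK : ∀ s : Finset (Fin d → ℝ), s ∈ K.faces ↔ ∃ t, FaceX D t ∧ s = t.image (Φ Z)) :
    K.space = (c : ℝ) • T.space := by
  classical
  have hcpos : (0 : ℝ) < c := by exact_mod_cast D.cpos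
  ext y
  rw [SimplicialComplex.mem_space_iff, Set.mem_smul_set]
  constructor
  · rintro ⟨s, hs, hy⟩
    obtain ⟨t, ht, rfl⟩ := (hK s).1 hs
    rw [coe_image, ← (Φ Z).image_convexHull] at hy
    obtain ⟨X, hX, rfl⟩ := hy
    obtain ⟨a, ha, hs1, rfl⟩ := mem_hull_weights t X hX
    obtain ⟨p1, p2⟩ := comb_props D ht a ha hs1
    obtain ⟨σ, hσ, hσs⟩ := carrier D ht
    set X := ∑ v ∈ t, a v • v with hXdef
    have hXz : ∀ i ∉ σ, X i = 0 := by
      intro i hi
      rw [hXdef, Finset.sum_apply]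
      exact sum_eq_zero (fun v hv => by simp [hσs v hv i hi])
    rw [hT] at hσ
    have hσ' : σ.image Z.g ∈ T.faces := by
      rcases hσ with h0 | h0
      · subst h0
        rw [sum_eq_zero (fun i _ => hXz i (notMem_empty _))] at p2
        exact absurd p2 hcpos.ne
      · exact h0
    refine ⟨(c : ℝ)⁻¹ • Φ Z X, ?_, ?_⟩
    · refine T.convexHull_subset_space hσ' ?_
      rw [mem_hull_iff Z.g Z.inj σ]
      refine ⟨fun i => (c : ℝ)⁻¹ * X i, fun i => mul_nonneg (inv_nonneg.2 hcpos.le) (p1 i), ?_,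
        fun i hi => by simp only [hXz i hi, mul_zero], ?_⟩
      · rw [← mul_sum, p2, inv_mul_cancel₀ hcpos.ne']
      · rw [Φ_apply, smul_sum]
        exact sum_congr rfl (fun i _ => by rw [smul_smul])
    · rw [smul_smul, mul_inv_cancel₀ hcpos.ne', one_smul]
  · rintro ⟨y', hy', rfl⟩
    obtain ⟨s, hs, hys⟩ := SimplicialComplex.mem_space_iff.1 hy'
    obtain ⟨σ, rfl⟩ := Z.all s hs
    rw [mem_hull_iff Z.g Z.inj σ] at hys
    obtain ⟨x, hx0, hx1, hxs, rfl⟩ := hys
    have hsub : univ.filter (fun i => (c : ℝ) * x i ≠ 0) ⊆ σ := by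
      intro i hi
      by_contra hiσ
      exact (mem_filter.1 hi).2 (by rw [hxs i hiσ, mul_zero])
    obtain ⟨t, ht, hXt⟩ := cover_X D (fun i => (c : ℝ) * x i)
      (fun i => mul_nonneg hcpos.le (hx0 i)) (by rw [← mul_sum, hx1, mul_one])
      (D.down σ _ hsub (by rw [hT]; exact Or.inr hs))
    refine ⟨t.image (Φ Z), (hK _).2 ⟨t, ht, rfl⟩, ?_⟩
    rw [coe_image, ← (Φ Z).image_convexHull]
    refine ⟨_, hXt, ?_⟩
    rw [Φ_apply, smul_sum]
    exact sum_congr rfl (fun i _ => by rw [smul_smul])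

/-- vertices are half-integral and bounded -/
lemma vertex_half {t : Finset (Fin N → ℝ)} (ht : FaceX D t) (v : Fin N → ℝ) (hv : v ∈ t) :
    ∃ n : Fin N → Fin (2 * c.toNat + 1), v = fun i => ((n i : ℕ) : ℝ) / 2 := by
  have hhalf : ∀ i, ∃ m : ℤ, v i = (m : ℝ) / 2 := by
    intro i
    rcases ht.2 with ⟨σ, A, hP, h⟩ | ⟨σ, τ, l, f, A, hP, h⟩
    · obtain ⟨w, -, rfl⟩ := h v hv
      exact ⟨2 * w i, by simp only [toR]; push_cast; ring⟩
    · rcases h v hv with rfl | ⟨w, -, rfl⟩
      · unfold pt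
        by_cases hi : i ∈ τ
        · exact ⟨2 * l i + 1, by rw [if_pos hi]; push_cast; ring⟩
        · exact ⟨2 * l i, by rw [if_neg hi]; push_cast; ring⟩
      · exact ⟨2 * w i, by simp only [toR]; push_cast; ring⟩
  choose m hm using hhalf
  obtain ⟨h0, hs⟩ := ht.nn D v hv
  have hm0 : ∀ i, 0 ≤ m i := by
    intro i
    have h1 := h0 i
    rw [hm i] at h1
    have : (0 : ℝ) ≤ m i := by linarith
    exact_mod_cast this
  have hmc : ∀ i, m i ≤ 2 * c := by
    intro i
    have h1 : v i ≤ ∑ i, v i := single_le_sum (fun i _ => h0 i) (mem_univ i)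
    rw [hs, hm i] at h1
    have : (m i : ℝ) ≤ 2 * c := by linarith
    exact_mod_cast this
  have hc0 := D.cpos
  refine ⟨fun i => ⟨(m i).toNat, by have := hmc i; omega⟩, ?_⟩
  funext i
  rw [hm i]
  congr 1
  have h1 := Int.toNat_of_nonneg (hm0 i)
  have h2 : (((m i).toNat : ℤ) : ℝ) = (m i : ℝ) := by rw [h1]
  rw [← h2]
  exact Int.cast_natCast _

lemma K_finite (K : SimplicialComplex ℝ (Fin d → ℝ))
    (hK : ∀ s : Finset (Fin d → ℝ), s ∈ K.faces ↔ ∃ t, FaceX D t ∧ s = t.image (Φ Z)) :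
    K.faces.Finite := by
  classical
  set W : Set (Fin d → ℝ) := Set.range (fun n : Fin N → Fin (2 * c.toNat + 1) =>
    Φ Z (fun i => ((n i : ℕ) : ℝ) / 2)) with hW
  have hWf : W.Finite := Set.finite_range _
  refine (hWf.toFinset.powerset.finite_toSet).subset ?_
  intro s hs
  obtain ⟨t, ht, rfl⟩ := (hK s).1 hs
  rw [mem_coe, mem_powerset]
  intro y hy
  obtain ⟨v, hv, rfl⟩ := mem_image.1 hy
  rw [Set.Finite.mem_toFinset]
  obtain ⟨n, hn⟩ := vertex_half D ht v hv
  exact ⟨n, by rw [hn]⟩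

/-- Images of vertices are lattice points. -/
lemma vertex_int (hS : D.S = SS Z) {t : Finset (Fin N → ℝ)} (ht : FaceX D t) (v : Fin N → ℝ)
    (hv : v ∈ t) : ∃ y : Fin d → ℤ, Φ Z v = fun z => (y z : ℝ) := by
  classical
  have hval : ∀ X : Fin N → ℝ, ∀ z, (Φ Z X) z = ∑ i, X i * (Z.w i z : ℝ) := by
    intro X z
    rw [Φ_apply, Finset.sum_apply]
    exact sum_congr rfl (fun i _ => by rw [Pi.smul_apply, Z.gw i, smul_eq_mul])
  have hint : ∀ w : Fin N → ℤ, ∃ y : Fin d → ℤ, Φ Z (toR w) = fun z => (y z : ℝ) := by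
    intro w
    refine ⟨fun z => ∑ i, w i * Z.w i z, ?_⟩
    funext z
    rw [hval]
    push_cast
    rfl
  rcases ht.2 with ⟨σ, A, hP, h⟩ | ⟨σ, τ, l, f, A, hP, h⟩
  · obtain ⟨w, -, rfl⟩ := h v hv
    exact hint w
  · rcases h v hv with rfl | ⟨w, -, rfl⟩
    · have hτ : SS Z τ := by rw [← hS]; exact hP.S
      obtain ⟨-, -, -, y, hy⟩ := hτ
      refine ⟨fun z => ∑ i, l i * Z.w i z + y z, ?_⟩
      funext z
      rw [hval]
      unfold pt
      simp only [add_mul, sum_add_distrib, ite_mul, zero_mul]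
      rw [sum_ite_mem, univ_inter]
      have : (2 * y z : ℝ) = ∑ i ∈ τ, (Z.w i z : ℝ) := by exact_mod_cast hy z
      push_cast
      rw [← mul_sum, ← this]
      ring
    · exact hint w

/-- Integral dual functionals give determinant one. -/
lemma det_of_dual (v : Fin (d + 1) → (Fin d → ℤ))
    (h : ∀ j : Fin (d + 1), ∃ (a : Fin d → ℤ) (c : ℤ), ∀ i, ∑ z, a z * v i z + c =
      if i = j then 1 else 0) : |(diffM v).det| = 1 := by
  classical
  choose a b hab using h
  have hmul : diffM v * Matrix.of (fun (z : Fin d) (j : Fin d) => a j.succ z) = 1 := by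
    ext i j
    rw [Matrix.mul_apply]
    simp only [diffM, Matrix.of_apply]
    have h1 := hab j.succ i.succ
    have h2 := hab j.succ 0
    rw [if_neg (Fin.succ_ne_zero j).symm] at h2
    have h3 : ∑ z, (v i.succ z - v 0 z) * a j.succ z =
        (∑ z, a j.succ z * v i.succ z + b j.succ) - (∑ z, a j.succ z * v 0 z + b j.succ) := by
      simp only [sub_mul, sum_sub_distrib]
      rw [sum_congr rfl (fun z _ => mul_comm (v i.succ z) (a j.succ z)),
        sum_congr rfl (fun z _ => mul_comm (v 0 z) (a j.succ z))]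
      ring
    rw [h3, h1, h2, Matrix.one_apply]
    simp [Fin.succ_inj]
  have hdet := congrArg Matrix.det hmul
  rw [Matrix.det_mul, Matrix.det_one] at hdet
  exact Int.isUnit_iff_abs_eq.1 (IsUnit.of_mul_eq_one _ hdet)

/-- Integral affine functionals from dual functionals. -/
lemma functional (hT : D.T = TT Z) (hS : D.S = SS Z) {t : Finset (Fin N → ℝ)} (ht : FaceX D t)
    (u : Fin N → ℝ) (hu : u ∈ t) : ∃ (a : Fin d → ℤ) (b : ℤ),
      ∀ v ∈ t, ∑ z, (a z : ℝ) * (Φ Z v) z + b = if v = u then 1 else 0 := by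
  classical
  have hval : ∀ X : Fin N → ℝ, ∀ z, (Φ Z X) z = ∑ i, X i * (Z.w i z : ℝ) := by
    intro X z
    rw [Φ_apply, Finset.sum_apply]
    exact sum_congr rfl (fun i _ => by rw [Pi.smul_apply, Z.gw i, smul_eq_mul])
  obtain ⟨σ, hσ, hσs, hdual⟩ := dual_X D ht
  have hσface : σ.image Z.g ∈ T.faces := by
    rw [hT] at hσ
    rcases hσ with h0 | h0
    · subst h0
      obtain ⟨-, h2⟩ := ht.nn D u hu
      rw [sum_eq_zero (fun i _ => hσs u hu i (notMem_empty _))] at h2
      have := D.cpos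
      have h3 : c = 0 := by exact_mod_cast h2.symm
      omega
    · exact h0
  obtain ⟨e, he, hcov, heface, hdet⟩ := Z.fac σ hσface
  obtain ⟨φ, e0, h1, h2, h3⟩ := hdual (univ.image e)
    (fun i hi => by obtain ⟨j, rfl⟩ := hcov i hi; exact mem_image_of_mem _ (mem_univ _))
    (by rw [hT]; exact Or.inr heface) u hu
  set V : Fin (d + 1) → (Fin d → ℤ) := fun j => Z.w (e j) with hV
  have hdet0 : (diffM V).det ≠ 0 := by
    intro h0
    rw [h0] at hdet
    simp at hdet
  -- the real functional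
  set M : Matrix (Fin d) (Fin d) ℝ := (diffM V).map (Int.cast : ℤ → ℝ) with hM
  have hMdet : IsUnit M.det := by
    have : M.det = ((diffM V).det : ℝ) := (RingHom.map_det (Int.castRingHom ℝ) (diffM V)).symm
    rw [this]
    exact IsUnit.mk0 _ (by exact_mod_cast hdet0)
  set a : Fin d → ℝ := Matrix.mulVec M⁻¹ (fun j : Fin d => (φ (e j.succ) - φ (e 0) : ℝ)) with ha
  have hsolve : ∀ j : Fin d, ∑ z, (diffM V j z : ℝ) * a z = φ (e j.succ) - φ (e 0) := by
    intro j
    have hh : Matrix.mulVec M a = (fun j : Fin d => (φ (e j.succ) - φ (e 0) : ℝ)) := by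
      rw [ha, Matrix.mulVec_mulVec, Matrix.mul_nonsing_inv _ hMdet, Matrix.one_mulVec]
    have := congrFun hh j
    simpa [Matrix.mulVec, dotProduct, hM, Matrix.map_apply] using this
  -- evaluation
  have heval : ∀ X : Fin (d + 1) → ℝ, ∑ j, X j = c → ∀ y : Fin d → ℝ,
      (∀ z, ∑ j, X j * (V j z : ℝ) = y z) →
      ∑ z, a z * y z + (c * (φ (e 0) - ∑ z, a z * (V 0 z : ℝ)) + e0) =
      ∑ j, (φ (e j) : ℝ) * X j + e0 := by
    intro X hXs y hy
    have e1 : ∑ z, a z * y z = c * ∑ z, a z * (V 0 z : ℝ) +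
        ∑ j : Fin d, X j.succ * ∑ z, (diffM V j z : ℝ) * a z := by
      have e2 : ∀ z, a z * y z = c * (a z * (V 0 z : ℝ)) +
          ∑ j : Fin d, X j.succ * ((diffM V j z : ℝ) * a z) := by
        intro z
        rw [← hy z, diff_sum V X z, hXs, mul_add, mul_sum]
        congr 1
        · ring
        · exact sum_congr rfl (fun j _ => by ring)
      rw [sum_congr rfl (fun z _ => e2 z), sum_add_distrib, ← mul_sum, sum_comm]
      congr 1
      exact sum_congr rfl (fun j _ => by rw [mul_sum])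
    rw [e1, Fin.sum_univ_succ (f := fun j => (φ (e j) : ℝ) * X j)]
    simp only [hsolve]
    have e3 : ∑ j : Fin d, X j.succ * ((φ (e j.succ) : ℝ) - φ (e 0)) =
        ∑ j : Fin d, (φ (e j.succ) : ℝ) * X j.succ - (∑ j : Fin d, X j.succ) * φ (e 0) := by
      rw [sum_mul, ← sum_sub_distrib]
      exact sum_congr rfl (fun j _ => by ring)
    have e4 : ∑ j : Fin d, X j.succ = c - X 0 := by
      rw [← hXs, Fin.sum_univ_succ]; ring
    rw [e3, e4]
    ring
  -- integrality
  have hintG : ∀ y : Fin d → ℤ, ∃ n : ℤ,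
      ∑ z, a z * (y z : ℝ) + (c * (φ (e 0) - ∑ z, a z * (V 0 z : ℝ)) + e0) = n := by
    intro y
    obtain ⟨X, hXs, hXy⟩ := exists_coord V hdet0 (fun z => (y z : ℝ)) c
    rw [heval X hXs _ hXy]
    by_cases hX : IsInt X
    · choose n hn using hX
      refine ⟨∑ j, φ (e j) * n j + e0, ?_⟩
      push_cast
      congr 1
      exact sum_congr rfl (fun j _ => by rw [hn j])
    · have hG : InG V X := ⟨⟨c, hXs⟩, fun z => ⟨y z, hXy z⟩⟩
      have hG' : InG V (fun j => - X j) := by
        refine ⟨⟨-c, by rw [sum_neg_distrib, hXs]; push_cast; ring⟩, fun z => ⟨-y z, ?_⟩⟩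
        simp only [neg_mul, sum_neg_distrib]
        rw [hXy z]
        push_cast
        ring
      have hnX' : ¬ IsInt (fun j => - X j) := by
        intro hc
        apply hX
        intro j
        obtain ⟨n, hn⟩ := hc j
        exact ⟨-n, by push_cast; linarith⟩
      have h2X := class_unique V hdet X _ hG hG' hX hnX'
      choose n hn using h2X
      have hn' : ∀ j, X j = (n j : ℝ) / 2 := fun j => by
        have := hn j
        simp only at this
        linarith
      set τ' : Finset (Fin (d + 1)) := univ.filter (fun j => Odd (n j)) with hτ'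
      have hXl : ∀ j, X j = ((n j / 2 : ℤ) : ℝ) + if j ∈ τ' then 1 / 2 else 0 := by
        intro j
        rw [hn' j]
        by_cases hj : Odd (n j)
        · have : j ∈ τ' := mem_filter.2 ⟨mem_univ _, hj⟩
          rw [if_pos this]
          have h4 : n j = 2 * (n j / 2) + 1 := by
            obtain ⟨k, hk⟩ := hj
            omega
          have h5 : (n j : ℝ) = 2 * ((n j / 2 : ℤ) : ℝ) + 1 := by exact_mod_cast h4
          linarith
        · have : j ∉ τ' := fun h => hj (mem_filter.1 h).2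
          rw [if_neg this]
          have h4 : n j = 2 * (n j / 2) := by
            rw [Int.not_odd_iff_even] at hj
            obtain ⟨k, hk⟩ := hj
            omega
          have h5 : (n j : ℝ) = 2 * ((n j / 2 : ℤ) : ℝ) := by exact_mod_cast h4
          linarith
      have hτ'ne : τ'.Nonempty := by
        rw [nonempty_iff_ne_empty]
        intro h0
        apply hX
        intro j
        refine ⟨n j / 2, ?_⟩
        rw [hXl j, h0]
        simp
      have hsumτ : ∀ f : Fin (d + 1) → ℝ, ∑ j, f j * X j =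
          ∑ j, f j * ((n j / 2 : ℤ) : ℝ) + (∑ j ∈ τ', f j) / 2 := by
        intro f
        have : ∀ j, f j * X j = f j * ((n j / 2 : ℤ) : ℝ) + if j ∈ τ' then f j / 2 else 0 := by
          intro j
          rw [hXl j]
          split_ifs <;> ring
        rw [sum_congr rfl (fun j _ => this j), sum_add_distrib, sum_ite_mem, univ_inter, sum_div]
      -- `τ'` is special
      have hSτ : SS Z (τ'.image e) := by
        refine ⟨hτ'ne.image _, T.down_closed heface (image_subset_image
          (image_subset_image (subset_univ _))) ((hτ'ne.image _).image _), ?_, ?_⟩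
        · rw [card_image_of_injective _ he]
          have := hsumτ (fun _ => 1)
          simp only [one_mul] at this
          rw [hXs, sum_const] at this
          simp only [nsmul_eq_mul, mul_one] at this
          have h4 : ((τ'.card : ℤ) : ℝ) = ((2 * (c - ∑ j, n j / 2) : ℤ) : ℝ) := by
            push_cast
            push_cast at this
            linarith
          have h5 : (τ'.card : ℤ) = 2 * (c - ∑ j, n j / 2) := by exact_mod_cast h4
          have h6 : Even (τ'.card : ℤ) := by rw [h5]; exact even_two_mul _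
          exact_mod_cast h6
        · refine ⟨fun z => y z - ∑ j, (V j z) * (n j / 2), fun z => ?_⟩
          rw [sum_image (fun a _ b _ h => he h)]
          have := hsumτ (fun j => (V j z : ℝ))
          have h4 : ∑ j, (V j z : ℝ) * X j = y z := by
            rw [← hXy z]
            exact sum_congr rfl (fun j _ => mul_comm _ _)
          rw [h4] at this
          have h5 : ((2 * (y z - ∑ j, (V j z) * (n j / 2)) : ℤ) : ℝ) =
              ((∑ j ∈ τ', V j z : ℤ) : ℝ) := by
            push_cast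
            push_cast at this
            linarith
          exact_mod_cast h5
      have heven := h3 (τ'.image e) (by rw [hS]; exact hSτ)
        (image_subset_image (subset_univ _))
      rw [sum_image (fun a _ b _ h => he h)] at heven
      obtain ⟨k, hk⟩ := heven
      refine ⟨∑ j, φ (e j) * (n j / 2) + k + e0, ?_⟩
      rw [hsumτ (fun j => (φ (e j) : ℝ))]
      have hk' : ∑ j ∈ τ', (φ (e j) : ℝ) = k + k := by exact_mod_cast hk
      rw [hk']
      push_cast
      ring
  choose n hn using hintG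
  have hn0 := hn 0
  simp only [Pi.zero_apply, Int.cast_zero, mul_zero, sum_const_zero, zero_add] at hn0
  refine ⟨fun z => n (Pi.single z 1) - n 0, n 0, ?_⟩
  have haz : ∀ z, ((n (Pi.single z 1) - n 0 : ℤ) : ℝ) = a z := by
    intro z
    have h4 := hn (Pi.single z 1)
    have h5 : ∑ z', a z' * ((Pi.single z (1 : ℤ) : Fin d → ℤ) z' : ℝ) = a z := by
      rw [sum_eq_single z]
      · simp
      · intro b _ hb
        simp [Pi.single_apply, hb]
      · intro hc; exact absurd (mem_univ _) hc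
    rw [h5] at h4
    push_cast
    linarith
  intro v hv
  simp only [haz]
  rw [← hn0]
  have hvz : ∀ i, i ∉ univ.image e → v i = 0 := by
    intro i hi
    refine hσs v hv i (fun hiσ => hi ?_)
    obtain ⟨j, rfl⟩ := hcov i hiσ
    exact mem_image_of_mem _ (mem_univ _)
  have hsumv : ∀ f : Fin N → ℝ, ∑ i, f i * v i = ∑ j, f (e j) * v (e j) := by
    intro f
    rw [← sum_subset (subset_univ (univ.image e)) (fun i _ hi => by rw [hvz i hi, mul_zero]),
      sum_image (fun a _ b _ h => he h)]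
  have hs1 : ∑ j, v (e j) = c := by
    have := hsumv (fun _ => 1)
    simp only [one_mul] at this
    rw [← this, (ht.nn D v hv).2]
  rw [heval (fun j => v (e j)) hs1 (Φ Z v) (fun z => by
    rw [hval]
    have := hsumv (fun i => (Z.w i z : ℝ))
    rw [sum_congr rfl (fun i _ => mul_comm (v i) ((Z.w i z : ℤ) : ℝ)), this]
    exact sum_congr rfl (fun j _ => mul_comm _ _))]
  rw [← hsumv (fun i => (φ i : ℝ))]
  by_cases hvu : v = u
  · rw [if_pos hvu, hvu, h1]
  · rw [if_neg hvu, h2 v hv hvu]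

end Run7.h560.Main
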