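import Pool.Agent.Run7.h560.KuhnA

/-!
# Decomposition of a dilated simplex into star shaped regions around half-integral points

`τ` is a set of coordinates with an even number `2 h` of elements, `c ≥ h`. The simplex
`{x ≥ 0, ∑ x = c}` is divided into polytopes of type A with integral constants, one for each point
`pt τ l`, all of whose (active) facets are at distance `1 / 2` from this point.
-/

set_option autoImplicit false

namespace Run7.h560.Region

open Finset Run7.h560.Kuhn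

variable {N : ℕ}

/-- The inequality `Y x k - Y x j ≤ m`. -/
structure Ineq where
  /-- left index -/
  j : ℕ
  /-- right index -/
  k : ℕ
  /-- the constant -/
  m : ℤ

/-- The slack of an inequality. -/
def Ineq.val (f : Ineq) (x : Fin N → ℝ) : ℝ := f.m - (Y x f.k - Y x f.j)

/-- The point `l + (1/2) 1_τ`. -/
noncomputable def pt (τ : Finset (Fin N)) (l : Fin N → ℤ) : Fin N → ℝ :=
  fun i => (l i : ℝ) + if i ∈ τ then 1 / 2 else 0

/-- Admissible integral parts. -/
def Adm (τ : Finset (Fin N)) (c : ℤ) (l : Fin N → ℤ) : Prop :=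
  (∀ i, 0 ≤ l i) ∧ 2 * ∑ i, l i + τ.card = 2 * c

/-- A system of regions for `τ` and `c`. -/
structure IsRegions (τ : Finset (Fin N)) (c : ℤ) (act : (Fin N → ℤ) → Set Ineq) : Prop where
  fin : ∀ l, (act l).Finite
  half : ∀ l, Adm τ c l → ∀ f ∈ act l, f.val (pt τ l) = 1 / 2
  cover : ∀ x : Fin N → ℝ, (∀ i, 0 ≤ x i) → ∑ i, x i = c →
    ∃ l, Adm τ c l ∧ (∀ i, x i = 0 → l i = 0) ∧ ∀ f ∈ act l, 0 ≤ f.val x
  disj : ∀ l l', Adm τ c l → Adm τ c l' → l ≠ l' → ∀ x : Fin N → ℝ, ∑ i, x i = c →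
    (∀ f ∈ act l, 0 ≤ f.val x) → (∀ f ∈ act l', 0 ≤ f.val x) →
    (∃ f ∈ act l, f.val x = 0) ∧ ∃ f ∈ act l', f.val x = 0
  nonneg : ∀ l, Adm τ c l → ∀ x : Fin N → ℝ, ∑ i, x i = c → (∀ f ∈ act l, 0 ≤ f.val x) →
    (∀ i, pt τ l i = 0 → 0 ≤ x i) → ∀ i, 0 ≤ x i
  bdd : ∀ l, Adm τ c l → ∀ x : Fin N → ℝ, ∑ i, x i = c → (∀ i, 0 ≤ x i) →
    (∀ f ∈ act l, 1 / 2 ≤ f.val x) → x = pt τ l

section Machine

variable (b : ℕ → Prop)

open Classical in
/-- parity of the number of elements up to `u` (`true` is odd) -/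
noncomputable def p : ℕ → Bool
  | 0 => true
  | u + 1 => if b (u + 1) then !(p u) else p u

open Classical in
/-- the start of the current interval -/
noncomputable def s : ℕ → ℕ
  | 0 => 0
  | u + 1 => if b (u + 1) then (if p b u = true then u + 1 else 0) else s u

open Classical in
/-- number of completed pairs -/
noncomputable def q : ℕ → ℕ
  | 0 => 0
  | u + 1 => if b (u + 1) then (if p b u = true then q u else q u + 1) else q u

/-- the constant of position `u` -/
noncomputable def κ (u : ℕ) : ℤ := if p b u = true then (q b u : ℤ) else 0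

lemma s_odd (u : ℕ) (h : p b u = true) : s b u = 0 := by
  classical
  induction u with
  | zero => rfl
  | succ u ih =>
    by_cases hb : b (u + 1)
    · simp only [p, if_pos hb] at h
      have h' : p b u = false := by simpa using h
      simp [s, hb, h']
    · simp only [p, if_neg hb] at h
      simp [s, hb, ih h]

lemma s_even (u : ℕ) (h : p b u = false) : 0 < s b u ∧ s b u ≤ u ∧
    p b (s b u - 1) = true ∧ q b (s b u - 1) = q b u := by
  classical
  induction u with
  | zero => simp [p] at h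
  | succ u ih =>
    by_cases hb : b (u + 1)
    · simp only [p, if_pos hb] at h
      have h' : p b u = true := by simpa using h
      simp [s, q, hb, h']
    · simp only [p, if_neg hb] at h
      obtain ⟨h1, h2, h3, h4⟩ := ih h
      simp only [s, q, if_neg hb]
      exact ⟨h1, by omega, h3, h4⟩

lemma s_le (u : ℕ) : s b u ≤ u := by
  cases h : p b u
  · exact (s_even b u h).2.1
  · rw [s_odd b u h]; exact Nat.zero_le _

/-- count function of `b` in halves -/
lemma count (g : ℕ → ℝ) (h1 : g 1 = 1 / 2)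
    (hs : ∀ u, b (u + 1) → g (u + 2) = g (u + 1) + 1 / 2)
    (hn : ∀ u, ¬ b (u + 1) → g (u + 2) = g (u + 1)) (u : ℕ) :
    g (u + 1) = if p b u = true then (q b u : ℝ) + 1 / 2 else (q b u : ℝ) + 1 := by
  classical
  induction u with
  | zero => simp [p, q, h1]
  | succ u ih =>
    by_cases hb : b (u + 1)
    · rw [hs u hb, ih]
      cases h : p b u
      · simp only [p, q, if_pos hb, h]
        simp
      · simp only [p, q, if_pos hb, h]
        simp
        ring
    · rw [hn u hb, ih]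
      simp only [p, q, if_neg hb]

lemma count_diff (g : ℕ → ℝ) (h0 : g 0 = 0) (h1 : g 1 = 1 / 2)
    (hs : ∀ u, b (u + 1) → g (u + 2) = g (u + 1) + 1 / 2)
    (hn : ∀ u, ¬ b (u + 1) → g (u + 2) = g (u + 1)) (u : ℕ) :
    g (u + 1) - g (s b u) = κ b u + 1 / 2 := by
  have hc := count b g h1 hs hn
  cases h : p b u
  · obtain ⟨e1, e2, e3, e4⟩ := s_even b u h
    have e5 := hc (s b u - 1)
    rw [Nat.sub_add_cancel e1, if_pos e3, e4] at e5
    rw [hc u, e5, κ]
    simp [h]
    ring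
  · rw [hc u, s_odd b u h, h0, κ]
    simp [h]

end Machine

/-- Membership in `τ` for natural numbers. -/
def mem (τ : Finset (Fin N)) (u : ℕ) : Prop := ∃ h : u < N, (⟨u, h⟩ : Fin N) ∈ τ

noncomputable instance (τ : Finset (Fin N)) (u : ℕ) : Decidable (mem τ u) :=
  Classical.propDecidable _

/-- The functional of position `u`. -/
noncomputable def z (τ : Finset (Fin N)) (x : Fin N → ℝ) (u : ℕ) : ℝ :=
  Y x (u + 1) - Y x (s (mem τ) u)

/-- The level of position `u`. -/
noncomputable def lev (τ : Finset (Fin N)) (l : Fin N → ℤ) (u : ℕ) : ℤ :=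
  Y l (u + 1) - Y l (s (mem τ) u) + κ (mem τ) u

/-- upper inequality -/
noncomputable def up (τ : Finset (Fin N)) (l : Fin N → ℤ) (u : ℕ) : Ineq :=
  ⟨s (mem τ) u, u + 1, lev τ l u + 1⟩

/-- lower inequality -/
noncomputable def lo (τ : Finset (Fin N)) (l : Fin N → ℤ) (u : ℕ) : Ineq :=
  ⟨u + 1, s (mem τ) u, -lev τ l u⟩

/-- wall -/
def wall (u : ℕ) : Ineq := ⟨u + 1, u, 0⟩

lemma up_val (τ : Finset (Fin N)) (l : Fin N → ℤ) (u : ℕ) (x : Fin N → ℝ) :
    (up τ l u).val x = lev τ l u + 1 - z τ x u := by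
  simp only [Ineq.val, up, z]
  push_cast
  ring

lemma lo_val (τ : Finset (Fin N)) (l : Fin N → ℤ) (u : ℕ) (x : Fin N → ℝ) :
    (lo τ l u).val x = z τ x u - lev τ l u := by
  simp only [Ineq.val, lo, z]
  push_cast
  ring

lemma wall_val (i : Fin N) (x : Fin N → ℝ) : (wall i).val x = x i := by
  simp only [Ineq.val, wall]
  rw [Y_succ]
  push_cast
  ring

/-- The active inequalities. -/
def act (τ : Finset (Fin N)) (l : Fin N → ℤ) : Set Ineq :=
  {f | (∃ i : Fin N, Y l ((i : ℕ) + 1) < ∑ i, l i ∧ f = up τ l i) ∨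
    (∃ i : Fin N, 0 < l i ∧ f = lo τ l i) ∨ ∃ i : Fin N, l i = 0 ∧ i ∈ τ ∧ f = wall i}

lemma act_finite (τ : Finset (Fin N)) (l : Fin N → ℤ) : (act τ l).Finite := by
  have h : act τ l ⊆ (Set.range fun i : Fin N => up τ l i) ∪
      ((Set.range fun i : Fin N => lo τ l i) ∪ Set.range fun i : Fin N => wall (i : ℕ)) := by
    rintro f (⟨i, -, rfl⟩ | ⟨i, -, rfl⟩ | ⟨i, -, -, rfl⟩)
    · exact Or.inl ⟨i, rfl⟩
    · exact Or.inr (Or.inl ⟨i, rfl⟩)
    · exact Or.inr (Or.inr ⟨i, rfl⟩)
  exact ((Set.finite_range _).union ((Set.finite_range _).union (Set.finite_range _))).subset h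

lemma Y_mono {l : Fin N → ℤ} (hl : ∀ i, 0 ≤ l i) {j k : ℕ} (h : j ≤ k) : Y l j ≤ Y l k := by
  unfold Y
  refine sum_le_sum (fun i _ => ?_)
  split_ifs with h1 h2 h2
  · exact le_rfl
  · omega
  · exact hl i
  · exact le_rfl

lemma Y_le_sum {l : Fin N → ℤ} (hl : ∀ i, 0 ≤ l i) (k : ℕ) : Y l k ≤ ∑ i, l i := by
  unfold Y
  refine sum_le_sum (fun i _ => ?_)
  split_ifs
  · exact le_rfl
  · exact hl i

lemma Y_pt (τ : Finset (Fin N)) (l : Fin N → ℤ) (k : ℕ) :
    Y (pt τ l) k = ((Y l k : ℤ) : ℝ) + Y (fun i : Fin N => if i ∈ τ then (1 / 2 : ℝ) else 0) k := by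
  unfold pt
  rw [Y_add, Y_cast]

section Start

variable (τ : Finset (Fin N)) (hN : 0 < N) (h0 : (⟨0, hN⟩ : Fin N) ∈ τ)

include h0 in
lemma z_pt (l : Fin N → ℤ) (u : ℕ) : z τ (pt τ l) u = lev τ l u + 1 / 2 := by
  set g : ℕ → ℝ := fun k => Y (fun i : Fin N => if i ∈ τ then (1 / 2 : ℝ) else 0) k with hg
  have hs : ∀ u, mem τ (u + 1) → g (u + 2) = g (u + 1) + 1 / 2 := by
    rintro u ⟨hu, hm⟩
    have := Y_succ (fun i : Fin N => if i ∈ τ then (1 / 2 : ℝ) else 0) ⟨u + 1, hu⟩
    simp only [hm, if_true] at this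
    exact this
  have hn : ∀ u, ¬ mem τ (u + 1) → g (u + 2) = g (u + 1) := by
    intro u hu
    by_cases h : u + 1 < N
    · have := Y_succ (fun i : Fin N => if i ∈ τ then (1 / 2 : ℝ) else 0) ⟨u + 1, h⟩
      have hm : (⟨u + 1, h⟩ : Fin N) ∉ τ := fun hm => hu ⟨h, hm⟩
      simp only [hm, if_false, add_zero] at this
      exact this
    · push Not at h
      simp only [hg]
      rw [Y_ge _ h, Y_ge _ (by omega)]
  have h1 : g 1 = 1 / 2 := by
    have := Y_succ (fun i : Fin N => if i ∈ τ then (1 / 2 : ℝ) else 0) ⟨0, hN⟩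
    simp only [h0, if_true, zero_add, Y_zero] at this
    exact this
  have key := count_diff (mem τ) g (Y_zero _) h1 hs hn u
  unfold z lev
  rw [Y_pt, Y_pt]
  push_cast
  simp only [hg] at key
  linarith

include h0 in
lemma half_act (l : Fin N → ℤ) (f : Ineq) (hf : f ∈ act τ l) : f.val (pt τ l) = 1 / 2 := by
  rcases hf with ⟨i, -, rfl⟩ | ⟨i, -, rfl⟩ | ⟨i, hi, hiτ, rfl⟩
  · rw [up_val, z_pt τ hN h0]; ring
  · rw [lo_val, z_pt τ hN h0]; ring
  · rw [wall_val, pt, hi, if_pos hiτ]; simp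

lemma disj_aux (l l' : Fin N → ℤ) (hl : ∀ i, 0 ≤ l i) (hl' : ∀ i, 0 ≤ l' i)
    (hsum : ∑ i, l i = ∑ i, l' i) (i : Fin N) (hpre : ∀ j ≤ (i : ℕ), Y l j = Y l' j)
    (hlt : l i < l' i) (x : Fin N → ℝ)
    (h1 : ∀ f ∈ act τ l, 0 ≤ f.val x) (h2 : ∀ f ∈ act τ l', 0 ≤ f.val x) :
    (∃ f ∈ act τ l, f.val x = 0) ∧ ∃ f ∈ act τ l', f.val x = 0 := by
  have e1 := Y_succ l i
  have e2 := Y_succ l' i
  have e3 := hpre i le_rfl
  have e4 : Y l ((i : ℕ) + 1) < ∑ i, l i := by
    rw [hsum]
    have := Y_le_sum hl' ((i : ℕ) + 1)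
    linarith
  have m1 : up τ l i ∈ act τ l := Or.inl ⟨i, e4, rfl⟩
  have m2 : lo τ l' i ∈ act τ l' := Or.inr (Or.inl ⟨i, lt_of_le_of_lt (hl i) hlt, rfl⟩)
  have v1 := h1 _ m1
  have v2 := h2 _ m2
  have hlev : lev τ l i + 1 ≤ lev τ l' i := by
    unfold lev
    rw [hpre _ (s_le _ _)]
    linarith
  have hlev' : (lev τ l i : ℝ) + 1 ≤ lev τ l' i := by exact_mod_cast hlev
  rw [up_val] at v1
  rw [lo_val] at v2
  refine ⟨⟨_, m1, ?_⟩, ⟨_, m2, ?_⟩⟩
  · rw [up_val]; linarith
  · rw [lo_val]; linarith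

lemma first_diff {l l' : Fin N → ℤ} (hne : l ≠ l') :
    ∃ i : Fin N, (∀ j ≤ (i : ℕ), Y l j = Y l' j) ∧ l i ≠ l' i := by
  classical
  have hex : ∃ k, Y l k ≠ Y l' k := by
    by_contra hcon
    push Not at hcon
    exact hne (ext_Y hcon)
  set k := Nat.find hex with hk
  have hk1 : Y l k ≠ Y l' k := Nat.find_spec hex
  have hk2 : ∀ j < k, Y l j = Y l' j := fun j hj => not_not.1 (Nat.find_min hex hj)
  have hk0 : k ≠ 0 := by
    intro h
    rw [h, Y_zero, Y_zero] at hk1
    exact hk1 rfl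
  have hkN : k - 1 < N := by
    by_contra hcon
    push Not at hcon
    apply hk1
    have := hk2 (k - 1) (by omega)
    rw [Y_ge l hcon, Y_ge l' hcon] at this
    rw [Y_ge l (by omega), Y_ge l' (by omega), this]
  refine ⟨⟨k - 1, hkN⟩, fun j hj => hk2 j (by simp only at hj; omega), fun h => hk1 ?_⟩
  have e1 := Y_succ l ⟨k - 1, hkN⟩
  have e2 := Y_succ l' ⟨k - 1, hkN⟩
  simp only [Nat.sub_add_cancel (Nat.pos_of_ne_zero hk0)] at e1 e2
  rw [e1, e2, h, hk2 (k - 1) (by omega)]

lemma disj_act (l l' : Fin N → ℤ) (hl : ∀ i, 0 ≤ l i) (hl' : ∀ i, 0 ≤ l' i)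
    (hsum : ∑ i, l i = ∑ i, l' i) (hne : l ≠ l') (x : Fin N → ℝ)
    (h1 : ∀ f ∈ act τ l, 0 ≤ f.val x) (h2 : ∀ f ∈ act τ l', 0 ≤ f.val x) :
    (∃ f ∈ act τ l, f.val x = 0) ∧ ∃ f ∈ act τ l', f.val x = 0 := by
  obtain ⟨i, hpre, hi⟩ := first_diff hne
  rcases lt_or_gt_of_ne hi with h | h
  · exact disj_aux τ l l' hl hl' hsum i hpre h x h1 h2
  · exact (disj_aux τ l' l hl' hl hsum.symm i (fun j hj => (hpre j hj).symm) h x h2 h1).symm

lemma lower_bound (l : Fin N → ℤ) (hl : ∀ i, 0 ≤ l i) (x : Fin N → ℝ) (ε : ℝ) (hε : ε ≤ 1 / 2)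
    (hx : ∀ f ∈ act τ l, ε ≤ f.val x) (i : Fin N) (hi : 0 < l i) :
    (l i : ℝ) - 1 + 2 * ε + (if mem τ i then ε else 0) ≤ x i := by
  classical
  obtain ⟨u, hu⟩ := i
  have hY := Y_succ l ⟨u, hu⟩
  have hYx := Y_succ x ⟨u, hu⟩
  simp only at hY hYx ⊢
  have hlo := hx (lo τ l u) (Or.inr (Or.inl ⟨⟨u, hu⟩, hi, rfl⟩))
  rw [lo_val] at hlo
  have hlt : ∀ k ≤ u, Y l k < ∑ i, l i := by
    intro k hk
    have h1 := Y_mono hl hk
    have h2 := Y_le_sum hl (u + 1)
    linarith
  have hup : ∀ v, v < u → z τ x v ≤ lev τ l v + 1 - ε := by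
    intro v hv
    have := hx (up τ l v) (Or.inl ⟨⟨v, by omega⟩, hlt (v + 1) (by omega), rfl⟩)
    rw [up_val] at this
    linarith
  unfold z lev at hlo
  rcases Nat.eq_zero_or_pos u with h0 | hpos
  · subst h0
    have e1 : s (mem τ) 0 = 0 := rfl
    have e2 : κ (mem τ) 0 = 0 := by simp [κ, p, q]
    rw [e1, e2, Y_zero, Y_zero] at hlo
    rw [Y_zero, zero_add] at hY hYx
    rw [hY, hYx] at hlo
    push_cast at hlo
    split_ifs <;> linarith
  · obtain ⟨v, rfl⟩ : ∃ v, u = v + 1 := ⟨u - 1, by omega⟩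
    have hupv := hup v (by omega)
    unfold z lev at hupv
    by_cases hm : mem τ (v + 1)
    · rw [if_pos hm]
      cases hp : p (mem τ) v
      · -- previous even, now odd
        have hp1 : p (mem τ) (v + 1) = true := by simp [p, hm, hp]
        have hs1 : s (mem τ) (v + 1) = 0 := s_odd _ _ hp1
        have hq1 : q (mem τ) (v + 1) = q (mem τ) v + 1 := by simp [q, hm, hp]
        obtain ⟨g1, g2, g3, g4⟩ := s_even _ _ hp
        have hup2 := hup (s (mem τ) v - 1) (by omega)
        unfold z lev at hup2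
        rw [Nat.sub_add_cancel g1, s_odd _ _ g3] at hup2
        have k1 : κ (mem τ) (v + 1) = q (mem τ) v + 1 := by simp [κ, hp1, hq1]
        have k2 : κ (mem τ) v = 0 := by simp [κ, hp]
        have k3 : κ (mem τ) (s (mem τ) v - 1) = q (mem τ) v := by simp [κ, g3, g4]
        rw [hs1, k1, Y_zero, Y_zero] at hlo
        rw [k2] at hupv
        rw [k3, Y_zero, Y_zero] at hup2
        rw [hY] at hlo
        push_cast at hlo hupv hup2
        linarith
      · -- previous odd, now even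
        have hs1 : s (mem τ) (v + 1) = v + 1 := by simp [s, hm, hp]
        have hp1 : p (mem τ) (v + 1) = false := by simp [p, hm, hp]
        have k1 : κ (mem τ) (v + 1) = 0 := by simp [κ, hp1]
        rw [hs1, k1] at hlo
        rw [hY] at hlo
        push_cast at hlo
        linarith
    · rw [if_neg hm]
      have hp1 : p (mem τ) (v + 1) = p (mem τ) v := by simp [p, hm]
      have hs1 : s (mem τ) (v + 1) = s (mem τ) v := by simp [s, hm]
      have hq1 : q (mem τ) (v + 1) = q (mem τ) v := by simp [q, hm]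
      have k1 : κ (mem τ) (v + 1) = κ (mem τ) v := by simp [κ, hp1, hq1]
      rw [hs1, k1, hY] at hlo
      push_cast at hlo hupv
      linarith

end Start

/-- Course of values recursion. -/
lemma exists_rec (G : ℕ → (ℕ → ℤ) → ℤ)
    (hG : ∀ u f g, (∀ j ≤ u, f j = g j) → G u f = G u g) :
    ∃ L : ℕ → ℤ, L 0 = 0 ∧ ∀ u, L (u + 1) = G u L := by
  classical
  let H : ℕ → (ℕ → ℤ) := fun n => Nat.rec (fun _ => 0)
    (fun n f => Function.update f (n + 1) (G n f)) n
  have hH : ∀ n, H (n + 1) = Function.update (H n) (n + 1) (G n (H n)) := fun n => rfl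
  have h1 : ∀ n j, j ≤ n → H n j = H j j := by
    intro n
    induction n with
    | zero => intro j hj; rw [Nat.le_zero.1 hj]
    | succ n ih =>
      intro j hj
      rcases Nat.lt_or_ge j (n + 1) with h | h
      · rw [hH, Function.update_of_ne (by omega), ih j (by omega)]
      · rw [le_antisymm hj h]
  refine ⟨fun n => H n n, rfl, fun u => ?_⟩
  show H (u + 1) (u + 1) = _
  rw [hH, Function.update_self]
  exact hG _ _ _ (fun j hj => h1 u j hj)

section Cover

variable (τ : Finset (Fin N)) (hN : 0 < N) (h0 : (⟨0, hN⟩ : Fin N) ∈ τ)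

include h0 in
lemma count_total (h : ℕ) (hτ : τ.card = 2 * h) :
    p (mem τ) (N - 1) = false ∧ q (mem τ) (N - 1) + 1 = h := by
  have key := z_pt τ hN h0 0
  set g : ℕ → ℝ := fun k => Y (fun i : Fin N => if i ∈ τ then (1 / 2 : ℝ) else 0) k with hg
  have hs : ∀ u, mem τ (u + 1) → g (u + 2) = g (u + 1) + 1 / 2 := by
    rintro u ⟨hu, hm⟩
    have := Y_succ (fun i : Fin N => if i ∈ τ then (1 / 2 : ℝ) else 0) ⟨u + 1, hu⟩
    simp only [hm, if_true] at this
    exact this
  have hn : ∀ u, ¬ mem τ (u + 1) → g (u + 2) = g (u + 1) := by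
    intro u hu
    by_cases h : u + 1 < N
    · have := Y_succ (fun i : Fin N => if i ∈ τ then (1 / 2 : ℝ) else 0) ⟨u + 1, h⟩
      have hm : (⟨u + 1, h⟩ : Fin N) ∉ τ := fun hm => hu ⟨h, hm⟩
      simp only [hm, if_false, add_zero] at this
      exact this
    · push Not at h
      simp only [hg]
      rw [Y_ge _ h, Y_ge _ (by omega)]
  have h1 : g 1 = 1 / 2 := by
    have := Y_succ (fun i : Fin N => if i ∈ τ then (1 / 2 : ℝ) else 0) ⟨0, hN⟩
    simp only [h0, if_true, zero_add, Y_zero] at this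
    exact this
  have key := count (mem τ) g h1 hs hn (N - 1)
  rw [Nat.sub_add_cancel hN] at key
  have hgN : g N = h := by
    simp only [hg]
    rw [Y_ge _ le_rfl, sum_ite_mem, univ_inter, sum_const, hτ]
    push_cast [nsmul_eq_mul]
    ring
  rw [hgN] at key
  cases hp : p (mem τ) (N - 1)
  · rw [hp] at key
    simp only [Bool.false_eq_true, if_false] at key
    refine ⟨rfl, ?_⟩
    exact_mod_cast key.symm
  · rw [hp] at key
    simp only [if_true] at key
    exfalso
    have : (2 * h : ℝ) = 2 * q (mem τ) (N - 1) + 1 := by rw [key]; ring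
    have h3 : 2 * h = 2 * q (mem τ) (N - 1) + 1 := by exact_mod_cast this
    omega

include h0 in
theorem cover_act (h : ℕ) (hτ : τ.card = 2 * h) (c : ℤ) (hc : (h : ℤ) ≤ c) (x : Fin N → ℝ)
    (hx0 : ∀ i, 0 ≤ x i) (hxs : ∑ i, x i = c) :
    ∃ l : Fin N → ℤ, Adm τ c l ∧ (∀ i, x i = 0 → l i = 0) ∧ ∀ f ∈ act τ l, 0 ≤ f.val x := by
  classical
  set C : ℤ := c - h with hC
  have hC0 : 0 ≤ C := by rw [hC]; linarith
  obtain ⟨L, hL0, hL⟩ := exists_rec
    (fun u f => min C (max (f u) (⌊z τ x u⌋ - κ (mem τ) u + f (s (mem τ) u))))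
    (fun u f g hfg => by rw [hfg u le_rfl, hfg _ (s_le _ u)])
  have hLC : ∀ u, L u ≤ C := by
    intro u
    cases u with
    | zero => rw [hL0]; exact hC0
    | succ u => rw [hL]; exact min_le_left _ _
  have hLs : ∀ u, L u ≤ L (u + 1) := by
    intro u
    rw [hL]
    exact le_min (hLC u) (le_max_left _ _)
  have hLm : Monotone L := monotone_nat_of_le_succ hLs
  -- floor bound when not capped
  have hfl : ∀ u, L (u + 1) < C → ⌊z τ x u⌋ ≤ L (u + 1) - L (s (mem τ) u) + κ (mem τ) u := by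
    intro u hu
    have h1 := hL u
    rcases le_total C (max (L u) (⌊z τ x u⌋ - κ (mem τ) u + L (s (mem τ) u))) with h2 | h2
    · rw [min_eq_left h2] at h1; omega
    · rw [min_eq_right h2] at h1
      have := le_max_right (L u) (⌊z τ x u⌋ - κ (mem τ) u + L (s (mem τ) u))
      omega
  have hfl' : ∀ u, L (u + 1) < C →
      z τ x u < L (u + 1) - L (s (mem τ) u) + κ (mem τ) u + 1 := by
    intro u hu
    have h1 := hfl u hu
    have h2 := Int.lt_floor_add_one (z τ x u)
    have h3 : (⌊z τ x u⌋ : ℝ) ≤ ((L (u + 1) - L (s (mem τ) u) + κ (mem τ) u : ℤ) : ℝ) := by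
      exact_mod_cast h1
    push_cast at h3
    linarith
  have hfu : ∀ u, L u < L (u + 1) →
      ((L (u + 1) - L (s (mem τ) u) + κ (mem τ) u : ℤ) : ℝ) ≤ z τ x u := by
    intro u hu
    have h1 := hL u
    have h2 : L (u + 1) ≤ max (L u) (⌊z τ x u⌋ - κ (mem τ) u + L (s (mem τ) u)) := by
      rw [h1]; exact min_le_right _ _
    have h3 : L (u + 1) ≤ ⌊z τ x u⌋ - κ (mem τ) u + L (s (mem τ) u) := by
      rcases le_max_iff.1 h2 with h | h
      · omega
      · exact h
    have h4 : L (u + 1) - L (s (mem τ) u) + κ (mem τ) u ≤ ⌊z τ x u⌋ := by omega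
    exact Int.le_floor.1 h4
  -- the support
  have hsupp : ∀ i : Fin N, x i = 0 → L (i + 1) = L i := by
    rintro ⟨u, hu⟩ hxu
    have hYx := Y_succ x ⟨u, hu⟩
    simp only [hxu, add_zero] at hYx ⊢
    by_cases hcap : L u = C
    · exact le_antisymm (by rw [hcap]; exact hLC _) (hLs u)
    have hcap' : L u < C := lt_of_le_of_ne (hLC u) hcap
    refine le_antisymm ?_ (hLs u)
    rw [hL]
    refine (min_le_right _ _).trans (max_le le_rfl ?_)
    suffices hz : z τ x u < L u - L (s (mem τ) u) + κ (mem τ) u + 1 by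
      have h1 : ⌊z τ x u⌋ < L u - L (s (mem τ) u) + κ (mem τ) u + 1 := by
        rw [Int.floor_lt]
        push_cast
        exact hz
      omega
    rcases Nat.eq_zero_or_pos u with h0' | hpos
    · subst h0'
      have e1 : s (mem τ) 0 = 0 := rfl
      have e2 : κ (mem τ) 0 = 0 := by simp [κ, p, q]
      rw [Y_zero] at hYx
      have hYx' : Y x 1 = 0 := hYx
      unfold z
      rw [e1, e2, Y_zero]
      norm_num [hYx']
    · obtain ⟨v, rfl⟩ : ∃ v, u = v + 1 := ⟨u - 1, by omega⟩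
      have hupv := hfl' v hcap'
      unfold z at hupv ⊢
      by_cases hm : mem τ (v + 1)
      · cases hp : p (mem τ) v
        · have hp1 : p (mem τ) (v + 1) = true := by simp [p, hm, hp]
          have hs1 : s (mem τ) (v + 1) = 0 := s_odd _ _ hp1
          have hq1 : q (mem τ) (v + 1) = q (mem τ) v + 1 := by simp [q, hm, hp]
          obtain ⟨g1, g2, g3, g4⟩ := s_even _ _ hp
          have hup2 := hfl' (s (mem τ) v - 1) (by
            rw [Nat.sub_add_cancel g1]
            exact lt_of_le_of_lt (hLm (by omega)) hcap')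
          unfold z at hup2
          rw [Nat.sub_add_cancel g1, s_odd _ _ g3] at hup2
          have k1 : κ (mem τ) (v + 1) = q (mem τ) v + 1 := by simp [κ, hp1, hq1]
          have k2 : κ (mem τ) v = 0 := by simp [κ, hp]
          have k3 : κ (mem τ) (s (mem τ) v - 1) = q (mem τ) v := by simp [κ, g3, g4]
          rw [hs1, k1, Y_zero, hL0]
          rw [k2] at hupv
          rw [k3, Y_zero, hL0] at hup2
          push_cast at hupv hup2 ⊢
          linarith
        · have hs1 : s (mem τ) (v + 1) = v + 1 := by simp [s, hm, hp]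
          have hp1 : p (mem τ) (v + 1) = false := by simp [p, hm, hp]
          have k1 : κ (mem τ) (v + 1) = 0 := by simp [κ, hp1]
          rw [hs1, k1, hYx]
          push_cast
          linarith
      · have hp1 : p (mem τ) (v + 1) = p (mem τ) v := by simp [p, hm]
        have hs1 : s (mem τ) (v + 1) = s (mem τ) v := by simp [s, hm]
        have hq1 : q (mem τ) (v + 1) = q (mem τ) v := by simp [q, hm]
        have k1 : κ (mem τ) (v + 1) = κ (mem τ) v := by simp [κ, hp1, hq1]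
        rw [hs1, k1, hYx]
        linarith
  -- the total
  have htot : L N = C := by
    by_contra hne
    have hlt : L N < C := lt_of_le_of_ne (hLC N) hne
    obtain ⟨hp, hq⟩ := count_total τ hN h0 h hτ
    obtain ⟨g1, g2, g3, g4⟩ := s_even _ _ hp
    set t := s (mem τ) (N - 1) with ht
    have h1 := hfl' (t - 1) (by
      rw [Nat.sub_add_cancel g1]
      exact lt_of_le_of_lt (hLm (by omega)) hlt)
    unfold z at h1
    rw [Nat.sub_add_cancel g1, s_odd _ _ g3] at h1
    have k3 : κ (mem τ) (t - 1) = q (mem τ) (N - 1) := by simp [κ, g3, g4]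
    rw [k3, Y_zero, hL0] at h1
    have h2 := hfl (N - 1) (by rw [Nat.sub_add_cancel hN]; exact hlt)
    have k2 : κ (mem τ) (N - 1) = 0 := by simp [κ, hp]
    rw [Nat.sub_add_cancel hN, k2, ← ht] at h2
    have h3 : ⌊z τ x (N - 1)⌋ ≤ C - L t - 1 := by omega
    have h4 : z τ x (N - 1) < ((C - L t - 1 : ℤ) : ℝ) + 1 := by
      have := Int.lt_floor_add_one (z τ x (N - 1))
      have h5 : (⌊z τ x (N - 1)⌋ : ℝ) ≤ ((C - L t - 1 : ℤ) : ℝ) := by exact_mod_cast h3
      linarith
    unfold z at h4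
    rw [Nat.sub_add_cancel hN, ← ht, Y_ge x le_rfl, hxs] at h4
    have h5 : (q (mem τ) (N - 1) : ℝ) + 1 = h := by exact_mod_cast hq
    have h6 : (C : ℝ) = c - h := by rw [hC]; push_cast; ring
    push_cast at h1 h4
    linarith
  obtain ⟨l, hl⟩ := exists_vec (N := N) (fun k => L (min k N)) (by simp [hL0])
    (fun k hk => by simp [hk])
  have hl : ∀ k, Y l k = L (min k N) := hl
  have hlle : ∀ k, k ≤ N → Y l k = L k := fun k hk => by rw [hl, min_eq_left hk]
  have hli : ∀ i : Fin N, l i = L (i + 1) - L i := by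
    intro i
    have h1 := Y_succ l i
    rw [hlle _ (by omega), hlle _ (by omega)] at h1
    omega
  have hlsum : ∑ i, l i = C := by
    rw [← Y_ge l le_rfl, hlle N le_rfl, htot]
  have hlev : ∀ i : Fin N, lev τ l i = L (i + 1) - L (s (mem τ) i) + κ (mem τ) i := by
    intro i
    have := s_le (mem τ) i
    unfold lev
    rw [hlle _ (by omega), hlle _ (by omega)]
  refine ⟨l, ⟨fun i => ?_, ?_⟩, fun i hi => ?_, ?_⟩
  · rw [hli]
    have := hLs i
    omega
  · rw [hlsum, hτ, hC]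
    push_cast
    ring
  · rw [hli, hsupp i hi]
    ring
  · rintro f (⟨i, hi, rfl⟩ | ⟨i, hi, rfl⟩ | ⟨i, -, -, rfl⟩)
    · rw [up_val, hlev]
      rw [hlsum, hlle _ (by omega)] at hi
      have := hfl' i hi
      push_cast
      linarith
    · rw [lo_val, hlev]
      rw [hli] at hi
      have := hfu i (by omega)
      linarith
    · rw [wall_val]; exact hx0 i

end Cover

/-- The system of regions, when `0 ∈ τ`. -/
theorem isRegions_start (τ : Finset (Fin N)) (hN : 0 < N) (h0 : (⟨0, hN⟩ : Fin N) ∈ τ) (h : ℕ)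
    (hτ : τ.card = 2 * h) (c : ℤ) (hc : (h : ℤ) ≤ c) : IsRegions τ c (act τ) := by
  classical
  have hbd : ∀ l : Fin N → ℤ, (∀ i, 0 ≤ l i) → ∀ x : Fin N → ℝ, ∀ ε : ℝ, 0 ≤ ε → ε ≤ 1 / 2 →
      (∀ f ∈ act τ l, ε ≤ f.val x) → (∀ i, pt τ l i = 0 → 0 ≤ x i) → ∀ i,
      (if 0 < l i then (l i : ℝ) - 1 + 2 * ε + (if mem τ i then ε else 0) else
        (if mem τ i then ε else 0)) ≤ x i := by
    intro l hl x ε hε0 hε hf hx i
    split_ifs with h1 h2 h2
    · have := lower_bound τ l hl x ε hε hf i h1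
      rwa [if_pos h2] at this
    · have := lower_bound τ l hl x ε hε hf i h1
      rwa [if_neg h2] at this
    · have hli : l i = 0 := le_antisymm (not_lt.1 h1) (hl i)
      have hm : i ∈ τ := h2.2
      have := hf (wall i) (Or.inr (Or.inr ⟨i, hli, hm, rfl⟩))
      rwa [wall_val] at this
    · have hli : l i = 0 := le_antisymm (not_lt.1 h1) (hl i)
      have hm : i ∉ τ := fun hm => h2 ⟨i.2, hm⟩
      exact hx i (by simp [pt, hli, hm])
  refine ⟨act_finite τ, fun l _ f hf => half_act τ hN h0 l f hf, ?_, ?_, ?_, ?_⟩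
  · exact cover_act τ hN h0 h hτ c hc
  · intro l l' hl hl' hne x _ h1 h2
    refine disj_act τ l l' hl.1 hl'.1 ?_ hne x h1 h2
    have e1 := hl.2
    have e2 := hl'.2
    linarith
  · intro l hl x _ hf hx i
    have := hbd l hl.1 x 0 le_rfl (by norm_num) hf hx i
    refine le_trans ?_ this
    split_ifs with h1
    · have h2 : (1 : ℝ) ≤ l i := by exact_mod_cast h1
      linarith
    · have h2 : (1 : ℝ) ≤ l i := by exact_mod_cast h1
      linarith
    · exact le_rfl
    · exact le_rfl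
  · intro l hl x hxs hx hf
    have hge : ∀ i, pt τ l i ≤ x i := by
      intro i
      have := hbd l hl.1 x (1 / 2) (by norm_num) le_rfl hf (fun i _ => hx i) i
      refine le_trans ?_ this
      have hm : mem τ i ↔ i ∈ τ := ⟨fun h => h.2, fun h => ⟨i.2, h⟩⟩
      unfold pt
      by_cases h1 : 0 < l i
      · rw [if_pos h1]
        by_cases h2 : i ∈ τ
        · rw [if_pos h2, if_pos (hm.2 h2)]; linarith
        · rw [if_neg h2, if_neg (fun h => h2 (hm.1 h))]; linarith
      · have hli : l i = 0 := le_antisymm (not_lt.1 h1) (hl.1 i)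
        rw [if_neg h1, hli]
        by_cases h2 : i ∈ τ
        · rw [if_pos h2, if_pos (hm.2 h2)]; simp
        · rw [if_neg h2, if_neg (fun h => h2 (hm.1 h))]; simp
    have hsum : ∑ i, pt τ l i = ∑ i, x i := by
      rw [hxs]
      unfold pt
      rw [sum_add_distrib, sum_ite_mem, univ_inter, sum_const]
      have e1 := hl.2
      have e2 : (2 * ∑ i, (l i : ℝ)) + τ.card = 2 * c := by exact_mod_cast e1
      simp only [nsmul_eq_mul]
      linarith
    funext i
    exact ((sum_eq_sum_iff_of_le (fun i _ => hge i)).1 hsum i (mem_univ _)).symm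

end Run7.h560.Region
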