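import Pool.Agent.Run7.h560.Region

/-!
# Rotation of the coordinates
-/

set_option autoImplicit false

namespace Run7.h560.Region

open Finset Run7.h560.Kuhn

variable {N : ℕ}

section Rot

variable [NeZero N] (m : Fin N)

/-- The rotation by `m`. -/
def rot : Fin N ≃ Fin N := Equiv.addRight m

/-- The new index. -/
def idx (k : ℕ) : ℕ := if (m : ℕ) + min k N ≤ N then (m : ℕ) + min k N else (m : ℕ) + min k N - N

/-- The offset. -/
def off (c : ℤ) (k : ℕ) : ℤ := if (m : ℕ) + min k N ≤ N then 0 else c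

lemma Y_rot (c : ℤ) (x : Fin N → ℝ) (hx : ∑ i, x i = c) (k : ℕ) :
    Y (fun i => x (rot m i)) k = Y x (idx m k) - Y x m + off m c k := by
  have hm := m.2
  have key : ∀ k, k ≤ N → Y (fun i => x (rot m i)) k =
      Y x (if (m : ℕ) + k ≤ N then (m : ℕ) + k else (m : ℕ) + k - N) - Y x m +
      ((if (m : ℕ) + k ≤ N then 0 else c : ℤ) : ℝ) := by
    intro k
    induction k with
    | zero =>
      intro _
      rw [Y_zero, if_pos (by omega), if_pos (by omega)]
      simp
    | succ k ih =>
      intro hk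
      have h1 := Y_succ (fun i => x (rot m i)) ⟨k, hk⟩
      simp only at h1
      rw [h1, ih (by omega)]
      rcases lt_trichotomy ((m : ℕ) + k) N with h | h | h
      · have e : rot m ⟨k, hk⟩ = ⟨(m : ℕ) + k, h⟩ := by
          apply Fin.ext
          simp only [rot, Equiv.coe_addRight, Fin.val_add]
          rw [Nat.mod_eq_of_lt (by omega)]
          omega
        have h2 := Y_succ x ⟨(m : ℕ) + k, h⟩
        simp only at h2
        rw [if_pos h.le, if_pos h.le, if_pos (by omega), if_pos (by omega), e, ← add_assoc, h2]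
        ring
      · have e : rot m ⟨k, hk⟩ = ⟨0, by omega⟩ := by
          apply Fin.ext
          simp only [rot, Equiv.coe_addRight, Fin.val_add]
          rw [show k + (m : ℕ) = N by omega, Nat.mod_self]
        have h2 := Y_succ x ⟨0, by omega⟩
        simp only [Y_zero] at h2
        rw [if_pos h.le, if_pos h.le, if_neg (by omega), if_neg (by omega), e, h,
          show (m : ℕ) + (k + 1) - N = 0 + 1 by omega, h2, Y_ge x le_rfl, hx]
        push_cast
        ring
      · have e : rot m ⟨k, hk⟩ = ⟨(m : ℕ) + k - N, by omega⟩ := by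
          apply Fin.ext
          simp only [rot, Equiv.coe_addRight, Fin.val_add]
          rw [show k + (m : ℕ) = ((m : ℕ) + k - N) + N by omega, Nat.add_mod_right,
            Nat.mod_eq_of_lt (by omega)]
        have h2 := Y_succ x ⟨(m : ℕ) + k - N, by omega⟩
        simp only at h2
        rw [if_neg (by omega), if_neg (by omega), if_neg (by omega), if_neg (by omega), e,
          show (m : ℕ) + (k + 1) - N = (m : ℕ) + k - N + 1 by omega, h2]
        ring
  rw [Y_min, key _ (by omega)]
  rfl

/-- Pull back of an inequality. -/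
def pull (c : ℤ) (f : Ineq) : Ineq := ⟨idx m f.j, idx m f.k, f.m - off m c f.k + off m c f.j⟩

lemma pull_val (c : ℤ) (f : Ineq) (x : Fin N → ℝ) (hx : ∑ i, x i = c) :
    (pull m c f).val x = f.val (fun i => x (rot m i)) := by
  simp only [Ineq.val, pull]
  rw [Y_rot m c x hx, Y_rot m c x hx]
  push_cast
  ring

end Rot

lemma sum_pt {τ : Finset (Fin N)} {c : ℤ} {l : Fin N → ℤ} (hl : Adm τ c l) :
    ∑ i, pt τ l i = c := by
  unfold pt
  rw [sum_add_distrib, sum_ite_mem, univ_inter, sum_const]
  have e1 := hl.2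
  have e2 : (2 * ∑ i, (l i : ℝ)) + τ.card = 2 * c := by exact_mod_cast e1
  simp only [nsmul_eq_mul]
  linarith

/-- Systems of regions exist for all nonempty sets of even size. -/
theorem exists_regions (τ : Finset (Fin N)) (hne : τ.Nonempty) (h : ℕ) (hτ : τ.card = 2 * h)
    (c : ℤ) (hc : (h : ℤ) ≤ c) : ∃ act, IsRegions τ c act := by
  classical
  obtain ⟨m, hm⟩ := hne
  have hN : 0 < N := Fin.pos m
  haveI : NeZero N := ⟨hN.ne'⟩
  set τ' : Finset (Fin N) := τ.map (rot m).symm.toEmbedding with hτ'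
  have hmem : ∀ i, i ∈ τ' ↔ rot m i ∈ τ := by
    intro i
    rw [hτ', mem_map]
    constructor
    · rintro ⟨j, hj, rfl⟩
      simpa using hj
    · intro hi
      exact ⟨rot m i, hi, by simp⟩
  have hcard : τ'.card = 2 * h := by rw [hτ', card_map, hτ]
  have h0 : (⟨0, hN⟩ : Fin N) ∈ τ' := by
    rw [hmem]
    have : rot m ⟨0, hN⟩ = m := by
      have e : (⟨0, hN⟩ : Fin N) = 0 := rfl
      rw [e]
      simp [rot]
    rw [this]; exact hm
  have R := isRegions_start τ' hN h0 h hcard c hc
  have hpt : ∀ l : Fin N → ℤ, (fun i => pt τ l (rot m i)) = pt τ' (fun i => l (rot m i)) := by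
    intro l
    funext i
    simp only [pt, hmem]
  have hsum : ∀ {R : Type} [AddCommMonoid R] (x : Fin N → R), ∑ i, x (rot m i) = ∑ i, x i :=
    fun x => Equiv.sum_comp (rot m) x
  have hadm : ∀ l : Fin N → ℤ, Adm τ c l → Adm τ' c (fun i => l (rot m i)) := by
    rintro l ⟨h1, h2⟩
    refine ⟨fun i => h1 _, ?_⟩
    rw [hsum, hcard]
    rw [hτ] at h2
    exact h2
  refine ⟨fun l => (pull m c) '' (act τ' (fun i => l (rot m i))), ?_, ?_, ?_, ?_, ?_, ?_⟩
  · intro l
    exact (R.fin _).image _
  · rintro l hl _ ⟨f, hf, rfl⟩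
    rw [pull_val m c f _ (sum_pt hl), hpt]
    exact R.half _ (hadm l hl) f hf
  · intro x hx hxs
    obtain ⟨l', hl', hs', hf'⟩ := R.cover (fun i => x (rot m i)) (fun i => hx _)
      (by rw [hsum x, hxs])
    have e : (fun i => (fun j => l' ((rot m).symm j)) (rot m i)) = l' := by
      funext i; simp
    refine ⟨fun j => l' ((rot m).symm j), ⟨fun i => hl'.1 _, ?_⟩, ?_, ?_⟩
    · rw [← hsum, show (∑ i, (fun j => l' ((rot m).symm j)) (rot m i)) = ∑ i, l' i by rw [e], hτ]
      have := hl'.2
      rw [hcard] at this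
      exact this
    · intro i hi
      exact hs' _ (by simpa using hi)
    · rintro _ ⟨f, hf, rfl⟩
      rw [pull_val m c f x hxs]
      rw [e] at hf
      exact hf' f hf
  · intro l l' hl hl' hne x hxs h1 h2
    have hne' : (fun i => l (rot m i)) ≠ (fun i => l' (rot m i)) := by
      intro hcon
      apply hne
      funext i
      have := congrFun hcon ((rot m).symm i)
      simpa using this
    obtain ⟨⟨f, hf, hf0⟩, ⟨g, hg, hg0⟩⟩ := R.disj _ _ (hadm l hl) (hadm l' hl') hne'
      (fun i => x (rot m i)) (by rw [hsum x, hxs])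
      (fun f hf => by rw [← pull_val m c f x hxs]; exact h1 _ ⟨f, hf, rfl⟩)
      (fun f hf => by rw [← pull_val m c f x hxs]; exact h2 _ ⟨f, hf, rfl⟩)
    exact ⟨⟨_, ⟨f, hf, rfl⟩, by rw [pull_val m c f x hxs, hf0]⟩,
      ⟨_, ⟨g, hg, rfl⟩, by rw [pull_val m c g x hxs, hg0]⟩⟩
  · intro l hl x hxs hf hx i
    have := R.nonneg _ (hadm l hl) (fun i => x (rot m i)) (by rw [hsum x, hxs])
      (fun f hf' => by rw [← pull_val m c f x hxs]; exact hf _ ⟨f, hf', rfl⟩)
      (fun i hi => hx _ (by rw [← hpt] at hi; exact hi)) ((rot m).symm i)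
    simpa using this
  · intro l hl x hxs hx hf
    have := R.bdd _ (hadm l hl) (fun i => x (rot m i)) (by rw [hsum x, hxs]) (fun i => hx _)
      (fun f hf' => by rw [← pull_val m c f x hxs]; exact hf _ ⟨f, hf', rfl⟩)
    rw [← hpt] at this
    funext i
    have h1 := congrFun this ((rot m).symm i)
    simpa using h1

end Run7.h560.Region
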